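import Mathlib

set_option autoImplicit false
set_option linter.unusedSectionVars false

namespace Pool.Agent.Work.MP_620441_co

open Finset

variable {ι : Type*} [Fintype ι] [DecidableEq ι]

/-- The uniformity properties of a subspace `L` of dimension `m` of `ℝ^ι`
that we use. -/
structure Unif (L : Submodule ℝ (ι → ℝ)) (m : ℕ) : Prop where
  zeros : ∀ l ∈ L, l ≠ 0 → (univ.filter (fun i => l i = 0)).card < m
  ext : ∀ C : Finset ι, C.card ≤ m → ∀ u : ι → ℝ, ∃ l ∈ L, ∀ c ∈ C, l c = u c

/-- A sign condition is realised by a nonzero vector of `L`. -/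
def Rl (L : Submodule ℝ (ι → ℝ)) (P Q Z : Finset ι) : Prop :=
  ∃ l ∈ L, l ≠ 0 ∧ (∀ i ∈ P, 0 < l i) ∧ (∀ i ∈ Q, l i < 0) ∧ (∀ i ∈ Z, l i = 0)

open Classical in
/-- Indicator. -/
noncomputable def ind (p : Prop) : ℤ := if p then 1 else 0

lemma ind_true {p : Prop} (h : p) : ind p = 1 := by simp [ind, h]
lemma ind_false {p : Prop} (h : ¬ p) : ind p = 0 := by simp [ind, h]

lemma ind_eq_one_iff {p : Prop} : ind p = 1 ↔ p := by
  by_cases h : p <;> simp [ind, h]

lemma ind_nonneg (p : Prop) : 0 ≤ ind p := by
  by_cases h : p <;> simp [ind, h]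

lemma ind_le_one (p : Prop) : ind p ≤ 1 := by
  by_cases h : p <;> simp [ind, h]

variable {L : Submodule ℝ (ι → ℝ)} {m : ℕ}

lemma Rl.card_lt (hL : Unif L m) {P Q Z : Finset ι} (h : Rl L P Q Z) : Z.card < m := by
  obtain ⟨l, hl, hl0, -, -, hZ⟩ := h
  refine lt_of_le_of_lt (card_le_card ?_) (hL.zeros l hl hl0)
  intro i hi
  simp [hZ i hi]

lemma not_Rl_of_card (hL : Unif L m) {P Q Z : Finset ι} (h : m ≤ Z.card) : ¬ Rl L P Q Z :=
  fun h' => absurd (h'.card_lt hL) (not_lt.mpr h)

/-- small perturbation -/
lemma exists_small (P Q : Finset ι) (l v : ι → ℝ) (hP : ∀ i ∈ P, 0 < l i)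
    (hQ : ∀ i ∈ Q, l i < 0) :
    ∃ ε > 0, ∀ t : ℝ, |t| ≤ ε → (∀ i ∈ P, 0 < l i + t * v i) ∧ (∀ i ∈ Q, l i + t * v i < 0) := by
  have h1 : ∀ i ∈ P, ∀ᶠ t in nhds (0:ℝ), 0 < l i + t * v i := by
    intro i hi
    have : Filter.Tendsto (fun t : ℝ => l i + t * v i) (nhds 0) (nhds (l i + 0 * v i)) := by
      apply Continuous.tendsto (by fun_prop)
    rw [zero_mul, add_zero] at this
    exact this.eventually (lt_mem_nhds (hP i hi))
  have h2 : ∀ i ∈ Q, ∀ᶠ t in nhds (0:ℝ), l i + t * v i < 0 := by
    intro i hi
    have : Filter.Tendsto (fun t : ℝ => l i + t * v i) (nhds 0) (nhds (l i + 0 * v i)) := by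
      apply Continuous.tendsto (by fun_prop)
    rw [zero_mul, add_zero] at this
    exact this.eventually (gt_mem_nhds (hQ i hi))
  have h1' := (Filter.eventually_all_finset P).mpr h1
  have h2' := (Filter.eventually_all_finset Q).mpr h2
  have h3 := h1'.and h2'
  rw [Metric.eventually_nhds_iff] at h3
  obtain ⟨ε, hε, h⟩ := h3
  refine ⟨ε / 2, by positivity, fun t ht => h ?_⟩
  rw [Real.dist_eq, sub_zero]
  linarith

lemma ne_zero_of_pos {P Q : Finset ι} {l : ι → ℝ} (hPQ : (P ∪ Q).Nonempty)
    (hP : ∀ i ∈ P, 0 < l i) (hQ : ∀ i ∈ Q, l i < 0) : l ≠ 0 := by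
  obtain ⟨i, hi⟩ := hPQ
  rintro rfl
  rcases mem_union.mp hi with h | h
  · exact lt_irrefl _ (hP i h)
  · exact lt_irrefl _ (hQ i h)

lemma Rl_insert_of_zero (hL : Unif L m) {P Q Z : Finset ι} {e : ι}
    (heZ : e ∉ Z) (h : Rl L P Q (insert e Z)) (u : ℝ) (hu : u ≠ 0) :
    ∃ l ∈ L, l ≠ 0 ∧ (∀ i ∈ P, 0 < l i) ∧ (∀ i ∈ Q, l i < 0) ∧ (∀ i ∈ Z, l i = 0) ∧
      0 < l e * u := by
  have hc := h.card_lt hL
  obtain ⟨l, hl, hl0, hP, hQ, hZ⟩ := h
  obtain ⟨v, hv, hv'⟩ := hL.ext (insert e Z) hc.le (fun i => if i = e then u else 0)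
  obtain ⟨ε, hε, h⟩ := exists_small P Q l v hP hQ
  have hve : v e = u := by simpa using hv' e (mem_insert_self _ _)
  have hvZ : ∀ i ∈ Z, v i = 0 := by
    intro i hi
    have := hv' i (mem_insert_of_mem hi)
    rw [this, if_neg]
    rintro rfl
    exact heZ hi
  refine ⟨l + ε • v, L.add_mem hl (L.smul_mem _ hv), ?_, ?_, ?_, ?_, ?_⟩
  · intro h0
    have := congrFun h0 e
    simp only [Pi.add_apply, Pi.smul_apply, smul_eq_mul, Pi.zero_apply, hve,
      hZ e (mem_insert_self _ _), zero_add, mul_eq_zero] at this
    rcases this with h | h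
    · exact hε.ne' h
    · exact hu h
  · intro i hi
    exact (h ε (by rw [abs_of_pos hε])).1 i hi
  · intro i hi
    exact (h ε (by rw [abs_of_pos hε])).2 i hi
  · intro i hi
    simp [hvZ i hi, hZ i (mem_insert_of_mem hi)]
  · simp only [Pi.add_apply, Pi.smul_apply, smul_eq_mul, hve, hZ e (mem_insert_self _ _), zero_add]
    have : 0 < u * u := mul_self_pos.mpr hu
    nlinarith [mul_pos hε this]

/-- The three-term relation. -/
lemma T3 (hL : Unif L m) {P Q Z : Finset ι} {e : ι}
    (heZ : e ∉ Z) (hPQ : (P ∪ Q).Nonempty ∨ m ≤ Z.card) :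
    ind (Rl L (insert e P) Q Z) + ind (Rl L P (insert e Q) Z)
      = ind (Rl L P Q Z) + ind (Rl L P Q (insert e Z)) := by
  rcases hPQ with hPQ | hm
  swap
  · rw [ind_false (not_Rl_of_card hL hm), ind_false (not_Rl_of_card hL hm),
      ind_false (not_Rl_of_card hL hm), ind_false (not_Rl_of_card hL ?_)]
    rw [card_insert_of_notMem heZ]; omega
  by_cases h0 : Rl L P Q (insert e Z)
  · obtain ⟨l, hl, hl0, hP, hQ, hZ, hlu⟩ := Rl_insert_of_zero hL heZ h0 1 one_ne_zero
    obtain ⟨l', hl', hl0', hP', hQ', hZ', hlu'⟩ :=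
      Rl_insert_of_zero hL heZ h0 (-1) (by norm_num)
    rw [ind_true h0, ind_true (p := Rl L P Q Z) ⟨l, hl, hl0, hP, hQ, hZ⟩,
      ind_true (p := Rl L (insert e P) Q Z), ind_true (p := Rl L P (insert e Q) Z)]
    · refine ⟨l', hl', hl0', hP', ?_, hZ'⟩
      intro i hi
      rcases mem_insert.mp hi with rfl | hi
      · linarith
      · exact hQ' i hi
    · refine ⟨l, hl, hl0, ?_, hQ, hZ⟩
      intro i hi
      rcases mem_insert.mp hi with rfl | hi
      · linarith
      · exact hP i hi
  · rw [ind_false h0, add_zero]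
    by_cases h1 : Rl L (insert e P) Q Z
    · by_cases h2 : Rl L P (insert e Q) Z
      · exfalso
        obtain ⟨l, hl, hl0, hP, hQ, hZ⟩ := h1
        obtain ⟨l', hl', hl0', hP', hQ', hZ'⟩ := h2
        have ha : 0 < l e := hP e (mem_insert_self _ _)
        have hb : l' e < 0 := hQ' e (mem_insert_self _ _)
        apply h0
        have hpos : ∀ i ∈ P, 0 < ((-(l' e)) • l + (l e) • l') i := by
          intro i hi
          have h1 := hP i (mem_insert_of_mem hi)
          have h2 := hP' i hi
          simp only [Pi.add_apply, Pi.smul_apply, smul_eq_mul]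
          have := mul_pos (neg_pos.mpr hb) h1
          have := mul_pos ha h2
          linarith
        have hneg : ∀ i ∈ Q, ((-(l' e)) • l + (l e) • l') i < 0 := by
          intro i hi
          have h1 := hQ i hi
          have h2 := hQ' i (mem_insert_of_mem hi)
          simp only [Pi.add_apply, Pi.smul_apply, smul_eq_mul]
          have := mul_neg_of_pos_of_neg (neg_pos.mpr hb) h1
          have := mul_neg_of_pos_of_neg ha h2
          linarith
        refine ⟨(-(l' e)) • l + (l e) • l', L.add_mem (L.smul_mem _ hl) (L.smul_mem _ hl'),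
          ne_zero_of_pos hPQ hpos hneg, hpos, hneg, ?_⟩
        intro i hi
        rcases mem_insert.mp hi with rfl | hi
        · simp only [Pi.add_apply, Pi.smul_apply, smul_eq_mul]; ring
        · simp only [Pi.add_apply, Pi.smul_apply, smul_eq_mul, hZ i hi, hZ' i hi]; ring
      · rw [ind_true h1, ind_false h2, ind_true, add_zero]
        obtain ⟨l, hl, hl0, hP, hQ, hZ⟩ := h1
        exact ⟨l, hl, hl0, fun i hi => hP i (mem_insert_of_mem hi), hQ, hZ⟩
    · rw [ind_false h1, zero_add]
      by_cases h2 : Rl L P (insert e Q) Z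
      · rw [ind_true h2, ind_true]
        obtain ⟨l, hl, hl0, hP, hQ, hZ⟩ := h2
        exact ⟨l, hl, hl0, hP, fun i hi => hQ i (mem_insert_of_mem hi), hZ⟩
      · rw [ind_false h2, ind_false]
        rintro ⟨l, hl, hl0, hP, hQ, hZ⟩
        rcases lt_trichotomy (l e) 0 with h | h | h
        · apply h2
          refine ⟨l, hl, hl0, hP, ?_, hZ⟩
          intro i hi
          rcases mem_insert.mp hi with rfl | hi
          · exact h
          · exact hQ i hi
        · apply h0
          refine ⟨l, hl, hl0, hP, hQ, ?_⟩
          intro i hi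
          rcases mem_insert.mp hi with rfl | hi
          · exact h
          · exact hZ i hi
        · apply h1
          refine ⟨l, hl, hl0, ?_, hQ, hZ⟩
          intro i hi
          rcases mem_insert.mp hi with rfl | hi
          · exact h
          · exact hP i hi

/-- Counting sign vectors inside a cone (Zaslavsky type formula). -/
lemma zas (hL : Unif L m) (A : Finset ι) : ∀ (P Q Z : Finset ι), (P ∪ Q).Nonempty →
    Disjoint A P → Disjoint A Q → Disjoint A Z →
    ∑ B ∈ A.powerset, ind (Rl L (P ∪ B) (Q ∪ (A \ B)) Z)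
      = ∑ C ∈ A.powerset, ind (Rl L P Q (Z ∪ C)) := by
  induction A using Finset.induction_on with
  | empty =>
    intro P Q Z hPQ _ _ _
    simp
  | insert e A heA ih =>
    intro P Q Z hPQ hAP hAQ hAZ
    rw [disjoint_insert_left] at hAP hAQ hAZ
    rw [sum_powerset_insert heA, sum_powerset_insert heA, ← sum_add_distrib]
    have key : ∀ B ∈ A.powerset,
        ind (Rl L (P ∪ B) (Q ∪ (insert e A \ B)) Z)
          + ind (Rl L (P ∪ insert e B) (Q ∪ (insert e A \ insert e B)) Z)
        = ind (Rl L (P ∪ B) (Q ∪ (A \ B)) Z)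
          + ind (Rl L (P ∪ B) (Q ∪ (A \ B)) (insert e Z)) := by
      intro B hB
      rw [mem_powerset] at hB
      have heB : e ∉ B := fun h => heA (hB h)
      have h1 : insert e A \ B = insert e (A \ B) := insert_sdiff_of_notMem _ heB
      have h2 : insert e A \ insert e B = A \ B := by
        ext x
        simp only [mem_sdiff, mem_insert, not_or]
        constructor
        · rintro ⟨rfl | h, h1, h2⟩
          · exact absurd rfl h1
          · exact ⟨h, h2⟩
        · rintro ⟨h, h2⟩
          exact ⟨Or.inr h, fun h' => heA (h' ▸ h), h2⟩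
      rw [h1, h2, union_insert, union_insert, add_comm]
      apply T3 hL hAZ.1
      left
      obtain ⟨i, hi⟩ := hPQ
      refine ⟨i, ?_⟩
      simp only [mem_union] at hi ⊢
      tauto
    rw [sum_congr rfl key, sum_add_distrib, ih P Q Z hPQ hAP.2 hAQ.2 hAZ.2,
      ih P Q (insert e Z) hPQ hAP.2 hAQ.2 (by
        rw [disjoint_insert_right]; exact ⟨heA, hAZ.2⟩)]
    congr 1
    apply sum_congr rfl
    intro C _
    rw [insert_union, union_insert]

/-- Perturbing zeros. -/
lemma Rl_pert (hL : Unif L m) {P Q Z C : Finset ι} (hPQ : Disjoint P Q)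
    (hPZ : Disjoint P Z) (hQZ : Disjoint Q Z) (hC : C ⊆ P ∪ Q)
    (h : Rl L (P \ C) (Q \ C) (Z ∪ C)) : Rl L P Q Z := by
  by_cases hne : (P ∪ Q).Nonempty
  swap
  · rw [not_nonempty_iff_eq_empty] at hne
    rw [hne, subset_empty] at hC
    subst hC
    simpa using h
  have hc := h.card_lt hL
  obtain ⟨l, hl, hl0, hP, hQ, hZ⟩ := h
  obtain ⟨v, hv, hv'⟩ := hL.ext (Z ∪ C) hc.le
    (fun i => if i ∈ P then 1 else if i ∈ Q then -1 else 0)
  obtain ⟨ε, hε, h⟩ := exists_small (P \ C) (Q \ C) l v hP hQ
  have h := h ε (by rw [abs_of_pos hε])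
  have hp : ∀ i ∈ P, 0 < (l + ε • v) i := by
    intro i hi
    simp only [Pi.add_apply, Pi.smul_apply, smul_eq_mul]
    by_cases hiC : i ∈ C
    · rw [hZ i (mem_union_right _ hiC), hv' i (mem_union_right _ hiC), if_pos hi]
      linarith
    · exact h.1 i (mem_sdiff.mpr ⟨hi, hiC⟩)
  have hq : ∀ i ∈ Q, (l + ε • v) i < 0 := by
    intro i hi
    simp only [Pi.add_apply, Pi.smul_apply, smul_eq_mul]
    by_cases hiC : i ∈ C
    · rw [hZ i (mem_union_right _ hiC), hv' i (mem_union_right _ hiC),
        if_neg (disjoint_right.mp hPQ hi), if_pos hi]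
      linarith
    · exact h.2 i (mem_sdiff.mpr ⟨hi, hiC⟩)
  refine ⟨l + ε • v, L.add_mem hl (L.smul_mem _ hv), ne_zero_of_pos hne hp hq, hp, hq, ?_⟩
  intro i hi
  simp only [Pi.add_apply, Pi.smul_apply, smul_eq_mul]
  rw [hZ i (mem_union_left _ hi), hv' i (mem_union_left _ hi),
    if_neg (disjoint_right.mp hPZ hi), if_neg (disjoint_right.mp hQZ hi)]
  ring

/-- If all sign vectors on `A` are realised then `A` is small. -/
lemma all_real (hL : Unif L m) (A : Finset ι) : ∀ Z : Finset ι, Disjoint A Z →
    (∀ B ⊆ A, Rl L B (A \ B) Z) → A.card + Z.card ≤ m := by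
  induction A using Finset.induction_on with
  | empty =>
    intro Z _ h
    have := (h ∅ (subset_refl _)).card_lt hL
    simp; omega
  | insert e A heA ih =>
    intro Z hAZ h
    rw [disjoint_insert_left] at hAZ
    rw [card_insert_of_notMem heA]
    by_cases hA : A.Nonempty
    · have := ih (insert e Z) (by rw [disjoint_insert_right]; exact ⟨heA, hAZ.2⟩) (by
        intro B hB
        have heB : e ∉ B := fun h => heA (hB h)
        have h1 := h B (hB.trans (subset_insert _ _))
        have h2 := h (insert e B) (insert_subset_insert _ hB)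
        have e1 : insert e A \ B = insert e (A \ B) := insert_sdiff_of_notMem _ heB
        have e2 : insert e A \ insert e B = A \ B := by
          ext x
          simp only [mem_sdiff, mem_insert, not_or]
          constructor
          · rintro ⟨rfl | h, h1, h2⟩
            · exact absurd rfl h1
            · exact ⟨h, h2⟩
          · rintro ⟨h, h2⟩
            exact ⟨Or.inr h, fun h' => heA (h' ▸ h), h2⟩
        rw [e1] at h1
        rw [e2] at h2
        have ht := T3 hL (P := B) (Q := A \ B) (Z := Z) (e := e) hAZ.1 (by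
          left
          rwa [union_sdiff_of_subset hB])
        rw [ind_true h1, ind_true h2] at ht
        have b1 := ind_le_one (Rl L B (A \ B) Z)
        have b2 := ind_le_one (Rl L B (A \ B) (insert e Z))
        apply ind_eq_one_iff.mp
        omega)
      rw [card_insert_of_notMem hAZ.1] at this
      omega
    · rw [not_nonempty_iff_eq_empty] at hA
      subst hA
      have := (h ∅ (empty_subset _)).card_lt hL
      simp; omega

/-- The Euler sum. -/
noncomputable def EU (L : Submodule ℝ (ι → ℝ)) (A Z P : Finset ι) : ℤ :=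
  ∑ C ∈ A.powerset, (-1) ^ C.card * ind (Rl L (P \ C) ((A \ P) \ C) (Z ∪ C))

lemma EU_rec (hL : Unif L m) {A Z P : Finset ι} {e : ι} (heA : e ∉ A) (heZ : e ∉ Z)
    (hAZ : Disjoint A Z) (hP : P ⊆ A) (hm : m ≤ A.card + Z.card) :
    EU L (insert e A) Z (insert e P) + EU L (insert e A) Z P
      = EU L A Z P - EU L A (insert e Z) P := by
  have heP : e ∉ P := fun h => heA (hP h)
  unfold EU
  rw [sum_powerset_insert heA, sum_powerset_insert heA, ← sum_sub_distrib, ← sum_add_distrib,
    ← sum_add_distrib, ← sum_add_distrib]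
  apply sum_congr rfl
  intro C hC
  rw [mem_powerset] at hC
  have heC : e ∉ C := fun h => heA (hC h)
  have hcard : (insert e C).card = C.card + 1 := card_insert_of_notMem heC
  have s1 : insert e P \ C = insert e (P \ C) := insert_sdiff_of_notMem _ heC
  have s2 : insert e A \ insert e P = A \ P := by
    ext x
    simp only [mem_sdiff, mem_insert, not_or]
    constructor
    · rintro ⟨rfl | h, h1, h2⟩
      · exact absurd rfl h1
      · exact ⟨h, h2⟩
    · rintro ⟨h, h2⟩
      exact ⟨Or.inr h, fun h' => heA (h' ▸ h), h2⟩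
  have s3 : insert e P \ insert e C = P \ C := by
    ext x
    simp only [mem_sdiff, mem_insert, not_or]
    constructor
    · rintro ⟨rfl | h, h1, h2⟩
      · exact absurd rfl h1
      · exact ⟨h, h2⟩
    · rintro ⟨h, h2⟩
      exact ⟨Or.inr h, fun h' => heP (h' ▸ h), h2⟩
  have s4 : (A \ P) \ insert e C = (A \ P) \ C := by
    ext x
    simp only [mem_sdiff, mem_insert, not_or]
    constructor
    · rintro ⟨⟨h1, h2⟩, h3, h4⟩
      exact ⟨⟨h1, h2⟩, h4⟩
    · rintro ⟨⟨h1, h2⟩, h4⟩
      exact ⟨⟨h1, h2⟩, fun h' => heA (h' ▸ h1), h4⟩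
  have s5 : insert e A \ P = insert e (A \ P) := insert_sdiff_of_notMem _ heP
  have s6 : insert e (A \ P) \ C = insert e ((A \ P) \ C) := insert_sdiff_of_notMem _ heC
  have s7 : insert e (A \ P) \ insert e C = (A \ P) \ C := by
    ext x
    simp only [mem_sdiff, mem_insert, not_or]
    constructor
    · rintro ⟨rfl | h, h1, h2⟩
      · exact absurd rfl h1
      · exact ⟨h, h2⟩
    · rintro ⟨h, h2⟩
      exact ⟨Or.inr h, fun h' => heA (h' ▸ h.1), h2⟩
  have s8 : P \ insert e C = P \ C := by
    ext x
    simp only [mem_sdiff, mem_insert, not_or]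
    constructor
    · rintro ⟨h1, h3, h4⟩
      exact ⟨h1, h4⟩
    · rintro ⟨h1, h4⟩
      exact ⟨h1, fun h' => heP (h' ▸ h1), h4⟩
  rw [s1, s2, s3, s4, s5, s6, s7, s8, hcard, pow_succ, union_insert, insert_union]
  have ht := T3 hL (P := P \ C) (Q := (A \ P) \ C) (Z := Z ∪ C) (e := e) (by
    simp only [mem_union, not_or]; exact ⟨heZ, heC⟩) (by
    by_cases h : ((P \ C) ∪ (A \ P) \ C).Nonempty
    · exact Or.inl h
    · right
      rw [not_nonempty_iff_eq_empty] at h
      have hAC : A ⊆ C := by
        intro x hx
        by_contra hxC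
        have : x ∈ (P \ C) ∪ (A \ P) \ C := by
          simp only [mem_union, mem_sdiff]
          tauto
        rw [h] at this
        exact absurd this (notMem_empty _)
      have : C = A := subset_antisymm hC hAC
      subst this
      rw [card_union_of_disjoint hAZ.symm]
      omega)
  generalize ind (Rl L (insert e (P \ C)) ((A \ P) \ C) (Z ∪ C)) = a1 at *
  generalize ind (Rl L (P \ C) (insert e ((A \ P) \ C)) (Z ∪ C)) = a2 at *
  generalize ind (Rl L (P \ C) ((A \ P) \ C) (Z ∪ C)) = a3 at *
  generalize ind (Rl L (P \ C) ((A \ P) \ C) (insert e (Z ∪ C))) = a4 at *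
  linear_combination ((-1) ^ C.card) * ht

/-- antisymmetric functions on the cube -/
lemma cube_anti {D : Finset ι → ℤ} {A : Finset ι}
    (h : ∀ e ∈ A, ∀ P ⊆ A, e ∉ P → D (insert e P) + D P = 0) :
    ∀ P ⊆ A, D P = (-1) ^ P.card * D ∅ := by
  intro P
  induction P using Finset.induction_on with
  | empty => intro _; simp
  | insert e P heP ih =>
    intro hP
    have h1 := h e (hP (mem_insert_self _ _)) P ((subset_insert _ _).trans hP) heP
    have h2 := ih ((subset_insert _ _).trans hP)
    rw [card_insert_of_notMem heP, pow_succ]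
    linear_combination h1 - h2

lemma sum_powerset_neg_one (A : Finset ι) :
    ∑ C ∈ A.powerset, ((-1 : ℤ)) ^ C.card = if A = ∅ then 1 else 0 := by
  exact Finset.sum_powerset_neg_one_pow_card

theorem EU_eq (hL : Unif L m) : ∀ (k : ℕ) (A Z P : Finset ι), A.card = k → Disjoint A Z → P ⊆ A →
    m ≤ A.card + Z.card →
    EU L A Z P = (-1) ^ (m + Z.card + 1) * ind (Rl L P (A \ P) Z) := by
  intro k
  induction k with
  | zero =>
    intro A Z P hA hAZ hP hm
    rw [card_eq_zero] at hA
    subst hA
    rw [subset_empty] at hP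
    subst hP
    simp only [card_empty, zero_add] at hm
    rw [ind_false (not_Rl_of_card hL hm)]
    unfold EU
    simp only [powerset_empty, sum_singleton, card_empty, pow_zero, one_mul, sdiff_empty,
      union_empty, mul_zero]
    exact ind_false (not_Rl_of_card hL hm)
  | succ k ih =>
    intro A Z P hA hAZ hP hm
    rcases eq_or_lt_of_le hm with hm' | hm'
    · -- base case
      have hex : ∀ C ⊆ A, ind (Rl L (P \ C) ((A \ P) \ C) (Z ∪ C)) = if C = A then 0 else 1 := by
        intro C hC
        split_ifs with h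
        · subst h
          apply ind_false
          apply not_Rl_of_card hL
          rw [card_union_of_disjoint hAZ.symm]; omega
        · apply ind_true
          obtain ⟨v, hv, hv'⟩ := hL.ext (A ∪ Z) (by
            rw [card_union_of_disjoint hAZ]; omega)
            (fun i => if i ∈ Z ∪ C then 0 else if i ∈ P then 1 else -1)
          have hne : (P \ C ∪ (A \ P) \ C).Nonempty := by
            rw [nonempty_iff_ne_empty]
            intro h0
            apply h
            apply subset_antisymm hC
            intro x hx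
            by_contra hxC
            have : x ∈ P \ C ∪ (A \ P) \ C := by
              simp only [mem_union, mem_sdiff]
              tauto
            rw [h0] at this
            exact absurd this (notMem_empty _)
          have hp : ∀ i ∈ P \ C, 0 < v i := by
            intro i hi
            rw [mem_sdiff] at hi
            rw [hv' i (mem_union_left _ (hP hi.1)), if_neg, if_pos hi.1]
            · norm_num
            · rw [mem_union, not_or]
              exact ⟨disjoint_left.mp hAZ (hP hi.1), hi.2⟩
          have hq : ∀ i ∈ (A \ P) \ C, v i < 0 := by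
            intro i hi
            rw [mem_sdiff, mem_sdiff] at hi
            rw [hv' i (mem_union_left _ hi.1.1), if_neg, if_neg hi.1.2]
            · norm_num
            · rw [mem_union, not_or]
              exact ⟨disjoint_left.mp hAZ hi.1.1, hi.2⟩
          refine ⟨v, hv, ne_zero_of_pos hne hp hq, hp, hq, ?_⟩
          intro i hi
          rw [hv' i, if_pos hi]
          rw [mem_union] at hi ⊢
          rcases hi with h | h
          · exact Or.inr h
          · exact Or.inl (hC h)
      have hAne : A ≠ ∅ := by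
        rintro rfl
        simp at hA
      have h0 : Rl L P (A \ P) Z := by
        have := hex ∅ (empty_subset _)
        rw [if_neg hAne.symm, ind_eq_one_iff] at this
        simpa using this
      rw [ind_true h0]
      unfold EU
      have h1 : ∀ C ∈ A.powerset, (-1 : ℤ) ^ C.card * ind (Rl L (P \ C) ((A \ P) \ C) (Z ∪ C))
          = (-1) ^ C.card - (if C = A then (-1) ^ C.card else 0) := by
        intro C hC
        rw [hex C (mem_powerset.mp hC)]
        split_ifs <;> ring
      rw [sum_congr rfl h1, sum_sub_distrib, sum_powerset_neg_one, if_neg hAne,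
        sum_ite_eq', if_pos (mem_powerset_self A), hm', mul_one]
      have : A.card + Z.card + Z.card + 1 = 2 * Z.card + (A.card + 1) := by ring
      rw [this, pow_add, pow_mul]
      simp [pow_succ]
    · -- inductive case
      set D : Finset ι → ℤ := fun P => EU L A Z P - (-1) ^ (m + Z.card + 1) * ind (Rl L P (A \ P) Z)
        with hD
      have hanti : ∀ e ∈ A, ∀ P ⊆ A, e ∉ P → D (insert e P) + D P = 0 := by
        intro e he P hP heP
        obtain ⟨A', heA', rfl⟩ : ∃ A', e ∉ A' ∧ insert e A' = A :=
          ⟨A.erase e, notMem_erase _ _, insert_erase he⟩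
        have hPA' : P ⊆ A' := by
          intro x hx
          rcases mem_insert.mp (hP hx) with rfl | h
          · exact absurd hx heP
          · exact h
        rw [disjoint_insert_left] at hAZ
        rw [card_insert_of_notMem heA'] at hA hm'
        have e1 := EU_rec hL (P := P) heA' hAZ.1 hAZ.2 hPA' (by omega)
        have e2 := ih A' Z P (by omega) hAZ.2 hPA' (by omega)
        have e3 := ih A' (insert e Z) P (by omega) (by
          rw [disjoint_insert_right]; exact ⟨heA', hAZ.2⟩) hPA' (by
          rw [card_insert_of_notMem hAZ.1]; omega)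
        have ht := T3 hL (P := P) (Q := A' \ P) (Z := Z) (e := e) hAZ.1 (by
          by_cases h : A'.Nonempty
          · left
            rwa [union_sdiff_of_subset hPA']
          · right
            rw [not_nonempty_iff_eq_empty] at h
            rw [h] at hm'
            simp at hm'
            omega)
        have s2 : insert e A' \ insert e P = A' \ P := by
          ext x
          simp only [mem_sdiff, mem_insert, not_or]
          constructor
          · rintro ⟨rfl | h, h1, h2⟩
            · exact absurd rfl h1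
            · exact ⟨h, h2⟩
          · rintro ⟨h, h2⟩
            exact ⟨Or.inr h, fun h' => heA' (h' ▸ h), h2⟩
        have s5 : insert e A' \ P = insert e (A' \ P) := insert_sdiff_of_notMem _ heP
        simp only [hD]
        rw [s2, s5]
        rw [e2, e3, card_insert_of_notMem hAZ.1] at e1
        have e4 : (-1 : ℤ) ^ (m + (Z.card + 1) + 1) = - (-1) ^ (m + Z.card + 1) := by
          rw [show m + (Z.card + 1) + 1 = (m + Z.card + 1) + 1 by ring, pow_succ]; ring
        rw [e4] at e1
        linear_combination e1 - (-1) ^ (m + Z.card + 1) * ht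
      have hcube := cube_anti hanti
      -- a non realised sign vector
      obtain ⟨P₀, hP₀, hn⟩ : ∃ P₀ ⊆ A, ¬ Rl L P₀ (A \ P₀) Z := by
        by_contra hcon
        push Not at hcon
        have := all_real hL A Z hAZ hcon
        omega
      have hD0 : D P₀ = 0 := by
        simp only [hD]
        rw [ind_false hn, mul_zero, sub_zero]
        unfold EU
        apply sum_eq_zero
        intro C hC
        rw [ind_false, mul_zero]
        intro h
        apply hn
        apply Rl_pert hL (C := C) disjoint_sdiff (disjoint_of_subset_left hP₀ hAZ)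
          (disjoint_of_subset_left sdiff_subset hAZ) ?_ h
        rw [union_sdiff_of_subset hP₀]
        exact mem_powerset.mp hC
      have hD1 : D ∅ = 0 := by
        have := hcube P₀ hP₀
        rw [hD0] at this
        have h2 := pow_ne_zero P₀.card (show (-1 : ℤ) ≠ 0 by norm_num)
        rcases mul_eq_zero.mp this.symm with h | h
        · exact absurd h h2
        · exact h
      have := hcube P hP
      rw [hD1, mul_zero] at this
      simp only [hD] at this
      linarith

/-- The alternating sum over topes vanishes in even rank. -/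
theorem alt_sum (hL : Unif L m) (hm : Even m) (hcard : m ≤ Fintype.card ι) :
    ∑ P : Finset ι, (-1 : ℤ) ^ P.card * ind (Rl L P Pᶜ ∅) = 0 := by
  set X := ∑ P : Finset ι, (-1 : ℤ) ^ P.card * ind (Rl L P Pᶜ ∅) with hX
  have h1 : ∑ P : Finset ι, (-1 : ℤ) ^ P.card * EU L univ ∅ P = - X := by
    rw [hX, ← sum_neg_distrib]
    apply sum_congr rfl
    intro P _
    rw [EU_eq hL _ univ ∅ P rfl (disjoint_empty_right _) (subset_univ _) (by
      rw [card_univ]; omega)]
    rw [card_empty, add_zero, pow_succ, hm.neg_one_pow, ← compl_eq_univ_sdiff]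
    ring
  have h2 : ∑ P : Finset ι, (-1 : ℤ) ^ P.card * EU L univ ∅ P = X := by
    unfold EU
    simp_rw [mul_sum]
    rw [sum_comm]
    rw [← sum_erase_add _ _ (empty_mem_powerset univ)]
    have h3 : ∀ C ∈ (univ.powerset.erase ∅ : Finset (Finset ι)),
        ∑ P : Finset ι, (-1 : ℤ) ^ P.card *
          ((-1) ^ C.card * ind (Rl L (P \ C) ((univ \ P) \ C) (∅ ∪ C))) = 0 := by
      intro C hC
      rw [mem_erase] at hC
      obtain ⟨e, he⟩ := nonempty_iff_ne_empty.mpr hC.1
      refine sum_involution (fun P _ => if e ∈ P then P.erase e else insert e P) ?_ ?_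
        (fun P _ => mem_univ _) ?_
      · intro P _
        have hset : ((if e ∈ P then P.erase e else insert e P) \ C) = P \ C := by
          split_ifs with h
          · ext x
            simp only [mem_sdiff, mem_erase]
            constructor
            · rintro ⟨⟨_, h1⟩, h2⟩; exact ⟨h1, h2⟩
            · rintro ⟨h1, h2⟩; exact ⟨⟨fun h' => h2 (h' ▸ he), h1⟩, h2⟩
          · ext x
            simp only [mem_sdiff, mem_insert]
            constructor
            · rintro ⟨rfl | h1, h2⟩
              · exact absurd he h2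
              · exact ⟨h1, h2⟩
            · rintro ⟨h1, h2⟩; exact ⟨Or.inr h1, h2⟩
        have hset2 : ((univ \ (if e ∈ P then P.erase e else insert e P)) \ C)
            = (univ \ P) \ C := by
          split_ifs with h
          · ext x
            simp only [mem_sdiff, mem_erase, mem_univ, true_and, not_and]
            constructor
            · rintro ⟨h1, h2⟩; exact ⟨h1 (fun h' => h2 (h' ▸ he)), h2⟩
            · rintro ⟨h1, h2⟩; exact ⟨fun _ => h1, h2⟩
          · ext x
            simp only [mem_sdiff, mem_insert, mem_univ, true_and, not_or]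
            constructor
            · rintro ⟨⟨_, h1⟩, h2⟩; exact ⟨h1, h2⟩
            · rintro ⟨h1, h2⟩; exact ⟨⟨fun h' => h2 (h' ▸ he), h1⟩, h2⟩
        rw [hset, hset2]
        split_ifs with h
        · have : P.card = (P.erase e).card + 1 := by
            rw [card_erase_of_mem h]
            have := card_pos.mpr ⟨e, h⟩
            omega
          rw [this, pow_succ]; ring
        · rw [card_insert_of_notMem h, pow_succ]; ring
      · intro P _ _
        split_ifs with h
        · intro h'
          rw [← h'] at h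
          exact absurd h (notMem_erase _ _)
        · intro h'
          rw [← h'] at h
          exact absurd (mem_insert_self _ _) h
      · intro P _
        by_cases h : e ∈ P
        · simp [h]
        · simp [h]
    rw [sum_eq_zero h3, zero_add, hX]
    apply sum_congr rfl
    intro P _
    simp [compl_eq_univ_sdiff]
  omega

end Pool.Agent.Work.MP_620441_co
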