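import Mathlib

set_option autoImplicit false

namespace Pool.Agent.Work.MP_620441_co

/-- Euclidean `d`-space. -/
abbrev E (d : ℕ) : Type := EuclideanSpace ℝ (Fin d)

/-- General position: no affine hyperplane `{x | f x = c}` (with `f ≠ 0` linear)
contains `d + 1` points of `S`. -/
def GeneralPosition {d : ℕ} (S : Finset (E d)) : Prop :=
  ∀ (f : E d →ₗ[ℝ] ℝ) (c : ℝ), f ≠ 0 → ∀ R : Finset (E d), R ⊆ S → (∀ x ∈ R, f x = c) →
    R.card ≤ d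

/-- The convex hulls of `T₁` and `T₂` intersect. -/
def HullsMeet {d : ℕ} (T₁ T₂ : Finset (E d)) : Prop :=
  (convexHull ℝ (T₁ : Set (E d)) ∩ convexHull ℝ (T₂ : Set (E d))).Nonempty

/-- The set of Radon partitions `{T₁, T₂}` of `S` of type `{i, |S| - i}`
(unordered pairs). -/
def radonPartitions {d : ℕ} (S : Finset (E d)) (i : ℕ) : Set (Sym2 (Finset (E d))) :=
  {z | ∃ T₁ T₂ : Finset (E d), z = s(T₁, T₂) ∧ T₁.Nonempty ∧ T₂.Nonempty ∧ Disjoint T₁ T₂ ∧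
    (T₁ : Set (E d)) ∪ (T₂ : Set (E d)) = (S : Set (E d)) ∧ HullsMeet T₁ T₂ ∧
    T₁.card = i ∧ T₂.card = S.card - i}

/-- The set of primitive Radon partitions `{T₁, T₂}` in `S` of type `{i, d + 2 - i}`
(unordered pairs). -/
def primitiveRadonPartitions {d : ℕ} (S : Finset (E d)) (i : ℕ) :
    Set (Sym2 (Finset (E d))) :=
  {z | ∃ T₁ T₂ : Finset (E d), z = s(T₁, T₂) ∧ T₁.Nonempty ∧ T₂.Nonempty ∧ Disjoint T₁ T₂ ∧
    T₁ ⊆ S ∧ T₂ ⊆ S ∧ HullsMeet T₁ T₂ ∧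
    (∀ T₁' T₂' : Finset (E d), T₁' ⊆ T₁ → T₂' ⊆ T₂ → HullsMeet T₁' T₂' →
      s(T₁', T₂') = s(T₁, T₂)) ∧
    T₁.card = i ∧ T₂.card = d + 2 - i}

/-- The concatenation `(r(S), P(S))` of the Radon vector and the primitive Radon vector of an
`s`-point set `S`: coordinate `Sum.inl i` is `r_{i+1}(S)` (`0 ≤ i < ⌊s/2⌋`), coordinate
`Sum.inr i` is `P_{i+1}(S)` (`0 ≤ i < ⌊d/2⌋ + 1`). -/
noncomputable def vec (s : ℕ) {d : ℕ} (S : Finset (E d)) : Fin (s / 2) ⊕ Fin (d / 2 + 1) → ℝ :=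
  Sum.elim (fun i => ((radonPartitions S (i + 1)).ncard : ℝ))
    (fun i => ((primitiveRadonPartitions S (i + 1)).ncard : ℝ))

/-- The set `V(s,d)` of all vectors `(r(S), P(S))`, `S` an `s`-point set in general position
in `ℝ^d`. -/
def V (s d : ℕ) : Set (Fin (s / 2) ⊕ Fin (d / 2 + 1) → ℝ) :=
  {v | ∃ S : Finset (E d), S.card = s ∧ GeneralPosition S ∧ v = vec s S}

/-- The coordinate `r_i` of a vector (`1 ≤ i ≤ ⌊s/2⌋`), and `0` for other `i`. -/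
def rc {s d : ℕ} (v : Fin (s / 2) ⊕ Fin (d / 2 + 1) → ℝ) (i : ℕ) : ℝ :=
  if h : 1 ≤ i ∧ i ≤ s / 2 then v (Sum.inl ⟨i - 1, by omega⟩) else 0

/-- The coordinate `P_i` of a vector (`1 ≤ i ≤ ⌊d/2⌋ + 1`), and `0` for other `i`. -/
def pc {s d : ℕ} (v : Fin (s / 2) ⊕ Fin (d / 2 + 1) → ℝ) (i : ℕ) : ℝ :=
  if h : 1 ≤ i ∧ i ≤ d / 2 + 1 then v (Sum.inr ⟨i - 1, by omega⟩) else 0

/-- The explicit system of linear equations. -/
structure System (s d : ℕ) (v : Fin (s / 2) ⊕ Fin (d / 2 + 1) → ℝ) : Prop where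
  /-- `∑ P_i = C(s, d+2)` -/
  sumP : ∑ i ∈ Finset.Icc 1 (d / 2 + 1), pc v i = (s.choose (d + 2) : ℝ)
  /-- `∑ r_i = 2^(s-1) - ∑_{k ≤ d} C(s-1, k)` -/
  sumR : ∑ i ∈ Finset.Icc 1 (s / 2), rc v i
    = 2 ^ (s - 1) - ∑ k ∈ Finset.range (d + 1), ((s - 1).choose k : ℝ)
  /-- the quadratic relation linking the two vectors -/
  quad : ∑ i ∈ Finset.Icc 1 (s / 2), (i : ℝ) * ((s : ℝ) - i) * rc v i
      - ∑ i ∈ Finset.Icc 1 (d / 2 + 1), (i : ℝ) * ((d : ℝ) + 2 - i) * pc v i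
    = (s.choose 2 : ℝ) * ∑ k ∈ Finset.range (s - d - 2), ((s - 2).choose k : ℝ)
  /-- the alternating relation, for `s` even and `d` odd -/
  alt : Even s → Odd d → ∑ i ∈ Finset.Icc 1 (s / 2), (-1 : ℝ) ^ i * rc v i = 0
  /-- `s = d + 2` : the two vectors coincide -/
  eq2 : s = d + 2 → ∀ i ∈ Finset.Icc 1 (s / 2), rc v i = pc v i
  /-- `s = d + 3` : the vector `P` determines the vector `r` -/
  eq3 : s = d + 3 → ∀ i ∈ Finset.Icc 1 (s / 2),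
    2 * rc v i = pc v (i - 1) + (if 2 * i = d + 2 then 2 else 1) * pc v i
  /-- `d = 1` : everything is constant -/
  eq1 : d = 1 → ∀ i ∈ Finset.Icc 1 (s / 2),
    (if 2 * i = s then 2 else 1) * rc v i = (s.choose i : ℝ) - 2

end Pool.Agent.Work.MP_620441_co
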