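import Mathlib
import Pool.Agent.Work.MP_620441_co.Core

set_option autoImplicit false
set_option linter.unusedSectionVars false

namespace Pool.Agent.Work.MP_620441_co

open Finset

variable {ι : Type*} [Fintype ι] [DecidableEq ι]
variable {W : Type*} [AddCommGroup W] [Module ℝ W] [FiniteDimensional ℝ W]

/-- Linear dependencies of a vector family. -/
def dep (v : ι → W) : Submodule ℝ (ι → ℝ) :=
  LinearMap.ker (Fintype.linearCombination ℝ v)

lemma mem_dep {v : ι → W} {l : ι → ℝ} : l ∈ dep v ↔ ∑ i, l i • v i = 0 := by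
  simp [dep, Fintype.linearCombination_apply]

/-- Every `ρ` vectors are linearly independent. -/
def GPv (v : ι → W) (ρ : ℕ) : Prop :=
  ∀ R : Finset ι, R.card = ρ → LinearIndependent ℝ (fun i : R => v i)

lemma sum_eq_zero_of_support {v : ι → W} {R : Finset ι} (hR : LinearIndependent ℝ (fun i : R => v i))
    {l : ι → ℝ} (hl : l ∈ dep v) (h0 : ∀ i ∉ R, l i = 0) : l = 0 := by
  rw [mem_dep] at hl
  have h1 : ∑ i ∈ R, l i • v i = 0 := by
    rw [← hl]
    apply sum_subset (subset_univ _)
    intro i _ hi
    rw [h0 i hi, zero_smul]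
  rw [← sum_coe_sort] at h1
  have h2 := Fintype.linearIndependent_iff.mp hR (fun i => l i) h1
  funext i
  by_cases hi : i ∈ R
  · exact h2 ⟨i, hi⟩
  · exact h0 i hi

lemma exists_dep_of_span {v : ι → W} {R : Finset ι} (hR : Submodule.span ℝ (Set.range (fun i : R => v i)) = ⊤)
    (w : W) : ∃ c : ι → ℝ, (∀ i ∉ R, c i = 0) ∧ ∑ i, c i • v i = w := by
  have hw : w ∈ Submodule.span ℝ (Set.range (fun i : R => v i)) := by rw [hR]; trivial
  rw [Submodule.mem_span_range_iff_exists_fun] at hw
  obtain ⟨c, hc⟩ := hw
  refine ⟨fun i => if h : i ∈ R then c ⟨i, h⟩ else 0, ?_, ?_⟩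
  · intro i hi; simp [hi]
  · rw [← hc]
    have : ∑ i, (if h : i ∈ R then c ⟨i, h⟩ else 0) • v i
        = ∑ i ∈ R, (if h : i ∈ R then c ⟨i, h⟩ else 0) • v i := by
      symm
      apply sum_subset (subset_univ _)
      intro i _ hi
      simp [hi]
    rw [this, ← sum_coe_sort]
    apply sum_congr rfl
    intro i _
    simp

lemma span_of_li {v : ι → W} {R : Finset ι} (hR : LinearIndependent ℝ (fun i : R => v i))
    (hc : R.card = Module.finrank ℝ W) :
    Submodule.span ℝ (Set.range (fun i : R => v i)) = ⊤ := by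
  apply hR.span_eq_top_of_card_eq_finrank'
  simp [hc]

theorem unif_of_GPv {v : ι → W} {ρ m : ℕ} (hv : GPv v ρ) (hρ : Module.finrank ℝ W = ρ)
    (hm : m + ρ = Fintype.card ι) : Unif (dep v) m := by
  constructor
  · intro l hl hl0
    by_contra hcon
    push Not at hcon
    have h1 : ((univ.filter (fun i => l i = 0))ᶜ).card ≤ ρ := by
      rw [card_compl]; omega
    obtain ⟨R, hR1, hR2⟩ := exists_superset_card_eq h1 (by omega : ρ ≤ Fintype.card ι)
    apply hl0
    apply sum_eq_zero_of_support (hv R hR2) hl
    intro i hi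
    by_contra h
    apply hi
    apply hR1
    simp [h]
  · intro C hC u
    have h1 : ρ ≤ (Cᶜ).card := by rw [card_compl]; omega
    obtain ⟨R, hR1, hR2⟩ := exists_subset_card_eq h1
    have hspan := span_of_li (hv R hR2) (by rw [hR2, hρ])
    obtain ⟨c, hc1, hc2⟩ := exists_dep_of_span hspan (- ∑ i ∈ C, u i • v i)
    refine ⟨fun i => c i + (if i ∈ C then u i else 0), ?_, ?_⟩
    · rw [mem_dep]
      simp_rw [add_smul]
      rw [sum_add_distrib, hc2]
      have : ∑ i, (if i ∈ C then u i else 0) • v i = ∑ i ∈ C, u i • v i := by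
        rw [← sum_filter_add_sum_filter_not univ (fun i => i ∈ C)]
        rw [sum_congr rfl (g := fun i => u i • v i), sum_eq_zero (s := univ.filter (fun i => ¬ i ∈ C)),
          add_zero]
        · congr 1; ext i; simp
        · intro i hi
          simp only [mem_filter, mem_univ, true_and] at hi
          simp [hi]
        · intro i hi
          simp only [mem_filter, mem_univ, true_and] at hi
          simp [hi]
      rw [this]; simp
    · intro i hi
      have : i ∉ R := by
        intro h
        have := hR1 h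
        rw [mem_compl] at this
        exact this hi
      simp [hc1 i this, hi]

end Pool.Agent.Work.MP_620441_co
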