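import Mathlib
import Pool.Agent.Work.MP_620441_co.Core
import Pool.Agent.Work.MP_620441_co.VecConf
import Pool.Agent.Work.MP_620441_co.Defs

set_option autoImplicit false
set_option linter.unusedSectionVars false

namespace Pool.Agent.Work.MP_620441_co

open Finset

variable {ι : Type*} [Fintype ι] [DecidableEq ι] {d : ℕ}

/-- Homogenisation of a point family. -/
def hom (x : ι → E d) (i : ι) : ℝ × E d := (1, x i)

lemma finrank_hom : Module.finrank ℝ (ℝ × E d) = d + 1 := by
  simp; ring

lemma mem_dep_hom {x : ι → E d} {l : ι → ℝ} :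
    l ∈ dep (hom x) ↔ ∑ i, l i = 0 ∧ ∑ i, l i • x i = 0 := by
  rw [mem_dep]
  have : ∑ i, l i • hom x i = (∑ i, l i, ∑ i, l i • x i) := by
    ext1
    · simp [hom, Prod.fst_sum]
    · simp [hom, Prod.snd_sum]
  rw [this, Prod.mk_eq_zero]

theorem gp_iff (x : ι ↪ E d) : GeneralPosition (univ.map x) ↔ GPv (hom x) (d + 1) := by
  constructor
  · intro h R hR
    by_contra hli
    have hspan : Submodule.span ℝ (Set.range (fun i : R => hom x i)) ≠ ⊤ := by
      intro h'
      apply hli
      apply linearIndependent_of_top_le_span_of_card_eq_finrank h'.ge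
      simp [hR]
      ring
    obtain ⟨φ, hφ, hφ'⟩ := Submodule.exists_le_ker_of_lt_top _ (lt_top_iff_ne_top.mpr hspan)
    have hφi : ∀ i ∈ R, φ (hom x i) = 0 := by
      intro i hi
      have : hom x i ∈ Submodule.span ℝ (Set.range (fun i : R => hom x i)) :=
        Submodule.subset_span ⟨⟨i, hi⟩, rfl⟩
      exact LinearMap.mem_ker.mp (hφ' this)
    set f : E d →ₗ[ℝ] ℝ := φ.comp (LinearMap.inr ℝ ℝ (E d)) with hf
    have hdec : ∀ i, φ (hom x i) = φ (1, 0) + f (x i) := by
      intro i
      rw [hf, LinearMap.comp_apply, LinearMap.inr_apply, ← map_add]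
      simp [hom]
    have hf0 : f ≠ 0 := by
      intro h0
      apply hφ
      have hRne : R.Nonempty := card_pos.mp (by omega)
      obtain ⟨i, hi⟩ := hRne
      have h1 := hφi i hi
      rw [hdec, h0, LinearMap.zero_apply, add_zero] at h1
      apply LinearMap.ext
      rintro ⟨t, y⟩
      have : ((t, y) : ℝ × E d) = t • (1, 0) + (0, y) := by simp
      rw [this, map_add, map_smul, h1, smul_zero, zero_add]
      have : φ (0, y) = f y := rfl
      rw [this, h0]; rfl
    have := h f (-φ (1, 0)) hf0 (R.map x) (map_subset_map.mpr (subset_univ _)) (by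
      intro y hy
      rw [mem_map] at hy
      obtain ⟨i, hi, rfl⟩ := hy
      have := hφi i hi
      rw [hdec] at this
      linarith)
    rw [card_map] at this
    omega
  · intro h f c hf R hR hRc
    by_contra hcon
    push Not at hcon
    -- pull back
    obtain ⟨R', hR', rfl⟩ : ∃ R' : Finset ι, R' ⊆ univ ∧ R'.map x = R := by
      refine ⟨univ.filter (fun i => x i ∈ R), subset_univ _, ?_⟩
      ext y
      rw [mem_map]
      constructor
      · rintro ⟨i, hi, rfl⟩
        simpa using hi
      · intro hy
        have := hR hy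
        rw [mem_map] at this
        obtain ⟨i, _, rfl⟩ := this
        exact ⟨i, by simpa using hy, rfl⟩
    rw [card_map] at hcon
    obtain ⟨R₀, hR₀, hc₀⟩ := exists_subset_card_eq (show d + 1 ≤ R'.card by omega)
    have hspan := span_of_li (h R₀ hc₀) (by rw [hc₀, finrank_hom])
    set φ : ℝ × E d →ₗ[ℝ] ℝ := f.comp (LinearMap.snd ℝ ℝ (E d)) - c • LinearMap.fst ℝ ℝ (E d) with hφ
    have hφ0 : φ = 0 := by
      have : (⊤ : Submodule ℝ (ℝ × E d)) ≤ LinearMap.ker φ := by
        rw [← hspan, Submodule.span_le]
        rintro _ ⟨i, rfl⟩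
        have h1 := hRc (x i) (mem_map_of_mem _ (hR₀ i.2))
        simp [hφ, hom, h1]
      exact LinearMap.ker_eq_top.mp (top_le_iff.mp this)
    apply hf
    apply LinearMap.ext
    intro y
    have : φ (0, y) = 0 := by rw [hφ0]; rfl
    simpa [hφ] using this

theorem hullsMeet_iff (x : ι ↪ E d) {P Q : Finset ι} (hPQ : Disjoint P Q) :
    HullsMeet (P.map x) (Q.map x) ↔ ∃ l ∈ dep (hom x), l ≠ 0 ∧ (∀ i ∈ P, 0 ≤ l i) ∧
      (∀ i ∈ Q, l i ≤ 0) ∧ (∀ i, i ∉ P → i ∉ Q → l i = 0) := by
  constructor
  · rintro ⟨y, hy1, hy2⟩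
    rw [Finset.mem_convexHull'] at hy1 hy2
    obtain ⟨w, hw0, hw1, hw2⟩ := hy1
    obtain ⟨u, hu0, hu1, hu2⟩ := hy2
    rw [sum_map] at hw1 hw2 hu1 hu2
    have hs1 : ∀ (g : ι → ℝ), (∑ i, (if i ∈ P then g i else 0)) = ∑ i ∈ P, g i := by
      intro g; rw [← sum_filter]; congr 1; ext i; simp
    have hs2 : ∀ (g : ι → ℝ), (∑ i, (if i ∈ Q then g i else 0)) = ∑ i ∈ Q, g i := by
      intro g; rw [← sum_filter]; congr 1; ext i; simp
    have ht1 : ∀ (g : ι → E d), (∑ i, (if i ∈ P then g i else 0)) = ∑ i ∈ P, g i := by
      intro g; rw [← sum_filter]; congr 1; ext i; simp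
    have ht2 : ∀ (g : ι → E d), (∑ i, (if i ∈ Q then g i else 0)) = ∑ i ∈ Q, g i := by
      intro g; rw [← sum_filter]; congr 1; ext i; simp
    refine ⟨fun i => (if i ∈ P then w (x i) else 0) - (if i ∈ Q then u (x i) else 0), ?_, ?_, ?_, ?_, ?_⟩
    · rw [mem_dep_hom]
      constructor
      · rw [sum_sub_distrib, hs1 (fun i => w (x i)), hs2 (fun i => u (x i)), hw1, hu1, sub_self]
      · simp_rw [sub_smul, ite_smul, zero_smul]
        rw [sum_sub_distrib, ht1 (fun i => w (x i) • x i), ht2 (fun i => u (x i) • x i), hw2, hu2,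
          sub_self]
    · intro h0
      have : ∑ i ∈ P, w (x i) = 0 := by
        apply sum_eq_zero
        intro i hi
        have := congrFun h0 i
        simp only [hi, if_true, disjoint_left.mp hPQ hi, if_false, sub_zero, Pi.zero_apply] at this
        exact this
      rw [hw1] at this
      exact one_ne_zero this
    · intro i hi
      simp only [hi, if_true, disjoint_left.mp hPQ hi, if_false, sub_zero]
      exact hw0 _ (mem_map_of_mem _ hi)
    · intro i hi
      simp only [hi, if_true, disjoint_right.mp hPQ hi, if_false, zero_sub]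
      have := hu0 _ (mem_map_of_mem x hi)
      linarith
    · intro i hi hi'
      simp [hi, hi']
  · rintro ⟨l, hl, hl0, hP, hQ, hZ⟩
    rw [mem_dep_hom] at hl
    obtain ⟨h1, h2⟩ := hl
    have hsum : ∀ {M : Type} [AddCommGroup M] (g : ι → M), (∀ i, i ∉ P → i ∉ Q → g i = 0) →
        ∑ i, g i = ∑ i ∈ P, g i + ∑ i ∈ Q, g i := by
      intro M _ g hg
      rw [← sum_union hPQ]
      symm
      apply sum_subset (subset_univ _)
      intro i _ hi
      rw [mem_union, not_or] at hi
      exact hg i hi.1 hi.2
    have e1 := hsum l hZ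
    have e2 := hsum (fun i => l i • x i) (by
      intro i hi hi'
      simp only [hZ i hi hi', zero_smul])
    rw [h1] at e1
    rw [h2] at e2
    set c := ∑ i ∈ P, l i with hc
    have hc0 : 0 ≤ c := sum_nonneg hP
    have hcpos : 0 < c := by
      rcases eq_or_lt_of_le hc0 with h | h
      · exfalso
        apply hl0
        have hPz := (sum_eq_zero_iff_of_nonneg hP).mp h.symm
        have hQz : ∑ i ∈ Q, l i = 0 := by linarith
        have hQz' := (sum_eq_zero_iff_of_nonpos hQ).mp hQz
        funext i
        by_cases hi : i ∈ P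
        · exact hPz i hi
        · by_cases hi' : i ∈ Q
          · exact hQz' i hi'
          · exact hZ i hi hi'
      · exact h
    refine ⟨∑ i ∈ P, (l i / c) • x i, ?_, ?_⟩
    · rw [Finset.mem_convexHull']
      refine ⟨fun y => ∑ i ∈ P, if x i = y then l i / c else 0, ?_, ?_, ?_⟩
      · intro y _
        apply sum_nonneg
        intro i hi
        split_ifs
        · exact div_nonneg (hP i hi) hc0
        · exact le_refl _
      · rw [sum_map]
        have : ∀ j ∈ P, (∑ i ∈ P, if x i = x j then l i / c else 0) = l j / c := by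
          intro j hj
          simp only [x.apply_eq_iff_eq]
          rw [sum_ite_eq' P j]
          simp [hj]
        rw [sum_congr rfl this, ← sum_div, ← hc, div_self hcpos.ne']
      · rw [sum_map]
        apply sum_congr rfl
        intro j hj
        simp only [x.apply_eq_iff_eq]
        rw [sum_ite_eq' P j]
        simp [hj]
    · rw [Finset.mem_convexHull']
      refine ⟨fun y => ∑ i ∈ Q, if x i = y then -(l i / c) else 0, ?_, ?_, ?_⟩
      · intro y _
        apply sum_nonneg
        intro i hi
        split_ifs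
        · have := div_nonpos_of_nonpos_of_nonneg (hQ i hi) hc0
          linarith
        · exact le_refl _
      · rw [sum_map]
        have : ∀ j ∈ Q, (∑ i ∈ Q, if x i = x j then -(l i / c) else 0) = -(l j / c) := by
          intro j hj
          simp only [x.apply_eq_iff_eq]
          rw [sum_ite_eq' Q j]
          simp [hj]
        rw [sum_congr rfl this, sum_neg_distrib, ← sum_div]
        have : ∑ i ∈ Q, l i = - c := by linarith
        rw [this, neg_div, neg_neg, div_self hcpos.ne']
      · rw [sum_map]
        have : ∀ j ∈ Q, (∑ i ∈ Q, if x i = x j then -(l i / c) else 0) • x j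
            = -(1 / c) • (l j • x j) := by
          intro j hj
          simp only [x.apply_eq_iff_eq]
          rw [sum_ite_eq' Q j]
          simp only [hj, if_true, smul_smul]
          congr 1
          ring
        rw [sum_congr rfl this, ← smul_sum]
        have h3 : ∑ i ∈ Q, l i • x i = - ∑ i ∈ P, l i • x i := by
          rw [eq_neg_iff_add_eq_zero, add_comm]; exact e2.symm
        rw [h3, smul_neg, neg_smul, neg_neg, smul_sum]
        apply sum_congr rfl
        intro i _
        rw [smul_smul]; congr 1; ring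

end Pool.Agent.Work.MP_620441_co
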