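import Mathlib
import Pool.Agent.Work.MP_620441_co.Core

set_option autoImplicit false
set_option linter.unusedSectionVars false

namespace Pool.Agent.Work.MP_620441_co

open Finset

variable {ι : Type*} [Fintype ι] [DecidableEq ι]
variable {L : Submodule ℝ (ι → ℝ)} {m : ℕ}

lemma Rl.neg {P Q Z : Finset ι} (h : Rl L P Q Z) : Rl L Q P Z := by
  obtain ⟨l, hl, hl0, hP, hQ, hZ⟩ := h
  refine ⟨-l, L.neg_mem hl, neg_ne_zero.mpr hl0, ?_, ?_, ?_⟩
  · intro i hi; simpa using hQ i hi
  · intro i hi; simpa using hP i hi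
  · intro i hi; simpa using hZ i hi

lemma Rl_comm {P Q Z : Finset ι} : Rl L P Q Z ↔ Rl L Q P Z := ⟨Rl.neg, Rl.neg⟩

/-- Weighted sum over topes. -/
noncomputable def topeSum (L : Submodule ℝ (ι → ℝ)) (f : ℕ → ℝ) : ℝ :=
  ∑ P : Finset ι, f P.card * (ind (Rl L P Pᶜ ∅) : ℝ)

/-- Weighted sum over circuits. -/
noncomputable def circSum (L : Submodule ℝ (ι → ℝ)) (k : ℕ) (f : ℕ → ℝ) : ℝ :=
  ∑ Z ∈ (univ : Finset ι).powersetCard k, ∑ P ∈ Zᶜ.powerset,
    f P.card * (ind (Rl L P (Zᶜ \ P) Z) : ℝ)

lemma Rl_single (hL : Unif L m) {a : ι} {C : Finset ι} (ha : a ∉ C) :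
    ind (Rl L {a} ∅ C) = if C.card < m then 1 else 0 := by
  split_ifs with h
  · apply ind_true
    obtain ⟨v, hv, hv'⟩ := hL.ext (insert a C) (by rw [card_insert_of_notMem ha]; omega)
      (fun i => if i = a then 1 else 0)
    have hva : v a = 1 := by simpa using hv' a (mem_insert_self _ _)
    refine ⟨v, hv, ?_, ?_, ?_, ?_⟩
    · rintro rfl; simp at hva
    · intro i hi; rw [mem_singleton] at hi; subst hi; rw [hva]; norm_num
    · simp
    · intro i hi
      rw [hv' i (mem_insert_of_mem hi), if_neg]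
      rintro rfl; exact ha hi
  · exact ind_false (not_Rl_of_card hL (by omega))

lemma Rl_pair (hL : Unif L m) {a b : ι} (hab : a ≠ b) {C : Finset ι} (ha : a ∉ C) (hb : b ∉ C)
    (h : C.card + 1 < m) : ind (Rl L {a} {b} C) = 1 := by
  apply ind_true
  obtain ⟨v, hv, hv'⟩ := hL.ext (insert a (insert b C)) (by
    rw [card_insert_of_notMem, card_insert_of_notMem hb]
    · omega
    · simp [hab, ha])
    (fun i => if i = a then 1 else if i = b then -1 else 0)
  have hva : v a = 1 := by simpa using hv' a (mem_insert_self _ _)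
  have hvb : v b = -1 := by
    rw [hv' b (by simp)]; simp [hab.symm]
  refine ⟨v, hv, ?_, ?_, ?_, ?_⟩
  · rintro rfl; simp at hva
  · intro i hi; rw [mem_singleton] at hi; subst hi; rw [hva]; norm_num
  · intro i hi; rw [mem_singleton] at hi; subst hi; rw [hvb]; norm_num
  · intro i hi
    rw [hv' i (by simp [hi]), if_neg, if_neg]
    · rintro rfl; exact hb hi
    · rintro rfl; exact ha hi

/-- counting subsets by size -/
lemma sum_powerset_card_lt (A : Finset ι) (k : ℕ) :
    ∑ C ∈ A.powerset, (if C.card < k then (1 : ℤ) else 0)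
      = ∑ j ∈ range k, (A.card.choose j : ℤ) := by
  rw [← sum_filter, sum_const, nsmul_eq_mul, mul_one]
  have : (A.powerset.filter (fun C => C.card < k)) = (range k).biUnion (fun j => A.powersetCard j) := by
    ext C
    simp only [mem_filter, mem_powerset, mem_biUnion, mem_range, mem_powersetCard]
    constructor
    · rintro ⟨h1, h2⟩; exact ⟨_, h2, h1, rfl⟩
    · rintro ⟨j, h2, h1, rfl⟩; exact ⟨h1, h2⟩
  rw [this, card_biUnion]
  · push_cast
    simp
  · intro i _ j _ hij
    rw [Function.onFun, disjoint_left]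
    intro C h1 h2
    rw [mem_powersetCard] at h1 h2
    exact hij (h1.2.symm.trans h2.2)

/-- Number of sign vectors with a fixed sign at `a` on the complement of `Z`. -/
lemma count_half (hL : Unif L m) {a : ι} {Z : Finset ι} (ha : a ∉ Z) :
    ∑ B ∈ ((insert a Z)ᶜ).powerset, ind (Rl L (insert a B) ((insert a Z)ᶜ \ B) Z)
      = ∑ j ∈ range (m - Z.card), (((insert a Z)ᶜ.card).choose j : ℤ) := by
  have h1 := zas hL ((insert a Z)ᶜ) {a} ∅ Z (by simp) (by simp) (by simp) (by
    rw [disjoint_left]
    intro i hi hi'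
    rw [mem_compl] at hi
    exact hi (mem_insert_of_mem hi'))
  simp only [empty_union, ← insert_eq] at h1
  rw [h1, ← sum_powerset_card_lt]
  apply sum_congr rfl
  intro C hC
  rw [mem_powerset] at hC
  have hZC : Disjoint Z C := by
    rw [disjoint_left]
    intro i hi hi'
    have := hC hi'
    rw [mem_compl] at this
    exact this (mem_insert_of_mem hi)
  have haC : a ∉ Z ∪ C := by
    rw [mem_union, not_or]
    refine ⟨ha, fun h => ?_⟩
    have := hC h
    rw [mem_compl] at this
    exact this (mem_insert_self _ _)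
  rw [Rl_single hL haC, card_union_of_disjoint hZC]
  congr 1
  apply propext
  omega

/-- Split sum over sign vectors on the complement of `Z` according to the sign at `a`. -/
lemma split_at (f : Finset ι → Finset ι → ℤ) {a : ι} {Z : Finset ι} (ha : a ∉ Z) :
    ∑ P ∈ Zᶜ.powerset, f P (Zᶜ \ P)
      = ∑ B ∈ ((insert a Z)ᶜ).powerset, f (insert a B) ((insert a Z)ᶜ \ B)
        + ∑ B ∈ ((insert a Z)ᶜ).powerset, f B (insert a ((insert a Z)ᶜ \ B)) := by
  have hZ : Zᶜ = insert a ((insert a Z)ᶜ) := by
    ext i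
    simp only [mem_compl, mem_insert, not_or]
    by_cases h : i = a
    · subst h; simp [ha]
    · simp [h]
  have haA : a ∉ (insert a Z)ᶜ := by simp
  rw [hZ, sum_powerset_insert haA, add_comm]
  congr 1
  · apply sum_congr rfl
    intro B hB
    rw [mem_powerset] at hB
    have haB : a ∉ B := fun h => haA (hB h)
    congr 1
    ext x
    simp only [mem_sdiff, mem_insert, not_or]
    constructor
    · rintro ⟨rfl | h, h1, h2⟩
      · exact absurd rfl h1
      · exact ⟨h, h2⟩
    · rintro ⟨h, h2⟩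
      exact ⟨Or.inr h, fun h' => haA (h' ▸ h), h2⟩
  · apply sum_congr rfl
    intro B hB
    rw [mem_powerset] at hB
    have haB : a ∉ B := fun h => haA (hB h)
    rw [insert_sdiff_of_notMem _ haB]

/-- reflect -/
lemma sum_powerset_compl {β : Type*} [AddCommMonoid β] (A : Finset ι) (g : Finset ι → Finset ι → β) :
    ∑ B ∈ A.powerset, g B (A \ B) = ∑ B ∈ A.powerset, g (A \ B) B := by
  refine sum_bij' (fun B _ => A \ B) (fun B _ => A \ B) ?_ ?_ ?_ ?_ ?_
  · intro B _; exact mem_powerset.mpr sdiff_subset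
  · intro B _; exact mem_powerset.mpr sdiff_subset
  · intro B hB; exact Finset.sdiff_sdiff_eq_self (mem_powerset.mp hB)
  · intro B hB; exact Finset.sdiff_sdiff_eq_self (mem_powerset.mp hB)
  · intro B hB; rw [Finset.sdiff_sdiff_eq_self (mem_powerset.mp hB)]

lemma count_full (hL : Unif L m) {Z : Finset ι} (hZ : Z.card < Fintype.card ι) :
    ∑ P ∈ Zᶜ.powerset, ind (Rl L P (Zᶜ \ P) Z)
      = 2 * ∑ j ∈ range (m - Z.card), ((Fintype.card ι - 1 - Z.card).choose j : ℤ) := by
  obtain ⟨a, ha⟩ : ∃ a, a ∉ Z := by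
    by_contra hcon
    push Not at hcon
    have : Z = univ := by ext i; simp [hcon i]
    rw [this, card_univ] at hZ
    exact lt_irrefl _ hZ
  rw [split_at (fun P Q => ind (Rl L P Q Z)) ha, count_half hL ha]
  rw [sum_powerset_compl (g := fun B B' => ind (Rl L B (insert a B') Z))]
  have : ∑ B ∈ ((insert a Z)ᶜ).powerset, ind (Rl L ((insert a Z)ᶜ \ B) (insert a B) Z)
      = ∑ B ∈ ((insert a Z)ᶜ).powerset, ind (Rl L (insert a B) ((insert a Z)ᶜ \ B) Z) := by
    apply sum_congr rfl
    intro B _
    rw [Rl_comm]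
  rw [this, count_half hL ha]
  have hc : ((insert a Z)ᶜ).card = Fintype.card ι - 1 - Z.card := by
    rw [card_compl, card_insert_of_notMem ha]; omega
  rw [hc]
  ring

theorem topeSum_one (hL : Unif L m) (hcard : 0 < Fintype.card ι) :
    topeSum L (fun _ => 1) = 2 * ∑ j ∈ range m, ((Fintype.card ι - 1).choose j : ℝ) := by
  have h := count_full hL (Z := ∅) (by simpa using hcard)
  unfold topeSum
  have h' : ((∑ P ∈ (∅ : Finset ι)ᶜ.powerset, ind (Rl L P ((∅ : Finset ι)ᶜ \ P) ∅) : ℤ) : ℝ)
      = ((2 * ∑ j ∈ range (m - (∅ : Finset ι).card),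
        ((Fintype.card ι - 1 - (∅ : Finset ι).card).choose j : ℤ) : ℤ) : ℝ) := by
    exact_mod_cast h
  push_cast at h'
  simp only [compl_empty, powerset_univ, card_empty, tsub_zero] at h'
  rw [← h']
  apply sum_congr rfl
  intro P _
  rw [one_mul, compl_eq_univ_sdiff]

theorem circSum_one (hL : Unif L m) (hm : 0 < m) (hcard : m ≤ Fintype.card ι) :
    circSum L (m - 1) (fun _ => 1) = 2 * ((Fintype.card ι).choose (m - 1) : ℝ) := by
  unfold circSum
  have : ∀ Z ∈ (univ : Finset ι).powersetCard (m - 1),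
      ∑ P ∈ Zᶜ.powerset, (1 : ℝ) * (ind (Rl L P (Zᶜ \ P) Z) : ℝ) = 2 := by
    intro Z hZ
    rw [mem_powersetCard] at hZ
    have h := count_full hL (Z := Z) (by omega)
    rw [hZ.2, show m - (m - 1) = 1 by omega] at h
    simp only [range_one, sum_singleton, Nat.choose_zero_right, Nat.cast_one, mul_one] at h
    simp only [one_mul]
    exact_mod_cast h
  rw [sum_congr rfl this, sum_const, card_powersetCard, card_univ, nsmul_eq_mul]
  ring

theorem topeSum_alt (hL : Unif L m) (hm : Even m) (hcard : m ≤ Fintype.card ι) :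
    topeSum L (fun i => (-1) ^ i) = 0 := by
  have h := alt_sum hL hm hcard
  unfold topeSum
  have h' : ((∑ P : Finset ι, (-1 : ℤ) ^ P.card * ind (Rl L P Pᶜ ∅) : ℤ) : ℝ) = ((0 : ℤ) : ℝ) := by
    rw [h]
  push_cast at h'
  exact h'


/-- Topes containing `a` in the positive part and `b` in the negative part. -/
lemma lune_count (hL : Unif L m) {a b : ι} (hab : a ≠ b) :
    ∑ P : Finset ι, (if a ∈ P ∧ b ∉ P then ind (Rl L P Pᶜ ∅) else 0)
      = ∑ C ∈ ({a, b} : Finset ι)ᶜ.powerset, ind (Rl L {a} {b} C) := by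
  have h1 := zas hL (({a, b} : Finset ι)ᶜ) {a} {b} ∅ (by simp) (by simp)
    (by simp) (by simp)
  simp only [empty_union] at h1
  rw [← h1, ← sum_filter]
  symm
  refine sum_bij' (fun B _ => {a} ∪ B) (fun P _ => P.erase a) ?_ ?_ ?_ ?_ ?_
  · intro B hB
    rw [mem_powerset] at hB
    simp only [mem_filter, mem_univ, true_and]
    refine ⟨by simp, ?_⟩
    rw [mem_union, not_or, mem_singleton]
    refine ⟨hab.symm, fun h => ?_⟩
    have := hB h
    simp at this
  · intro P hP
    simp only [mem_filter, mem_univ, true_and] at hP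
    rw [mem_powerset]
    intro i hi
    rw [mem_erase] at hi
    simp only [mem_compl, mem_insert, mem_singleton, not_or]
    refine ⟨hi.1, ?_⟩
    rintro rfl
    exact hP.2 hi.2
  · intro B hB
    rw [mem_powerset] at hB
    rw [← insert_eq, erase_insert]
    intro h
    have := hB h
    simp at this
  · intro P hP
    simp only [mem_filter, mem_univ, true_and] at hP
    rw [← insert_eq, insert_erase hP.1]
  · intro B hB
    rw [mem_powerset] at hB
    congr 1
    have : {b} ∪ (({a, b} : Finset ι)ᶜ \ B) = ({a} ∪ B)ᶜ := by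
      ext x
      simp only [mem_union, mem_singleton, mem_sdiff, mem_compl, mem_insert, not_or]
      constructor
      · rintro (rfl | ⟨⟨h1, h2⟩, h3⟩)
        · refine ⟨hab.symm, fun h => ?_⟩
          have := hB h
          simp at this
        · exact ⟨h1, h3⟩
      · rintro ⟨h1, h2⟩
        by_cases h : x = b
        · exact Or.inl h
        · exact Or.inr ⟨⟨h1, h⟩, h2⟩
    rw [this]

/-- Circuits with zero set `Z`, positive at `a` and negative at `b`. -/
lemma circ_lune (hL : Unif L m) (hm : 0 < m) {a b : ι} (hab : a ≠ b) {Z : Finset ι}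
    (ha : a ∉ Z) (hb : b ∉ Z) (hZ : Z.card = m - 1) :
    ∑ P ∈ Zᶜ.powerset, (if a ∈ P ∧ b ∉ P then ind (Rl L P (Zᶜ \ P) Z) else 0)
      = ind (Rl L {a} {b} Z) := by
  have h1 := zas hL ((insert a (insert b Z))ᶜ) {a} {b} Z (by simp) (by simp)
    (by simp) (by
      rw [disjoint_left]
      intro i hi hi'
      rw [mem_compl] at hi
      exact hi (by simp [hi']))
  have h2 : ∑ C ∈ ((insert a (insert b Z))ᶜ).powerset, ind (Rl L {a} {b} (Z ∪ C))
      = ind (Rl L {a} {b} Z) := by
    rw [← sum_erase_add _ _ (empty_mem_powerset _), sum_eq_zero, zero_add, union_empty]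
    intro C hC
    rw [mem_erase, mem_powerset] at hC
    apply ind_false
    apply not_Rl_of_card hL
    have hdis : Disjoint Z C := by
      rw [disjoint_left]
      intro i hi hi'
      have := hC.2 hi'
      rw [mem_compl] at this
      exact this (by simp [hi])
    rw [card_union_of_disjoint hdis]
    have := card_pos.mpr (nonempty_iff_ne_empty.mpr hC.1)
    omega
  rw [h2] at h1
  rw [← h1, ← sum_filter]
  symm
  refine sum_bij' (fun B _ => {a} ∪ B) (fun P _ => P.erase a) ?_ ?_ ?_ ?_ ?_
  · intro B hB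
    rw [mem_powerset] at hB
    simp only [mem_filter, mem_powerset]
    refine ⟨?_, by simp, ?_⟩
    · intro i hi
      rw [mem_union, mem_singleton] at hi
      rcases hi with rfl | hi
      · simpa using ha
      · have := hB hi
        simp only [mem_compl, mem_insert, not_or] at this ⊢
        exact this.2.2
    · rw [mem_union, not_or, mem_singleton]
      refine ⟨hab.symm, fun h => ?_⟩
      have := hB h
      simp at this
  · intro P hP
    simp only [mem_filter, mem_powerset] at hP
    rw [mem_powerset]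
    intro i hi
    rw [mem_erase] at hi
    simp only [mem_compl, mem_insert, not_or]
    refine ⟨hi.1, ?_, ?_⟩
    · rintro rfl
      exact hP.2.2 hi.2
    · have := hP.1 hi.2
      simpa using this
  · intro B hB
    rw [mem_powerset] at hB
    rw [← insert_eq, erase_insert]
    intro h
    have := hB h
    simp at this
  · intro P hP
    simp only [mem_filter, mem_powerset] at hP
    rw [← insert_eq, insert_erase hP.2.1]
  · intro B hB
    rw [mem_powerset] at hB
    congr 1
    have : {b} ∪ ((insert a (insert b Z))ᶜ \ B) = Zᶜ \ ({a} ∪ B) := by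
      ext x
      simp only [mem_union, mem_singleton, mem_sdiff, mem_compl, mem_insert, not_or]
      constructor
      · rintro (rfl | ⟨⟨h1, h2, h3⟩, h4⟩)
        · refine ⟨hb, hab.symm, fun h => ?_⟩
          have := hB h
          simp at this
        · exact ⟨h3, h1, h4⟩
      · rintro ⟨h1, h2, h3⟩
        by_cases h : x = b
        · exact Or.inl h
        · exact Or.inr ⟨⟨h2, h, h1⟩, h3⟩
    rw [this]

lemma lune_rel (hL : Unif L m) (hm : 0 < m) {a b : ι} (hab : a ≠ b) :
    ∑ P : Finset ι, (if a ∈ P ∧ b ∉ P then ind (Rl L P Pᶜ ∅) else 0)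
      = ∑ Z ∈ (univ : Finset ι).powersetCard (m - 1), ∑ P ∈ Zᶜ.powerset,
          (if a ∈ P ∧ b ∈ Zᶜ \ P then ind (Rl L P (Zᶜ \ P) Z) else 0)
        + ∑ j ∈ range (m - 1), ((Fintype.card ι - 2).choose j : ℤ) := by
  rw [lune_count hL hab]
  have h0 : ∑ Z ∈ (univ : Finset ι).powersetCard (m - 1), ∑ P ∈ Zᶜ.powerset,
          (if a ∈ P ∧ b ∈ Zᶜ \ P then ind (Rl L P (Zᶜ \ P) Z) else 0)
      = ∑ Z ∈ (({a, b} : Finset ι)ᶜ).powersetCard (m - 1), ind (Rl L {a} {b} Z) := by
    symm
    have hsub : (({a, b} : Finset ι)ᶜ).powersetCard (m - 1)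
        ⊆ (univ : Finset ι).powersetCard (m - 1) := powersetCard_mono (subset_univ _)
    rw [← sum_subset hsub]
    · apply sum_congr rfl
      intro Z hZ
      rw [mem_powersetCard] at hZ
      have haZ : a ∉ Z := by intro h; have := hZ.1 h; simp at this
      have hbZ : b ∉ Z := by intro h; have := hZ.1 h; simp at this
      rw [← circ_lune hL hm hab haZ hbZ hZ.2]
      apply sum_congr rfl
      intro P _
      have : (a ∈ P ∧ b ∉ P) ↔ (a ∈ P ∧ b ∈ Zᶜ \ P) := by
        simp [hbZ]
      simp only [this]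
    · intro Z hZ hZ'
      rw [mem_powersetCard] at hZ hZ'
      apply sum_eq_zero
      intro P hP
      rw [mem_powerset] at hP
      rw [if_neg]
      rintro ⟨h1, h2⟩
      apply hZ'
      refine ⟨?_, hZ.2⟩
      intro i hi
      simp only [mem_compl, mem_insert, mem_singleton, not_or]
      constructor
      · rintro rfl
        have := hP h1
        rw [mem_compl] at this
        exact this hi
      · rintro rfl
        rw [mem_sdiff, mem_compl] at h2
        exact h2.1 hi
  rw [h0]
  have hcard : (({a, b} : Finset ι)ᶜ).card = Fintype.card ι - 2 := by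
    rw [card_compl, card_pair hab]
  rw [← hcard, ← sum_powerset_card_lt]
  have h1 : ∑ Z ∈ (({a, b} : Finset ι)ᶜ).powersetCard (m - 1), ind (Rl L {a} {b} Z)
      = ∑ C ∈ (({a, b} : Finset ι)ᶜ).powerset,
        (if C.card = m - 1 then ind (Rl L {a} {b} C) else 0) := by
    rw [← sum_filter]
    apply sum_congr _ (fun _ _ => rfl)
    ext C
    simp [mem_powersetCard]
  rw [h1, ← sum_add_distrib]
  apply sum_congr rfl
  intro C hC
  rw [mem_powerset] at hC
  have haZ : a ∉ C := by intro h; have := hC h; simp at this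
  have hbZ : b ∉ C := by intro h; have := hC h; simp at this
  rcases lt_trichotomy C.card (m - 1) with h | h | h
  · rw [if_neg h.ne, if_pos h, Rl_pair hL hab haZ hbZ (by omega)]; ring
  · rw [if_pos h, if_neg (by omega)]; ring
  · rw [if_neg h.ne', if_neg (by omega), ind_false (not_Rl_of_card hL (by omega))]; ring

lemma card_mul_card (P Q : Finset ι) :
    ∑ a : ι, ∑ b : ι, (if a ∈ P ∧ b ∈ Q then (1 : ℤ) else 0) = P.card * Q.card := by
  have : ∀ a b : ι, (if a ∈ P ∧ b ∈ Q then (1 : ℤ) else 0)
      = (if a ∈ P then 1 else 0) * (if b ∈ Q then 1 else 0) := by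
    intro a b
    by_cases h1 : a ∈ P <;> by_cases h2 : b ∈ Q <;> simp [h1, h2]
  simp_rw [this, ← mul_sum, ← sum_mul]
  simp

/-- The quadratic relation. -/
theorem quad_rel (hL : Unif L m) (hm : 0 < m) :
    topeSum L (fun i => (i : ℝ) * ((Fintype.card ι : ℝ) - i))
      - circSum L (m - 1) (fun i => (i : ℝ) * ((Fintype.card ι : ℝ) - (m - 1 : ℕ) - i))
      = (Fintype.card ι : ℝ) * (Fintype.card ι - 1)
        * ∑ j ∈ range (m - 1), ((Fintype.card ι - 2).choose j : ℝ) := by
  have h1 : topeSum L (fun i => (i : ℝ) * ((Fintype.card ι : ℝ) - i))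
      = ((∑ a : ι, ∑ b : ι, ∑ P : Finset ι,
        (if a ∈ P ∧ b ∉ P then ind (Rl L P Pᶜ ∅) else 0) : ℤ) : ℝ) := by
    have : ∑ a : ι, ∑ b : ι, ∑ P : Finset ι,
        (if a ∈ P ∧ b ∉ P then ind (Rl L P Pᶜ ∅) else 0)
        = ∑ P : Finset ι, (P.card : ℤ) * (Pᶜ.card : ℤ) * ind (Rl L P Pᶜ ∅) := by
      rw [sum_congr rfl (fun a _ => sum_comm)]
      rw [sum_comm]
      apply sum_congr rfl
      intro P _
      rw [← card_mul_card, sum_mul]
      apply sum_congr rfl
      intro a _
      rw [sum_mul]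
      apply sum_congr rfl
      intro b _
      by_cases h : a ∈ P ∧ b ∉ P
      · have h' : a ∈ P ∧ b ∈ Pᶜ := by simpa using h
        rw [if_pos h, if_pos h', one_mul]
      · have h' : ¬ (a ∈ P ∧ b ∈ Pᶜ) := by simpa using h
        rw [if_neg h, if_neg h', zero_mul]
    rw [this]
    unfold topeSum
    push_cast
    apply sum_congr rfl
    intro P _
    have hc : (Pᶜ.card : ℝ) = (Fintype.card ι : ℝ) - P.card := by
      rw [card_compl, Nat.cast_sub (card_le_univ P)]
    rw [hc]
  have h2 : circSum L (m - 1) (fun i => (i : ℝ) * ((Fintype.card ι : ℝ) - (m - 1 : ℕ) - i))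
      = ((∑ a : ι, ∑ b : ι, ∑ Z ∈ (univ : Finset ι).powersetCard (m - 1), ∑ P ∈ Zᶜ.powerset,
          (if a ∈ P ∧ b ∈ Zᶜ \ P then ind (Rl L P (Zᶜ \ P) Z) else 0) : ℤ) : ℝ) := by
    have : ∑ a : ι, ∑ b : ι, ∑ Z ∈ (univ : Finset ι).powersetCard (m - 1), ∑ P ∈ Zᶜ.powerset,
          (if a ∈ P ∧ b ∈ Zᶜ \ P then ind (Rl L P (Zᶜ \ P) Z) else 0)
        = ∑ Z ∈ (univ : Finset ι).powersetCard (m - 1), ∑ P ∈ Zᶜ.powerset,
          (P.card : ℤ) * ((Zᶜ \ P).card : ℤ) * ind (Rl L P (Zᶜ \ P) Z) := by
      rw [sum_congr rfl (fun a _ => sum_comm)]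
      rw [sum_comm]
      apply sum_congr rfl
      intro Z _
      rw [sum_congr rfl (fun a _ => sum_comm)]
      rw [sum_comm]
      apply sum_congr rfl
      intro P _
      rw [← card_mul_card, sum_mul]
      apply sum_congr rfl
      intro a _
      rw [sum_mul]
      apply sum_congr rfl
      intro b _
      by_cases h : a ∈ P ∧ b ∈ Zᶜ \ P
      · rw [if_pos h, if_pos h, one_mul]
      · rw [if_neg h, if_neg h, zero_mul]
    rw [this]
    unfold circSum
    push_cast
    apply sum_congr rfl
    intro Z hZ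
    rw [mem_powersetCard] at hZ
    apply sum_congr rfl
    intro P hP
    rw [mem_powerset] at hP
    have hc : ((Zᶜ \ P).card : ℝ) = (Fintype.card ι : ℝ) - (m - 1 : ℕ) - P.card := by
      rw [card_sdiff_of_subset hP, Nat.cast_sub (card_le_card hP), card_compl,
        Nat.cast_sub (card_le_univ Z), hZ.2]
    rw [hc]
  rw [h1, h2]
  have h3 : (∑ a : ι, ∑ b : ι, ∑ P : Finset ι,
        (if a ∈ P ∧ b ∉ P then ind (Rl L P Pᶜ ∅) else 0) : ℤ)
      = (∑ a : ι, ∑ b : ι, ∑ Z ∈ (univ : Finset ι).powersetCard (m - 1), ∑ P ∈ Zᶜ.powerset,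
          (if a ∈ P ∧ b ∈ Zᶜ \ P then ind (Rl L P (Zᶜ \ P) Z) else 0) : ℤ)
        + (Fintype.card ι : ℤ) * (Fintype.card ι - 1)
          * ∑ j ∈ range (m - 1), ((Fintype.card ι - 2).choose j : ℤ) := by
    have : ∀ a b : ι, ∑ P : Finset ι, (if a ∈ P ∧ b ∉ P then ind (Rl L P Pᶜ ∅) else 0)
        = ∑ Z ∈ (univ : Finset ι).powersetCard (m - 1), ∑ P ∈ Zᶜ.powerset,
          (if a ∈ P ∧ b ∈ Zᶜ \ P then ind (Rl L P (Zᶜ \ P) Z) else 0)
        + (if a = b then 0 else ∑ j ∈ range (m - 1), ((Fintype.card ι - 2).choose j : ℤ)) := by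
      intro a b
      by_cases hab : a = b
      · subst hab
        rw [if_pos rfl, add_zero, sum_eq_zero, sum_eq_zero]
        · intro Z _
          apply sum_eq_zero
          intro P _
          rw [if_neg]
          rintro ⟨h1, h2⟩
          rw [mem_sdiff] at h2
          exact h2.2 h1
        · intro P _
          rw [if_neg]
          rintro ⟨h1, h2⟩
          exact h2 h1
      · rw [if_neg hab, lune_rel hL hm hab]
    simp_rw [this, sum_add_distrib]
    congr 1
    have h4 : ∀ a : ι, ∑ b : ι, (if a = b then (0 : ℤ)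
        else ∑ j ∈ range (m - 1), ((Fintype.card ι - 2).choose j : ℤ))
        = (Fintype.card ι - 1) * ∑ j ∈ range (m - 1), ((Fintype.card ι - 2).choose j : ℤ) := by
      intro a
      have h5 : ∀ b : ι, (if a = b then (0 : ℤ)
        else ∑ j ∈ range (m - 1), ((Fintype.card ι - 2).choose j : ℤ))
        = ∑ j ∈ range (m - 1), ((Fintype.card ι - 2).choose j : ℤ)
          - (if a = b then ∑ j ∈ range (m - 1), ((Fintype.card ι - 2).choose j : ℤ) else 0) := by
        intro b
        split_ifs <;> ring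
      simp_rw [h5, sum_sub_distrib]
      rw [sum_ite_eq, if_pos (mem_univ _), sum_const, card_univ, nsmul_eq_mul]
      ring
    simp_rw [h4]
    rw [sum_const, card_univ, nsmul_eq_mul]
    ring
  rw [h3]
  push_cast
  ring

/-- `m = 1` : topes are circuits. -/
theorem topeSum_eq_circSum (f : ℕ → ℝ) : topeSum L f = circSum L 0 f := by
  unfold topeSum circSum
  simp [compl_eq_univ_sdiff]

/-- `m = 2` -/
theorem topeSum_two (hL : Unif L 2) (hcard : 2 ≤ Fintype.card ι) (f : ℕ → ℝ) :
    2 * topeSum L f = circSum L 1 (fun i => f i + f (i + 1)) := by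
  have hE : ∀ P : Finset ι, 2 * (ind (Rl L P Pᶜ ∅))
      = ∑ e : ι, ind (Rl L (P \ {e}) (Pᶜ \ {e}) {e}) := by
    intro P
    have h := EU_eq hL _ univ ∅ P rfl (disjoint_empty_right _) (subset_univ _) (by
      rw [card_univ]; omega)
    unfold EU at h
    have h1 : (univ : Finset ι).powerset = (univ.powerset.filter (fun C : Finset ι => C.card < 2))
        ∪ (univ.powerset.filter (fun C : Finset ι => ¬ C.card < 2)) := by
      rw [filter_union_filter_not_eq]
    rw [h1, sum_union (disjoint_filter_filter_not _ _ _)] at h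
    have h2 : ∑ C ∈ (univ.powerset.filter (fun C : Finset ι => ¬ C.card < 2)),
        (-1 : ℤ) ^ C.card * ind (Rl L (P \ C) ((univ \ P) \ C) (∅ ∪ C)) = 0 := by
      apply sum_eq_zero
      intro C hC
      rw [mem_filter] at hC
      rw [ind_false (not_Rl_of_card hL ?_), mul_zero]
      rw [empty_union]
      omega
    have h3 : (univ.powerset.filter (fun C : Finset ι => C.card < 2))
        = insert ∅ (univ.image (fun e : ι => ({e} : Finset ι))) := by
      ext C
      simp only [powerset_univ, mem_filter, mem_univ, true_and, mem_insert, mem_image]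
      constructor
      · intro h
        interval_cases hC : C.card
        · left; exact card_eq_zero.mp hC
        · right
          obtain ⟨a, rfl⟩ := card_eq_one.mp hC
          exact ⟨a, rfl⟩
      · rintro (rfl | ⟨a, rfl⟩) <;> simp
    rw [h2, h3, sum_insert (by simp), sum_image (by
      intro a _ b _ hab
      exact singleton_injective hab)] at h
    simp only [card_empty, pow_zero, one_mul, sdiff_empty, empty_union, union_empty,
      card_singleton, pow_one, neg_mul, sum_neg_distrib, add_zero, ← compl_eq_univ_sdiff] at h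
    norm_num at h
    linarith
  unfold topeSum circSum
  have h1 : (univ : Finset ι).powersetCard 1 = univ.image (fun e : ι => ({e} : Finset ι)) := by
    rw [powersetCard_one, map_eq_image]; rfl
  rw [h1, sum_image (by
      intro a _ b _ hab
      exact singleton_injective hab), mul_sum]
  have h2 : ∀ P : Finset ι, 2 * (f P.card * (ind (Rl L P Pᶜ ∅) : ℝ))
      = ∑ e : ι, f P.card * (ind (Rl L (P \ {e}) (Pᶜ \ {e}) {e}) : ℝ) := by
    intro P
    have := hE P
    have h' : (2 : ℝ) * (ind (Rl L P Pᶜ ∅) : ℝ)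
      = ∑ e : ι, (ind (Rl L (P \ {e}) (Pᶜ \ {e}) {e}) : ℝ) := by exact_mod_cast this
    rw [← mul_sum, ← h']
    ring
  simp_rw [h2]
  rw [sum_comm]
  apply sum_congr rfl
  intro e _
  have h3 : (univ : Finset (Finset ι)) = (insert e ({e}ᶜ : Finset ι)).powerset := by
    ext P
    simp only [mem_univ, mem_powerset, true_iff]
    intro x _
    by_cases h : x = e <;> simp [h]
  rw [h3, sum_powerset_insert (by simp), ← sum_add_distrib]
  apply sum_congr rfl
  intro P hP
  rw [mem_powerset] at hP
  have heP : e ∉ P := by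
    intro h
    have := hP h
    simp at this
  have e1 : P \ {e} = P := by
    ext x; simp only [mem_sdiff, mem_singleton]
    constructor
    · rintro ⟨h1, h2⟩; exact h1
    · intro h; exact ⟨h, fun h' => heP (h' ▸ h)⟩
  have e2 : Pᶜ \ {e} = {e}ᶜ \ P := by
    ext x; simp only [mem_sdiff, mem_compl, mem_singleton]; tauto
  have e3 : insert e P \ {e} = P := by
    ext x; simp only [mem_sdiff, mem_insert, mem_singleton]
    constructor
    · rintro ⟨h1 | h1, h2⟩
      · exact absurd h1 h2
      · exact h1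
    · intro h; exact ⟨Or.inr h, fun h' => heP (h' ▸ h)⟩
  have e4 : (insert e P)ᶜ \ {e} = {e}ᶜ \ P := by
    ext x; simp only [mem_sdiff, mem_compl, mem_singleton, mem_insert]; tauto
  rw [e1, e2, e3, e4, card_insert_of_notMem heP]
  ring

end Pool.Agent.Work.MP_620441_co
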