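import Mathlib
import Pool.Agent.Work.MP_620441_co.Count

set_option autoImplicit false
set_option linter.unusedSectionVars false

namespace Pool.Agent.Work.MP_620441_co

open Finset

variable {ι : Type*} [Fintype ι] [DecidableEq ι]
variable {L : Submodule ℝ (ι → ℝ)} {m : ℕ}

/-- A conformal vector with smaller support. -/
lemma smaller_support (hL : Unif L m) (hmc : m ≤ Fintype.card ι) {P Q : Finset ι}
    (hPQ : Disjoint P Q)
    (h : Rl L P Q (P ∪ Q)ᶜ) (hc : Fintype.card ι + 1 < m + (P.card + Q.card)) :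
    ∃ P' Q', P' ⊆ P ∧ Q' ⊆ Q ∧ P'.card + Q'.card < P.card + Q.card ∧
      Rl L P' Q' (P' ∪ Q')ᶜ := by
  have hzc := h.card_lt hL
  obtain ⟨l, hl, hl0, hP, hQ, hZ⟩ := h
  have hcardle : P.card + Q.card ≤ Fintype.card ι := by
    rw [← card_union_of_disjoint hPQ]; exact card_le_univ _
  have hZcard : (P ∪ Q)ᶜ.card = Fintype.card ι - (P.card + Q.card) := by
    rw [card_compl, card_union_of_disjoint hPQ]
  have h2 : 1 < (P ∪ Q).card := by
    rw [card_union_of_disjoint hPQ]; omega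
  obtain ⟨a, ha, b, hb, hab⟩ := one_lt_card.mp h2
  have hla : l a ≠ 0 := by
    rcases mem_union.mp ha with h | h
    · exact (hP a h).ne'
    · exact (hQ a h).ne
  have hlb : l b ≠ 0 := by
    rcases mem_union.mp hb with h | h
    · exact (hP b h).ne'
    · exact (hQ b h).ne
  obtain ⟨v, hv, hv'⟩ := hL.ext (insert a (insert b (P ∪ Q)ᶜ)) (by
    have h1 := card_insert_le b (P ∪ Q)ᶜ
    have h2 := card_insert_le a (insert b (P ∪ Q)ᶜ)
    omega) (fun i => if i = a then l a else 0)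
  have hva : v a = l a := by simpa using hv' a (mem_insert_self _ _)
  have hvb : v b = 0 := by
    rw [hv' b (by simp)]; simp [hab.symm]
  have hvZ : ∀ i ∈ (P ∪ Q)ᶜ, v i = 0 := by
    intro i hi
    rw [hv' i (by simp only [mem_insert]; exact Or.inr (Or.inr hi)), if_neg]
    rintro rfl
    rw [mem_compl] at hi
    exact hi ha
  -- indices with `v i / l i > 0`
  set T := (P ∪ Q).filter (fun i => 0 < v i / l i) with hT
  have haT : a ∈ T := by
    rw [hT, mem_filter]
    refine ⟨ha, ?_⟩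
    rw [hva, div_self hla]; norm_num
  obtain ⟨c, hcT, hmax⟩ := exists_max_image T (fun i => v i / l i) ⟨a, haT⟩
  set r := v c / l c with hr
  have hrpos : 0 < r := by
    rw [hT, mem_filter] at hcT; exact hcT.2
  have hcPQ : c ∈ P ∪ Q := by
    rw [hT, mem_filter] at hcT; exact hcT.1
  have hlc : l c ≠ 0 := by
    rcases mem_union.mp hcPQ with h | h
    · exact (hP c h).ne'
    · exact (hQ c h).ne
  -- new vector
  set w : ι → ℝ := r • l - v with hw
  have hwL : w ∈ L := L.sub_mem (L.smul_mem _ hl) hv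
  have hwc : w c = 0 := by
    simp only [hw, Pi.sub_apply, Pi.smul_apply, smul_eq_mul, hr]
    field_simp
    ring
  have hwb : w b ≠ 0 := by
    simp only [hw, Pi.sub_apply, Pi.smul_apply, smul_eq_mul, hvb, sub_zero]
    exact mul_ne_zero hrpos.ne' hlb
  have hle : ∀ i ∈ P ∪ Q, v i / l i ≤ r := by
    intro i hi
    by_cases h : 0 < v i / l i
    · exact hmax i (by rw [hT, mem_filter]; exact ⟨hi, h⟩)
    · push Not at h; linarith
  have hwP : ∀ i ∈ P, 0 ≤ w i := by
    intro i hi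
    have h1 := hle i (mem_union_left _ hi)
    have h2 := hP i hi
    rw [div_le_iff₀ h2] at h1
    simp only [hw, Pi.sub_apply, Pi.smul_apply, smul_eq_mul]
    linarith
  have hwQ : ∀ i ∈ Q, w i ≤ 0 := by
    intro i hi
    have h1 := hle i (mem_union_right _ hi)
    have h2 := hQ i hi
    rw [div_le_iff_of_neg h2] at h1
    simp only [hw, Pi.sub_apply, Pi.smul_apply, smul_eq_mul]
    linarith
  have hwZ : ∀ i ∈ (P ∪ Q)ᶜ, w i = 0 := by
    intro i hi
    simp only [hw, Pi.sub_apply, Pi.smul_apply, smul_eq_mul, hvZ i hi, hZ i hi]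
    ring
  refine ⟨P.filter (fun i => w i ≠ 0), Q.filter (fun i => w i ≠ 0), filter_subset _ _,
    filter_subset _ _, ?_, w, hwL, ?_, ?_, ?_, ?_⟩
  · rcases mem_union.mp hcPQ with h | h
    · have h1 : (P.filter (fun i => w i ≠ 0)).card < P.card := by
        apply card_lt_card
        rw [ssubset_iff_of_subset (filter_subset _ _)]
        exact ⟨c, h, by simp [hwc]⟩
      have h2 := card_filter_le Q (fun i => w i ≠ 0)
      omega
    · have h1 : (Q.filter (fun i => w i ≠ 0)).card < Q.card := by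
        apply card_lt_card
        rw [ssubset_iff_of_subset (filter_subset _ _)]
        exact ⟨c, h, by simp [hwc]⟩
      have h2 := card_filter_le P (fun i => w i ≠ 0)
      omega
  · intro h0
    exact hwb (congrFun h0 b)
  · intro i hi
    rw [mem_filter] at hi
    exact lt_of_le_of_ne (hwP i hi.1) (Ne.symm hi.2)
  · intro i hi
    rw [mem_filter] at hi
    exact lt_of_le_of_ne (hwQ i hi.1) hi.2
  · intro i hi
    rw [mem_compl, mem_union, not_or] at hi
    by_contra hne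
    by_cases h1 : i ∈ P
    · exact hi.1 (mem_filter.mpr ⟨h1, hne⟩)
    · by_cases h2 : i ∈ Q
      · exact hi.2 (mem_filter.mpr ⟨h2, hne⟩)
      · exact hne (hwZ i (by rw [mem_compl, mem_union, not_or]; exact ⟨h1, h2⟩))

/-- Every covector contains a conformal circuit. -/
lemma exists_circuit (hL : Unif L m) (hmc : m ≤ Fintype.card ι) : ∀ (k : ℕ) (P Q : Finset ι),
    P.card + Q.card = k → Disjoint P Q → Rl L P Q (P ∪ Q)ᶜ →
    ∃ P' Q', P' ⊆ P ∧ Q' ⊆ Q ∧ m + (P'.card + Q'.card) = Fintype.card ι + 1 ∧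
      Rl L P' Q' (P' ∪ Q')ᶜ := by
  intro k
  induction k using Nat.strong_induction_on with
  | _ k ih =>
    intro P Q hk hPQ h
    have hzc := h.card_lt hL
    rw [card_compl, card_union_of_disjoint hPQ] at hzc
    by_cases hc : Fintype.card ι + 1 < m + (P.card + Q.card)
    · obtain ⟨P₁, Q₁, h1, h2, h3, h4⟩ := smaller_support hL hmc hPQ h hc
      obtain ⟨P₂, Q₂, h5, h6, h7, h8⟩ := ih (P₁.card + Q₁.card) (by omega) P₁ Q₁ rfl
        (disjoint_of_subset_left h1 (disjoint_of_subset_right h2 hPQ)) h4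
      exact ⟨P₂, Q₂, h5.trans h1, h6.trans h2, h7, h8⟩
    · exact ⟨P, Q, subset_refl _, subset_refl _, by omega, h⟩

/-- Topes are the full sign vectors conforming to a circuit. -/
lemma tope_iff_circuit (hL : Unif L m) (hmc : m ≤ Fintype.card ι) {P : Finset ι} :
    Rl L P Pᶜ ∅ ↔ ∃ P' Q', P' ⊆ P ∧ Q' ⊆ Pᶜ ∧ m + (P'.card + Q'.card) = Fintype.card ι + 1 ∧
      Rl L P' Q' (P' ∪ Q')ᶜ := by
  constructor
  · intro h
    apply exists_circuit hL hmc _ P Pᶜ rfl disjoint_compl_right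
    rwa [union_compl, compl_univ]
  · rintro ⟨P', Q', h1, h2, h3, h4⟩
    apply Rl_pert hL (C := (P' ∪ Q')ᶜ) disjoint_compl_right (disjoint_empty_right _)
      (disjoint_empty_right _) (by rw [union_compl]; exact subset_univ _)
    have e1 : P \ (P' ∪ Q')ᶜ = P' := by
      ext i
      simp only [mem_sdiff, mem_compl, mem_union, not_not]
      constructor
      · rintro ⟨h, h' | h'⟩
        · exact h'
        · have := h2 h'
          rw [mem_compl] at this
          exact absurd h this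
      · intro h; exact ⟨h1 h, Or.inl h⟩
    have e2 : Pᶜ \ (P' ∪ Q')ᶜ = Q' := by
      ext i
      simp only [mem_sdiff, mem_compl, mem_union, not_not]
      constructor
      · rintro ⟨h, h' | h'⟩
        · exact absurd (h1 h') h
        · exact h'
      · intro h
        have := h2 h
        rw [mem_compl] at this
        exact ⟨this, Or.inr h⟩
    rw [e1, e2, empty_union]
    exact h4

/-- The circuits with a given zero set of size `m - 1` are a pair of opposite sign vectors. -/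
lemma circ_unique (hL : Unif L m) (hm : 0 < m) (hmc : m ≤ Fintype.card ι) {Z P₁ : Finset ι}
    (hZ : Z.card = m - 1) (hP₁ : P₁ ⊆ Zᶜ) (h : Rl L P₁ (Zᶜ \ P₁) Z) (f : ℕ → ℝ) :
    ∑ P ∈ Zᶜ.powerset, f P.card * (ind (Rl L P (Zᶜ \ P) Z) : ℝ)
      = f P₁.card + f (Zᶜ \ P₁).card := by
  have h1 := count_full hL (Z := Z) (by omega)
  rw [hZ, show m - (m - 1) = 1 by omega] at h1
  simp only [range_one, sum_singleton, Nat.choose_zero_right, Nat.cast_one, mul_one] at h1
  have h2 : Rl L (Zᶜ \ P₁) (Zᶜ \ (Zᶜ \ P₁)) Z := by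
    rw [Finset.sdiff_sdiff_eq_self hP₁]; exact h.neg
  have hne : P₁ ≠ Zᶜ \ P₁ := by
    intro he
    have hempty : P₁ = ∅ := by
      rw [eq_empty_iff_forall_notMem]
      intro i hi
      have hi' := hi
      rw [he, mem_sdiff] at hi'
      exact hi'.2 hi
    rw [hempty, sdiff_empty] at he
    have : Zᶜ.card = 0 := by rw [← he]; rfl
    rw [card_compl] at this
    omega
  have hsub : ({P₁, Zᶜ \ P₁} : Finset (Finset ι)) ⊆ Zᶜ.powerset := by
    intro P hP
    rw [mem_insert, mem_singleton] at hP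
    rw [mem_powerset]
    rcases hP with rfl | rfl
    · exact hP₁
    · exact sdiff_subset
  have h3 : ∑ P ∈ Zᶜ.powerset \ {P₁, Zᶜ \ P₁}, ind (Rl L P (Zᶜ \ P) Z) = 0 := by
    have := sum_sdiff hsub (f := fun P => ind (Rl L P (Zᶜ \ P) Z))
    rw [sum_pair hne, ind_true h, ind_true h2, h1] at this
    linarith
  have h4 := (sum_eq_zero_iff_of_nonneg (fun P _ => ind_nonneg _)).mp h3
  rw [← sum_sdiff hsub, sum_pair hne, ind_true h, ind_true h2, sum_eq_zero]
  · push_cast; ring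
  · intro P hP
    rw [h4 P hP]; simp

lemma circ_iff (hL : Unif L m) (hm : 0 < m) (hmc : m ≤ Fintype.card ι) {Z P₁ : Finset ι}
    (hZ : Z.card = m - 1) (hP₁ : P₁ ⊆ Zᶜ) (h : Rl L P₁ (Zᶜ \ P₁) Z) {P : Finset ι}
    (hP : P ⊆ Zᶜ) : Rl L P (Zᶜ \ P) Z ↔ (P = P₁ ∨ P = Zᶜ \ P₁) := by
  constructor
  · intro hR
    by_contra hcon
    push Not at hcon
    have h1 := circ_unique hL hm hmc hZ hP₁ h (fun _ => 1)
    have h2 : Rl L (Zᶜ \ P₁) (Zᶜ \ (Zᶜ \ P₁)) Z := by
      rw [Finset.sdiff_sdiff_eq_self hP₁]; exact h.neg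
    have hne : P₁ ≠ Zᶜ \ P₁ := by
      intro he
      have hempty : P₁ = ∅ := by
        rw [eq_empty_iff_forall_notMem]
        intro i hi
        have hi' := hi
        rw [he, mem_sdiff] at hi'
        exact hi'.2 hi
      rw [hempty, sdiff_empty] at he
      have : Zᶜ.card = 0 := by rw [← he]; rfl
      rw [card_compl] at this
      omega
    have hsub : ({P, P₁, Zᶜ \ P₁} : Finset (Finset ι)) ⊆ Zᶜ.powerset := by
      intro P' hP'
      rw [mem_insert, mem_insert, mem_singleton] at hP'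
      rw [mem_powerset]
      rcases hP' with rfl | rfl | rfl
      · exact hP
      · exact hP₁
      · exact sdiff_subset
    have h3 : (3 : ℝ) ≤ ∑ P ∈ Zᶜ.powerset, (fun _ => (1 : ℝ)) P.card * (ind (Rl L P (Zᶜ \ P) Z) : ℝ) := by
      calc (3 : ℝ) = ∑ P' ∈ ({P, P₁, Zᶜ \ P₁} : Finset (Finset ι)),
          (fun _ => (1 : ℝ)) P'.card * (ind (Rl L P' (Zᶜ \ P') Z) : ℝ) := by
            rw [sum_insert (by simp [hcon.1, hcon.2]), sum_pair hne, ind_true hR, ind_true h,
              ind_true h2]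
            norm_num
        _ ≤ _ := by
            apply sum_le_sum_of_subset_of_nonneg hsub
            intro P' _ _
            rw [one_mul]
            exact_mod_cast ind_nonneg _
    rw [h1] at h3
    norm_num at h3
  · rintro (rfl | rfl)
    · exact h
    · rw [Finset.sdiff_sdiff_eq_self hP₁]; exact h.neg

/-- Combinatorial data of a pair of configurations on two sides of a mutation. `P₀, Q₀` is the
circuit of the `ρ` vectors which become dependent, `A = Ap ∪ Am` is the set of the other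
elements. -/
structure MutData (L₁ L₂ : Submodule ℝ (ι → ℝ)) (m : ℕ) (P₀ Q₀ Ap Am : Finset ι) : Prop where
  uni₁ : Unif L₁ m
  uni₂ : Unif L₂ m
  dPQ : Disjoint P₀ Q₀
  dA : Disjoint Ap Am
  dRA : Disjoint (P₀ ∪ Q₀) (Ap ∪ Am)
  cover : (P₀ ∪ Q₀) ∪ (Ap ∪ Am) = univ
  neP : P₀.Nonempty
  cardA : Ap.card + Am.card = m
  mpos : 0 < m
  common : ∀ Z : Finset ι, Z.card = m - 1 → ¬ (P₀ ∪ Q₀ ⊆ Zᶜ) → ∀ P ⊆ Zᶜ,
    (Rl L₁ P (Zᶜ \ P) Z ↔ Rl L₂ P (Zᶜ \ P) Z)
  p₁ : ∀ i ∈ Ap, Rl L₁ P₀ (insert i Q₀) ((Ap ∪ Am).erase i)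
  p₂ : ∀ i ∈ Ap, Rl L₂ (insert i P₀) Q₀ ((Ap ∪ Am).erase i)
  m₁ : ∀ i ∈ Am, Rl L₁ (insert i P₀) Q₀ ((Ap ∪ Am).erase i)
  m₂ : ∀ i ∈ Am, Rl L₂ P₀ (insert i Q₀) ((Ap ∪ Am).erase i)
  n₁ : ¬ Rl L₁ (P₀ ∪ Ap) (P₀ ∪ Ap)ᶜ ∅
  n₂ : ¬ Rl L₂ (P₀ ∪ Am) (P₀ ∪ Am)ᶜ ∅

lemma MutData.symm {L₁ L₂ : Submodule ℝ (ι → ℝ)} {P₀ Q₀ Ap Am : Finset ι}
    (h : MutData L₁ L₂ m P₀ Q₀ Ap Am) : MutData L₂ L₁ m P₀ Q₀ Am Ap where
  uni₁ := h.uni₂
  uni₂ := h.uni₁
  dPQ := h.dPQ
  dA := h.dA.symm
  dRA := by rw [union_comm Am Ap]; exact h.dRA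
  cover := by rw [union_comm Am Ap]; exact h.cover
  neP := h.neP
  cardA := by rw [add_comm]; exact h.cardA
  mpos := h.mpos
  common := fun Z hZ hZ' P hP => (h.common Z hZ hZ' P hP).symm
  p₁ := by rw [union_comm Am Ap]; exact h.m₂
  p₂ := by rw [union_comm Am Ap]; exact h.m₁
  m₁ := by rw [union_comm Am Ap]; exact h.p₂
  m₂ := by rw [union_comm Am Ap]; exact h.p₁
  n₁ := h.n₂
  n₂ := h.n₁

section

variable {L₁ L₂ : Submodule ℝ (ι → ℝ)} {P₀ Q₀ Ap Am : Finset ι}

lemma MutData.card_eq (h : MutData L₁ L₂ m P₀ Q₀ Ap Am) :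
    P₀.card + Q₀.card + m = Fintype.card ι := by
  rw [← card_univ, ← h.cover, card_union_of_disjoint h.dRA, card_union_of_disjoint h.dPQ,
    card_union_of_disjoint h.dA, h.cardA]

/-- Zero set `A.erase i`. -/
lemma MutData.compl_erase (h : MutData L₁ L₂ m P₀ Q₀ Ap Am) (i : ι) :
    ((Ap ∪ Am).erase i)ᶜ = insert i (P₀ ∪ Q₀) := by
  ext j
  have hj : j ∈ (P₀ ∪ Q₀) ∪ (Ap ∪ Am) := by rw [h.cover]; exact mem_univ _
  have h1 : j ∈ P₀ ∪ Q₀ → j ∉ Ap ∪ Am := fun hh => disjoint_left.mp h.dRA hh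
  rw [mem_union] at hj
  rw [mem_compl, mem_erase, mem_insert]
  by_cases hji : j = i
  · simp [hji]
  · simp only [hji, ne_eq, not_false_eq_true, true_and, false_or]
    tauto

lemma MutData.real₂ (h : MutData L₁ L₂ m P₀ Q₀ Ap Am) :
    ∀ T : Finset ι, P₀ ⊆ T → Q₀ ⊆ Tᶜ → T ≠ P₀ ∪ Am → Rl L₂ T Tᶜ ∅ := by
  have hcard := h.card_eq
  have hmc : m ≤ Fintype.card ι := by omega
  intro T hT1 hT2 hT3
  have hex : (∃ j ∈ Ap, j ∈ T) ∨ (∃ j ∈ Am, j ∉ T) := by
    by_contra hcon
    push Not at hcon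
    apply hT3
    ext j
    have hj' : j ∈ (P₀ ∪ Q₀) ∪ (Ap ∪ Am) := by rw [h.cover]; exact mem_univ _
    simp only [mem_union] at hj' ⊢
    constructor
    · intro hjT
      rcases hj' with (h' | h') | (h' | h')
      · exact Or.inl h'
      · have := hT2 h'
        rw [mem_compl] at this
        exact absurd hjT this
      · exact absurd hjT (hcon.1 j h')
      · exact Or.inr h'
    · rintro (h' | h')
      · exact hT1 h'
      · exact hcon.2 j h'
  rw [tope_iff_circuit h.uni₂ hmc]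
  rcases hex with ⟨j, hj, hjT⟩ | ⟨j, hj, hjT⟩
  · have hjR : j ∉ P₀ ∪ Q₀ := fun h' => disjoint_left.mp h.dRA h' (mem_union_left _ hj)
    rw [mem_union, not_or] at hjR
    refine ⟨insert j P₀, Q₀, ?_, hT2, ?_, ?_⟩
    · exact insert_subset hjT hT1
    · rw [card_insert_of_notMem hjR.1]; omega
    · have : (insert j P₀ ∪ Q₀)ᶜ = (Ap ∪ Am).erase j := by
        rw [insert_union, ← h.compl_erase j, compl_compl]
      rw [this]; exact h.p₂ j hj
  · have hjR : j ∉ P₀ ∪ Q₀ := fun h' => disjoint_left.mp h.dRA h' (mem_union_right _ hj)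
    rw [mem_union, not_or] at hjR
    refine ⟨P₀, insert j Q₀, hT1, ?_, ?_, ?_⟩
    · exact insert_subset (mem_compl.mpr hjT) hT2
    · rw [card_insert_of_notMem hjR.2]; omega
    · have : (P₀ ∪ insert j Q₀)ᶜ = (Ap ∪ Am).erase j := by
        rw [union_insert, ← h.compl_erase j, compl_compl]
      rw [this]; exact h.m₂ j hj

/-- one implication between the topes -/
lemma MutData.tope_imp (h : MutData L₁ L₂ m P₀ Q₀ Ap Am) {P : Finset ι}
    (hP : Rl L₁ P Pᶜ ∅) (h1 : P ≠ P₀ ∪ Am) (h2 : P ≠ (P₀ ∪ Am)ᶜ) : Rl L₂ P Pᶜ ∅ := by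
  have hcard := h.card_eq
  have hmc : m ≤ Fintype.card ι := by omega
  obtain ⟨P', Q', hP', hQ', hc, hR⟩ := (tope_iff_circuit h.uni₁ hmc).mp hP
  have hdis : Disjoint P' Q' := disjoint_of_subset_left hP'
    (disjoint_of_subset_right hQ' disjoint_compl_right)
  have hZcard : (P' ∪ Q')ᶜ.card = m - 1 := by
    rw [card_compl, card_union_of_disjoint hdis]; omega
  have hQQ : ((P' ∪ Q')ᶜ)ᶜ \ P' = Q' := by
    rw [compl_compl, union_sdiff_left, sdiff_eq_self_of_disjoint hdis.symm]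
  have hPsub : P' ⊆ ((P' ∪ Q')ᶜ)ᶜ := by rw [compl_compl]; exact subset_union_left
  by_cases hR0 : P₀ ∪ Q₀ ⊆ ((P' ∪ Q')ᶜ)ᶜ
  swap
  · have := (h.common _ hZcard hR0 P' hPsub).mp (by rw [hQQ]; exact hR)
    rw [hQQ] at this
    exact (tope_iff_circuit h.uni₂ hmc).mpr ⟨P', Q', hP', hQ', hc, this⟩
  · -- the support is `R₀ ∪ {i}`
    have hZA : (P' ∪ Q')ᶜ ⊆ Ap ∪ Am := by
      intro j hj
      have hj' : j ∈ (P₀ ∪ Q₀) ∪ (Ap ∪ Am) := by rw [h.cover]; exact mem_univ _
      rcases mem_union.mp hj' with h' | h'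
      · have := hR0 h'
        rw [mem_compl] at this
        exact absurd hj this
      · exact h'
    obtain ⟨i, hi, hiZ⟩ : ∃ i ∈ Ap ∪ Am, (P' ∪ Q')ᶜ = (Ap ∪ Am).erase i := by
      have hcA : (Ap ∪ Am).card = m := by rw [card_union_of_disjoint h.dA, h.cardA]
      have hne : ((Ap ∪ Am) \ (P' ∪ Q')ᶜ).card = 1 := by
        have := h.mpos
        rw [card_sdiff_of_subset hZA, hcA, hZcard]; omega
      obtain ⟨i, hi⟩ := card_eq_one.mp hne
      have hi' : i ∈ (Ap ∪ Am) \ (P' ∪ Q')ᶜ := by rw [hi]; exact mem_singleton_self _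
      refine ⟨i, (mem_sdiff.mp hi').1, ?_⟩
      rw [← sdiff_singleton_eq_erase, ← hi, Finset.sdiff_sdiff_eq_self hZA]
    have hcompl := h.compl_erase i
    have hins : insert i (P₀ ∪ Q₀) = P' ∪ Q' := by
      rw [← hcompl, ← hiZ, compl_compl]
    -- uniqueness of the circuit for L₁
    have hiR : i ∉ P₀ ∪ Q₀ := fun h' => disjoint_left.mp h.dRA h' hi
    rw [mem_union, not_or] at hiR
    have hZ' : ((Ap ∪ Am).erase i).card = m - 1 := by rw [← hiZ]; exact hZcard
    have hRl : Rl L₁ P' (((Ap ∪ Am).erase i)ᶜ \ P') ((Ap ∪ Am).erase i) := by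
      rw [← hiZ, hQQ]; exact hR
    have hPsub' : P' ⊆ ((Ap ∪ Am).erase i)ᶜ := by rw [← hiZ]; exact hPsub
    -- P restricted to R₀ is P₀ or Q₀
    have key : (P₀ ⊆ P ∧ Q₀ ⊆ Pᶜ) ∨ (Q₀ ⊆ P ∧ P₀ ⊆ Pᶜ) := by
      rcases mem_union.mp hi with hip | him
      · have e1 : ((Ap ∪ Am).erase i)ᶜ \ P₀ = insert i Q₀ := by
          rw [hcompl]
          ext j
          simp only [mem_sdiff, mem_insert, mem_union]
          have : j ∈ P₀ → j ∉ Q₀ := fun hh => disjoint_left.mp h.dPQ hh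
          constructor
          · rintro ⟨h1 | h1 | h1, h2⟩
            · exact Or.inl h1
            · exact absurd h1 h2
            · exact Or.inr h1
          · rintro (rfl | h1)
            · exact ⟨Or.inl rfl, hiR.1⟩
            · exact ⟨Or.inr (Or.inr h1), fun h2 => this h2 h1⟩
        have hc1 := (circ_iff h.uni₁ h.mpos hmc hZ' (P₁ := P₀) (by
          rw [hcompl]; exact (subset_union_left).trans (subset_insert _ _)) (by
          rw [e1]; exact h.p₁ i hip) hPsub').mp hRl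
        rcases hc1 with rfl | hc1
        · left
          refine ⟨hP', ?_⟩
          have : Q' = insert i Q₀ := by
            rw [← e1, ← hiZ, hQQ]
          rw [this] at hQ'
          exact (subset_insert _ _).trans hQ'
        · right
          rw [e1] at hc1
          have hQe : Q' = P₀ := by
            rw [← hQQ, hiZ, hcompl, hc1]
            ext j
            simp only [mem_sdiff, mem_insert, mem_union, not_or]
            have : j ∈ P₀ → j ∉ Q₀ := fun hh => disjoint_left.mp h.dPQ hh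
            constructor
            · rintro ⟨h1 | h1 | h1, h2, h3⟩
              · exact absurd h1 h2
              · exact h1
              · exact absurd h1 h3
            · intro h1
              exact ⟨Or.inr (Or.inl h1), fun h2 => hiR.1 (h2 ▸ h1), this h1⟩
          rw [hc1] at hP'
          rw [hQe] at hQ'
          exact ⟨(subset_insert _ _).trans hP', hQ'⟩
      · have e1 : ((Ap ∪ Am).erase i)ᶜ \ (insert i P₀) = Q₀ := by
          rw [hcompl]
          ext j
          simp only [mem_sdiff, mem_insert, mem_union, not_or]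
          have : j ∈ P₀ → j ∉ Q₀ := fun hh => disjoint_left.mp h.dPQ hh
          constructor
          · rintro ⟨h1 | h1 | h1, h2, h3⟩
            · exact absurd h1 h2
            · exact absurd h1 h3
            · exact h1
          · intro h1
            exact ⟨Or.inr (Or.inr h1), fun h2 => hiR.2 (h2 ▸ h1), fun h2 => this h2 h1⟩
        have hc1 := (circ_iff h.uni₁ h.mpos hmc hZ' (P₁ := insert i P₀) (by
          rw [hcompl]; exact insert_subset_insert _ subset_union_left) (by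
          rw [e1]; exact h.m₁ i him) hPsub').mp hRl
        rcases hc1 with hc1 | hc1
        · left
          have : Q' = Q₀ := by
            rw [← e1, ← hiZ, ← hc1, hQQ]
          rw [this] at hQ'
          rw [hc1] at hP'
          exact ⟨(subset_insert _ _).trans hP', hQ'⟩
        · right
          rw [e1] at hc1
          have hQe : Q' = insert i P₀ := by
            rw [← hQQ, hiZ, hcompl, hc1]
            ext j
            simp only [mem_sdiff, mem_insert, mem_union]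
            have : j ∈ P₀ → j ∉ Q₀ := fun hh => disjoint_left.mp h.dPQ hh
            constructor
            · rintro ⟨h1 | h1 | h1, h2⟩
              · exact Or.inl h1
              · exact Or.inr h1
              · exact absurd h1 h2
            · rintro (rfl | h1)
              · exact ⟨Or.inl rfl, hiR.2⟩
              · exact ⟨Or.inr (Or.inl h1), this h1⟩
          rw [hc1] at hP'
          rw [hQe] at hQ'
          exact ⟨hP', (subset_insert _ _).trans hQ'⟩
    rcases key with ⟨k1, k2⟩ | ⟨k1, k2⟩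
    · exact h.real₂ P k1 k2 h1
    · have := h.real₂ Pᶜ k2 (by rw [compl_compl]; exact k1) (by
        intro h'
        apply h2
        rw [← h', compl_compl])
      rw [compl_compl] at this
      exact this.neg

lemma MutData.ap_ne_am (h : MutData L₁ L₂ m P₀ Q₀ Ap Am) : P₀ ∪ Ap ≠ P₀ ∪ Am := by
  intro he
  have h1 : ∀ j ∈ Ap ∪ Am, j ∉ P₀ := fun j hj hj' =>
    disjoint_left.mp h.dRA (mem_union_left _ hj') hj
  have hpos := h.mpos
  have hc := h.cardA
  have hne : (Ap ∪ Am).Nonempty := by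
    rw [← card_pos, card_union_of_disjoint h.dA]; omega
  obtain ⟨j, hj⟩ := hne
  rcases mem_union.mp hj with hj' | hj'
  · have : j ∈ P₀ ∪ Am := by rw [← he]; exact mem_union_right _ hj'
    rcases mem_union.mp this with h2 | h2
    · exact h1 j hj h2
    · exact disjoint_left.mp h.dA hj' h2
  · have : j ∈ P₀ ∪ Ap := by rw [he]; exact mem_union_right _ hj'
    rcases mem_union.mp this with h2 | h2
    · exact h1 j hj h2
    · exact disjoint_left.mp h.dA h2 hj'

lemma not_eq_compl_of_inter {S T : Finset ι} (hP : P₀.Nonempty) (h1 : P₀ ⊆ S) (h2 : P₀ ⊆ T) :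
    S ≠ Tᶜ := by
  obtain ⟨o, ho⟩ := hP
  intro h
  have := h1 ho
  rw [h, mem_compl] at this
  exact this (h2 ho)

lemma MutData.Q_sub_compl (h : MutData L₁ L₂ m P₀ Q₀ Ap Am) : Q₀ ⊆ (P₀ ∪ Ap)ᶜ := by
  intro j hj
  rw [mem_compl, mem_union, not_or]
  exact ⟨fun hh => disjoint_left.mp h.dPQ hh hj,
    fun hh => disjoint_left.mp h.dRA (mem_union_right _ hj) (mem_union_left _ hh)⟩

lemma MutData.pointwise (h : MutData L₁ L₂ m P₀ Q₀ Ap Am) (P : Finset ι) :
    ind (Rl L₁ P Pᶜ ∅) + (if P = P₀ ∪ Ap then 1 else 0) + (if P = (P₀ ∪ Ap)ᶜ then 1 else 0)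
      = ind (Rl L₂ P Pᶜ ∅) + (if P = P₀ ∪ Am then 1 else 0)
        + (if P = (P₀ ∪ Am)ᶜ then 1 else 0) := by
  have hs := h.symm
  have n1 := h.n₁
  have n2 := h.n₂
  have r2 : Rl L₂ (P₀ ∪ Ap) (P₀ ∪ Ap)ᶜ ∅ :=
    h.real₂ _ subset_union_left h.Q_sub_compl h.ap_ne_am
  have r1 : Rl L₁ (P₀ ∪ Am) (P₀ ∪ Am)ᶜ ∅ :=
    hs.real₂ _ subset_union_left hs.Q_sub_compl hs.ap_ne_am
  have d1 : P₀ ∪ Ap ≠ P₀ ∪ Am := h.ap_ne_am
  have d2 : P₀ ∪ Ap ≠ (P₀ ∪ Ap)ᶜ := not_eq_compl_of_inter h.neP subset_union_left subset_union_left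
  have d3 : P₀ ∪ Ap ≠ (P₀ ∪ Am)ᶜ := not_eq_compl_of_inter h.neP subset_union_left subset_union_left
  have d4 : P₀ ∪ Am ≠ (P₀ ∪ Ap)ᶜ := not_eq_compl_of_inter h.neP subset_union_left subset_union_left
  have d5 : P₀ ∪ Am ≠ (P₀ ∪ Am)ᶜ := not_eq_compl_of_inter h.neP subset_union_left subset_union_left
  have d6 : (P₀ ∪ Ap)ᶜ ≠ (P₀ ∪ Am)ᶜ := fun hh => d1 (compl_injective hh)
  by_cases c1 : P = P₀ ∪ Ap
  · rw [c1, ind_false n1, ind_true r2, if_pos rfl, if_neg d2, if_neg d1, if_neg d3]; norm_num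
  by_cases c2 : P = (P₀ ∪ Ap)ᶜ
  · rw [c2, compl_compl, ind_false (fun hh => n1 hh.neg), ind_true r2.neg, if_neg (Ne.symm d2),
      if_pos rfl, if_neg (Ne.symm d4), if_neg d6]; norm_num
  by_cases c3 : P = P₀ ∪ Am
  · rw [c3, ind_true r1, ind_false n2, if_neg (Ne.symm d1), if_neg d4, if_pos rfl, if_neg d5]
    norm_num
  by_cases c4 : P = (P₀ ∪ Am)ᶜ
  · rw [c4, compl_compl, ind_true r1.neg, ind_false (fun hh => n2 hh.neg), if_neg (Ne.symm d3),
      if_neg (Ne.symm d6), if_neg (Ne.symm d5), if_pos rfl]; norm_num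
  rw [if_neg c1, if_neg c2, if_neg c3, if_neg c4]
  by_cases hR : Rl L₁ P Pᶜ ∅
  · rw [ind_true hR, ind_true (h.tope_imp hR c3 c4)]
  · rw [ind_false hR, ind_false (fun hR' => hR (hs.tope_imp hR' c1 c2))]

lemma sum_ite_card (f : ℕ → ℝ) (T : Finset ι) :
    ∑ P : Finset ι, f P.card * (if P = T then 1 else 0) = f T.card := by
  simp

theorem MutData.topeSum_diff (h : MutData L₁ L₂ m P₀ Q₀ Ap Am) (f : ℕ → ℝ) :
    topeSum L₁ f + f (P₀.card + Ap.card) + f (Fintype.card ι - (P₀.card + Ap.card))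
      = topeSum L₂ f + f (P₀.card + Am.card) + f (Fintype.card ι - (P₀.card + Am.card)) := by
  have hc1 : (P₀ ∪ Ap).card = P₀.card + Ap.card := card_union_of_disjoint
    (disjoint_of_subset_left subset_union_left (disjoint_of_subset_right subset_union_left h.dRA))
  have hc2 : (P₀ ∪ Am).card = P₀.card + Am.card := card_union_of_disjoint
    (disjoint_of_subset_left subset_union_left (disjoint_of_subset_right subset_union_right h.dRA))
  have e1 := sum_ite_card f (P₀ ∪ Ap)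
  have e2 := sum_ite_card f (P₀ ∪ Ap)ᶜ
  have e3 := sum_ite_card f (P₀ ∪ Am)
  have e4 := sum_ite_card f (P₀ ∪ Am)ᶜ
  rw [card_compl, hc1] at e2
  rw [card_compl, hc2] at e4
  rw [hc1] at e1
  rw [hc2] at e3
  rw [← e1, ← e2, ← e3, ← e4]
  unfold topeSum
  rw [← sum_add_distrib, ← sum_add_distrib, ← sum_add_distrib, ← sum_add_distrib]
  apply sum_congr rfl
  intro P _
  have := h.pointwise P
  have h' : ((ind (Rl L₁ P Pᶜ ∅) + (if P = P₀ ∪ Ap then 1 else 0)
      + (if P = (P₀ ∪ Ap)ᶜ then 1 else 0) : ℤ) : ℝ)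
      = ((ind (Rl L₂ P Pᶜ ∅) + (if P = P₀ ∪ Am then 1 else 0)
        + (if P = (P₀ ∪ Am)ᶜ then 1 else 0) : ℤ) : ℝ) := by rw [this]
  push_cast at h'
  rw [← mul_add, ← mul_add, ← mul_add, ← mul_add, h']

/-- circuits of `L₁` with zero set `A.erase i`, `i ∈ Ap`. -/
lemma MutData.circ_p₁ (h : MutData L₁ L₂ m P₀ Q₀ Ap Am) (f : ℕ → ℝ) {i : ι} (hi : i ∈ Ap) :
    ∑ P ∈ ((Ap ∪ Am).erase i)ᶜ.powerset,
      f P.card * (ind (Rl L₁ P (((Ap ∪ Am).erase i)ᶜ \ P) ((Ap ∪ Am).erase i)) : ℝ)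
      = f P₀.card + f (Q₀.card + 1) := by
  have hiA : i ∈ Ap ∪ Am := mem_union_left _ hi
  have hiR : i ∉ P₀ ∪ Q₀ := fun h' => disjoint_left.mp h.dRA h' hiA
  rw [mem_union, not_or] at hiR
  have hcompl := h.compl_erase i
  have e1 : ((Ap ∪ Am).erase i)ᶜ \ P₀ = insert i Q₀ := by
    rw [hcompl]
    ext j
    simp only [mem_sdiff, mem_insert, mem_union]
    have : j ∈ P₀ → j ∉ Q₀ := fun hh => disjoint_left.mp h.dPQ hh
    constructor
    · rintro ⟨h1 | h1 | h1, h2⟩
      · exact Or.inl h1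
      · exact absurd h1 h2
      · exact Or.inr h1
    · rintro (rfl | h1)
      · exact ⟨Or.inl rfl, hiR.1⟩
      · exact ⟨Or.inr (Or.inr h1), fun h2 => this h2 h1⟩
  have hcard := h.card_eq
  rw [circ_unique h.uni₁ h.mpos (by omega) (P₁ := P₀)]
  · rw [e1, card_insert_of_notMem hiR.2]
  · rw [card_erase_of_mem hiA, card_union_of_disjoint h.dA, h.cardA]
  · rw [hcompl]; exact (subset_union_left).trans (subset_insert _ _)
  · rw [e1]; exact h.p₁ i hi

lemma MutData.circ_m₁ (h : MutData L₁ L₂ m P₀ Q₀ Ap Am) (f : ℕ → ℝ) {i : ι} (hi : i ∈ Am) :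
    ∑ P ∈ ((Ap ∪ Am).erase i)ᶜ.powerset,
      f P.card * (ind (Rl L₁ P (((Ap ∪ Am).erase i)ᶜ \ P) ((Ap ∪ Am).erase i)) : ℝ)
      = f (P₀.card + 1) + f Q₀.card := by
  have hiA : i ∈ Ap ∪ Am := mem_union_right _ hi
  have hiR : i ∉ P₀ ∪ Q₀ := fun h' => disjoint_left.mp h.dRA h' hiA
  rw [mem_union, not_or] at hiR
  have hcompl := h.compl_erase i
  have e1 : ((Ap ∪ Am).erase i)ᶜ \ (insert i P₀) = Q₀ := by
    rw [hcompl]
    ext j
    simp only [mem_sdiff, mem_insert, mem_union, not_or]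
    have : j ∈ P₀ → j ∉ Q₀ := fun hh => disjoint_left.mp h.dPQ hh
    constructor
    · rintro ⟨h1 | h1 | h1, h2, h3⟩
      · exact absurd h1 h2
      · exact absurd h1 h3
      · exact h1
    · intro h1
      exact ⟨Or.inr (Or.inr h1), fun h2 => hiR.2 (h2 ▸ h1), fun h2 => this h2 h1⟩
  have hcard := h.card_eq
  rw [circ_unique h.uni₁ h.mpos (by omega) (P₁ := insert i P₀)]
  · rw [e1, card_insert_of_notMem hiR.1]
  · rw [card_erase_of_mem hiA, card_union_of_disjoint h.dA, h.cardA]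
  · rw [hcompl]; exact insert_subset_insert _ subset_union_left
  · rw [e1]; exact h.m₁ i hi

theorem MutData.circSum_diff (h : MutData L₁ L₂ m P₀ Q₀ Ap Am) (f : ℕ → ℝ) :
    circSum L₂ (m - 1) f - circSum L₁ (m - 1) f
      = ((Ap.card : ℝ) - Am.card) *
        (f (P₀.card + 1) + f Q₀.card - f P₀.card - f (Q₀.card + 1)) := by
  have hcard := h.card_eq
  unfold circSum
  rw [← sum_sub_distrib]
  set A := Ap ∪ Am with hA
  have hcA : A.card = m := by rw [card_union_of_disjoint h.dA, h.cardA]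
  have hinj : ∀ i ∈ A, ∀ j ∈ A, A.erase i = A.erase j → i = j := by
    intro i hi j hj hij
    by_contra hne
    have : i ∈ A.erase j := mem_erase.mpr ⟨hne, hi⟩
    rw [← hij] at this
    exact absurd this (notMem_erase _ _)
  have hsub : A.image (fun i => A.erase i) ⊆ (univ : Finset ι).powersetCard (m - 1) := by
    intro Z hZ
    rw [mem_image] at hZ
    obtain ⟨i, hi, rfl⟩ := hZ
    rw [mem_powersetCard]
    exact ⟨subset_univ _, by rw [card_erase_of_mem hi, hcA]⟩
  rw [← sum_subset hsub]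
  · rw [sum_image (fun i hi j hj hij => hinj i hi j hj hij), hA, sum_union h.dA]
    have hs := h.symm
    have e1 : ∀ i ∈ Ap, ((∑ P ∈ ((Ap ∪ Am).erase i)ᶜ.powerset,
        f P.card * (ind (Rl L₂ P (((Ap ∪ Am).erase i)ᶜ \ P) ((Ap ∪ Am).erase i)) : ℝ))
        - ∑ P ∈ ((Ap ∪ Am).erase i)ᶜ.powerset,
        f P.card * (ind (Rl L₁ P (((Ap ∪ Am).erase i)ᶜ \ P) ((Ap ∪ Am).erase i)) : ℝ))
        = f (P₀.card + 1) + f Q₀.card - f P₀.card - f (Q₀.card + 1) := by
      intro i hi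
      rw [h.circ_p₁ f hi]
      have := hs.circ_m₁ f hi
      rw [union_comm Am Ap] at this
      rw [this]
      ring
    have e2 : ∀ i ∈ Am, ((∑ P ∈ ((Ap ∪ Am).erase i)ᶜ.powerset,
        f P.card * (ind (Rl L₂ P (((Ap ∪ Am).erase i)ᶜ \ P) ((Ap ∪ Am).erase i)) : ℝ))
        - ∑ P ∈ ((Ap ∪ Am).erase i)ᶜ.powerset,
        f P.card * (ind (Rl L₁ P (((Ap ∪ Am).erase i)ᶜ \ P) ((Ap ∪ Am).erase i)) : ℝ))
        = - (f (P₀.card + 1) + f Q₀.card - f P₀.card - f (Q₀.card + 1)) := by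
      intro i hi
      rw [h.circ_m₁ f hi]
      have := hs.circ_p₁ f hi
      rw [union_comm Am Ap] at this
      rw [this]
      ring
    rw [sum_congr rfl e1, sum_congr rfl e2, sum_const, sum_const, nsmul_eq_mul, nsmul_eq_mul]
    ring
  · intro Z hZ hZ'
    rw [mem_powersetCard] at hZ
    have hnot : ¬ (P₀ ∪ Q₀ ⊆ Zᶜ) := by
      intro hsub'
      apply hZ'
      have hZA : Z ⊆ A := by
        intro j hj
        have hj' : j ∈ (P₀ ∪ Q₀) ∪ (Ap ∪ Am) := by rw [h.cover]; exact mem_univ _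
        rcases mem_union.mp hj' with h' | h'
        · have := hsub' h'
          rw [mem_compl] at this
          exact absurd hj this
        · exact h'
      have hne : (A \ Z).card = 1 := by
        have := h.mpos
        rw [card_sdiff_of_subset hZA, hcA, hZ.2]; omega
      obtain ⟨i, hi⟩ := card_eq_one.mp hne
      have hi' : i ∈ A \ Z := by rw [hi]; exact mem_singleton_self _
      rw [mem_image]
      refine ⟨i, (mem_sdiff.mp hi').1, ?_⟩
      rw [← sdiff_singleton_eq_erase, ← hi, Finset.sdiff_sdiff_eq_self hZA]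
    rw [sub_eq_zero]
    apply sum_congr rfl
    intro P hP
    rw [mem_powerset] at hP
    have := h.common Z hZ.2 hnot P hP
    simp only [this]

end

end Pool.Agent.Work.MP_620441_co
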