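import Mathlib
import Pool.Agent.Work.MP_620441_co.Mut
import Pool.Agent.Work.MP_620441_co.VecConf

set_option autoImplicit false
set_option linter.unusedSectionVars false

namespace Pool.Agent.Work.MP_620441_co

open Finset

variable {ι : Type*} [Fintype ι] [DecidableEq ι]
variable {W : Type*} [NormedAddCommGroup W] [NormedSpace ℝ W] [FiniteDimensional ℝ W]

/-- Moving the vector with index `o` in direction `ν`. -/
def mv (v : ι → W) (ν : W) (o : ι) (t : ℝ) (i : ι) : W := v i + (if i = o then t • ν else 0)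

lemma mv_ne {v : ι → W} {ν : W} {o : ι} {t : ℝ} {i : ι} (h : i ≠ o) : mv v ν o t i = v i := by
  simp [mv, h]

lemma sum_mv (v : ι → W) (ν : W) (o : ι) (t : ℝ) (l : ι → ℝ) :
    ∑ i, l i • mv v ν o t i = ∑ i, l i • v i + (l o * t) • ν := by
  unfold mv
  simp_rw [smul_add, sum_add_distrib]
  congr 1
  rw [sum_eq_single o]
  · simp [smul_smul]
  · intro b _ hb; simp [hb]
  · intro h; exact absurd (mem_univ _) h

/-- corrected dependency -/
lemma dep_mv {v : ι → W} {ν : W} {o : ι} {t : ℝ} {l c : ι → ℝ} (hl : l ∈ dep v)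
    (hc : ∑ i, c i • v i = ν) (hco : c o = 0) :
    (fun i => l i + t * (- (l o) * c i)) ∈ dep (mv v ν o t) := by
  rw [mem_dep] at hl ⊢
  rw [sum_mv]
  have : ∑ i, (l i + t * (- (l o) * c i)) • v i = - (l o * t) • ν := by
    simp_rw [add_smul, sum_add_distrib, hl, zero_add, ← hc, smul_sum, smul_smul]
    apply sum_congr rfl
    intro i _
    congr 1; ring
  rw [this, hco, mul_zero, mul_zero, add_zero, neg_smul, neg_add_cancel]

lemma eventually_gp {v : ι → W} {ν : W} {o : ι} {ρ : ℕ} {R₀ : Finset ι}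
    (hgp : ∀ R : Finset ι, R.card = ρ → R ≠ R₀ → LinearIndependent ℝ (fun i : R => v i)) :
    ∀ᶠ t in nhds (0 : ℝ), ∀ R : Finset ι, R.card = ρ → R ≠ R₀ →
      LinearIndependent ℝ (fun i : R => mv v ν o t i) := by
  rw [Filter.eventually_all]
  intro R
  by_cases h1 : R.card = ρ
  swap
  · exact Filter.Eventually.of_forall (fun t h => absurd h h1)
  by_cases h2 : R = R₀
  · exact Filter.Eventually.of_forall (fun t _ h => absurd h2 h)
  have h3 := (hgp R h1 h2).eventually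
  have hcont : Continuous (fun t : ℝ => (fun i : R => mv v ν o t i)) := by
    unfold mv
    apply continuous_pi
    intro i
    by_cases h : (i : ι) = o
    · simp only [h, if_true]; fun_prop
    · simp only [h, if_false]; fun_prop
  have h4 : Filter.Tendsto (fun t : ℝ => (fun i : R => mv v ν o t i)) (nhds 0)
      (nhds (fun i : R => v i)) := by
    have := hcont.tendsto 0
    have e : (fun i : R => mv v ν o 0 i) = (fun i : R => v i) := by
      funext i; simp [mv]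
    rwa [e] at this
  filter_upwards [h4.eventually h3] with t ht _ _
  exact ht

lemma li_of_dep {v : ι → W} {R : Finset ι}
    (h : ∀ l ∈ dep v, (∀ i ∉ R, l i = 0) → l = 0) : LinearIndependent ℝ (fun i : R => v i) := by
  rw [Fintype.linearIndependent_iff]
  intro g hg i
  have := h (fun i => if hi : i ∈ R then g ⟨i, hi⟩ else 0) (by
    rw [mem_dep]
    have : ∑ i, (if hi : i ∈ R then g ⟨i, hi⟩ else 0) • v i
        = ∑ i ∈ R, (if hi : i ∈ R then g ⟨i, hi⟩ else 0) • v i := by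
      symm
      apply sum_subset (subset_univ _)
      intro i _ hi
      simp [hi]
    rw [this, ← sum_coe_sort, ← hg]
    apply sum_congr rfl
    intro i _
    simp) (by
    intro i hi; simp [hi])
  have h2 := congrFun this i
  simpa using h2

/-- a nontrivial dependency supported on a `(ρ+1)`-set -/
lemma exists_dep {v : ι → W} {ρ : ℕ} (hρ : Module.finrank ℝ W = ρ) {R : Finset ι}
    (hR : R.card = ρ + 1) : ∃ l ∈ dep v, l ≠ 0 ∧ ∀ i ∉ R, l i = 0 := by
  by_contra hcon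
  push Not at hcon
  have hli : LinearIndependent ℝ (fun i : R => v i) := by
    apply li_of_dep
    intro l hl h0
    by_contra hne
    obtain ⟨i, hi, hi'⟩ := hcon l hl hne
    exact hi' (h0 i hi)
  have := hli.fintype_card_le_finrank
  simp [hR, hρ] at this

/-- Data of a degenerate configuration. -/
structure DegData (v : ι → W) (ν : W) (o : ι) (φ : W →ₗ[ℝ] ℝ) (l₀ : ι → ℝ) (ρ m : ℕ)
    (P₀ Q₀ Ap Am : Finset ι) : Prop where
  hρ : Module.finrank ℝ W = ρ
  hcard : m + ρ = Fintype.card ι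
  mpos : 0 < m
  dPQ : Disjoint P₀ Q₀
  dA : Disjoint Ap Am
  dRA : Disjoint (P₀ ∪ Q₀) (Ap ∪ Am)
  cover : (P₀ ∪ Q₀) ∪ (Ap ∪ Am) = univ
  cardR : (P₀ ∪ Q₀).card = ρ
  ho : o ∈ P₀
  hl₀ : l₀ ∈ dep v
  lP : ∀ i ∈ P₀, 0 < l₀ i
  lQ : ∀ i ∈ Q₀, l₀ i < 0
  lA : ∀ i ∈ Ap ∪ Am, l₀ i = 0
  gp : ∀ R : Finset ι, R.card = ρ → R ≠ P₀ ∪ Q₀ → LinearIndependent ℝ (fun i : R => v i)
  hφ0 : ∀ i ∈ P₀ ∪ Q₀, φ (v i) = 0
  hφp : ∀ i ∈ Ap, 0 < φ (v i)
  hφm : ∀ i ∈ Am, φ (v i) < 0
  hφν : φ ν = 1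

section

variable {v : ι → W} {ν : W} {o : ι} {φ : W →ₗ[ℝ] ℝ} {l₀ : ι → ℝ} {ρ m : ℕ}
  {P₀ Q₀ Ap Am : Finset ι}

lemma DegData.phi_dep (h : DegData v ν o φ l₀ ρ m P₀ Q₀ Ap Am) {t : ℝ} {l : ι → ℝ}
    (hl : l ∈ dep (mv v ν o t)) : ∑ i ∈ Ap ∪ Am, l i * φ (v i) + l o * t = 0 := by
  rw [mem_dep, sum_mv] at hl
  have h1 := congrArg φ hl
  rw [map_add, map_sum, map_smul, h.hφν, map_zero] at h1
  simp only [map_smul, smul_eq_mul, mul_one] at h1
  rw [← h1]
  congr 1
  apply sum_subset (subset_univ _)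
  intro i _ hi
  have : i ∈ (P₀ ∪ Q₀) ∪ (Ap ∪ Am) := by rw [h.cover]; exact mem_univ _
  rcases mem_union.mp this with h' | h'
  · rw [h.hφ0 i h', mul_zero]
  · exact absurd h' hi

lemma DegData.gpv (h : DegData v ν o φ l₀ ρ m P₀ Q₀ Ap Am) {t : ℝ} (ht : t ≠ 0)
    (hgp : ∀ R : Finset ι, R.card = ρ → R ≠ P₀ ∪ Q₀ →
      LinearIndependent ℝ (fun i : R => mv v ν o t i)) : GPv (mv v ν o t) ρ := by
  intro R hR
  by_cases hR0 : R = P₀ ∪ Q₀
  swap
  · exact hgp R hR hR0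
  subst hR0
  apply li_of_dep
  intro l hl h0
  have h1 := h.phi_dep hl
  rw [sum_eq_zero, zero_add] at h1
  swap
  · intro i hi
    rw [h0 i (fun h' => disjoint_left.mp h.dRA h' hi), zero_mul]
  have hlo : l o = 0 := by
    rcases mul_eq_zero.mp h1 with h' | h'
    · exact h'
    · exact absurd h' ht
  -- pick another element
  have hne : (Ap ∪ Am).Nonempty := by
    rw [nonempty_iff_ne_empty]
    intro he
    have hc := h.cover
    rw [he, union_empty] at hc
    have h2 := h.cardR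
    rw [hc, card_univ] at h2
    have := h.hcard
    have := h.mpos
    omega
  obtain ⟨a, ha⟩ := hne
  have haR : a ∉ P₀ ∪ Q₀ := fun h' => disjoint_left.mp h.dRA h' ha
  have hoR : o ∈ P₀ ∪ Q₀ := mem_union_left _ h.ho
  set R' := insert a ((P₀ ∪ Q₀).erase o) with hR'
  have hc' : R'.card = ρ := by
    rw [hR', card_insert_of_notMem (fun h' => haR (mem_of_mem_erase h')), card_erase_of_mem hoR,
      h.cardR]
    have : 0 < (P₀ ∪ Q₀).card := card_pos.mpr ⟨o, hoR⟩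
    rw [h.cardR] at this
    omega
  have hne' : R' ≠ P₀ ∪ Q₀ := by
    intro he
    exact haR (he ▸ mem_insert_self _ _)
  apply sum_eq_zero_of_support (hgp R' hc' hne') hl
  intro i hi
  by_cases hio : i = o
  · rw [hio, hlo]
  · apply h0
    intro h'
    exact hi (mem_insert_of_mem (mem_erase.mpr ⟨hio, h'⟩))

/-- For a `ρ`-subset not containing `o`, coordinates of `ν`. -/
lemma DegData.exists_c (h : DegData v ν o φ l₀ ρ m P₀ Q₀ Ap Am) {R : Finset ι} (hR : R.card = ρ + 1)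
    (hoR : o ∈ R) : ∃ c : ι → ℝ, c o = 0 ∧ (∀ i ∉ R, c i = 0) ∧ ∑ i, c i • v i = ν := by
  have h1 : (R.erase o).card = ρ := by rw [card_erase_of_mem hoR, hR]; rfl
  have h2 : R.erase o ≠ P₀ ∪ Q₀ := by
    intro he
    have : o ∈ R.erase o := by rw [he]; exact mem_union_left _ h.ho
    exact absurd this (notMem_erase _ _)
  obtain ⟨c, hc1, hc2⟩ := exists_dep_of_span (span_of_li (h.gp _ h1 h2) (by rw [h1, h.hρ])) ν
  refine ⟨c, hc1 o (notMem_erase _ _), ?_, hc2⟩
  intro i hi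
  exact hc1 i (fun h' => hi (mem_of_mem_erase h'))

lemma DegData.common (h : DegData v ν o φ l₀ ρ m P₀ Q₀ Ap Am) (Z : Finset ι) (hZ : Z.card = m - 1)
    (hR : ¬ (P₀ ∪ Q₀ ⊆ Zᶜ)) :
    ∃ P₁ ⊆ Zᶜ, ∀ᶠ t in nhds (0 : ℝ), Rl (dep (mv v ν o t)) P₁ (Zᶜ \ P₁) Z := by
  have hm := h.mpos
  have hc := h.hcard
  have hZc : Zᶜ.card = ρ + 1 := by rw [card_compl]; omega
  obtain ⟨l, hl, hl0, hlZ⟩ := exists_dep (v := v) h.hρ hZc
  have hnz : ∀ i ∈ Zᶜ, l i ≠ 0 := by
    intro i hi hli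
    apply hl0
    have h1 : (Zᶜ.erase i).card = ρ := by rw [card_erase_of_mem hi, hZc]; rfl
    have h2 : Zᶜ.erase i ≠ P₀ ∪ Q₀ := by
      intro he
      apply hR
      rw [← he]; exact erase_subset _ _
    apply sum_eq_zero_of_support (h.gp _ h1 h2) hl
    intro j hj
    by_cases hji : j = i
    · rw [hji, hli]
    · apply hlZ
      intro h'
      exact hj (mem_erase.mpr ⟨hji, h'⟩)
  refine ⟨Zᶜ.filter (fun i => 0 < l i), filter_subset _ _, ?_⟩
  have hneg : ∀ i ∈ Zᶜ \ Zᶜ.filter (fun i => 0 < l i), l i < 0 := by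
    intro i hi
    rw [mem_sdiff, mem_filter, not_and] at hi
    exact lt_of_le_of_ne (not_lt.mp (hi.2 hi.1)) (hnz i hi.1)
  have hpos : ∀ i ∈ Zᶜ.filter (fun i => 0 < l i), 0 < l i := by
    intro i hi
    exact (mem_filter.mp hi).2
  have hne : (Zᶜ.filter (fun i => 0 < l i) ∪ (Zᶜ \ Zᶜ.filter (fun i => 0 < l i))).Nonempty := by
    rw [union_sdiff_of_subset (filter_subset _ _), ← card_pos, hZc]; omega
  by_cases hoZ : o ∈ Zᶜ
  · obtain ⟨c, hco, hcZ, hcν⟩ := h.exists_c hZc hoZ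
    obtain ⟨ε, hε, hsm⟩ := exists_small _ _ l (fun i => - (l o) * c i) hpos hneg
    have hev : ∀ᶠ t in nhds (0 : ℝ), |t| ≤ ε := by
      have : ∀ᶠ t in nhds (0 : ℝ), |t| < ε := by
        have := (continuous_abs (G := ℝ)).tendsto 0
        rw [abs_zero] at this
        exact this.eventually (gt_mem_nhds hε)
      filter_upwards [this] with t ht using ht.le
    filter_upwards [hev] with t ht
    obtain ⟨h1, h2⟩ := hsm t ht
    refine ⟨fun i => l i + t * (- (l o) * c i), dep_mv hl hcν hco, ne_zero_of_pos hne h1 h2, h1, h2, ?_⟩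
    intro i hi
    have hi' : i ∉ Zᶜ := by simp [hi]
    simp only
    rw [hlZ i hi', hcZ i hi']; ring
  · have hlo : l o = 0 := hlZ o hoZ
    apply Filter.Eventually.of_forall
    intro t
    refine ⟨l, ?_, ne_zero_of_pos hne hpos hneg, hpos, hneg, ?_⟩
    · rw [mem_dep, sum_mv, hlo, zero_mul, zero_smul, add_zero]
      exact mem_dep.mp hl
    · intro i hi
      exact hlZ i (by simp [hi])

lemma DegData.special (h : DegData v ν o φ l₀ ρ m P₀ Q₀ Ap Am) {a : ι} (ha : a ∈ Ap ∪ Am) :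
    ∀ᶠ t in nhds (0 : ℝ), (t * φ (v a) > 0 →
        Rl (dep (mv v ν o t)) P₀ (insert a Q₀) ((Ap ∪ Am).erase a)) ∧
      (t * φ (v a) < 0 → Rl (dep (mv v ν o t)) (insert a P₀) Q₀ ((Ap ∪ Am).erase a)) := by
  have haR : a ∉ P₀ ∪ Q₀ := fun h' => disjoint_left.mp h.dRA h' ha
  have hoR : o ∈ P₀ ∪ Q₀ := mem_union_left _ h.ho
  have hao : o ≠ a := fun h' => haR (h' ▸ hoR)
  obtain ⟨c, hco, hcZ, hcν⟩ := h.exists_c (R := insert a (P₀ ∪ Q₀)) (by
    rw [card_insert_of_notMem haR, h.cardR]) (mem_insert_of_mem hoR)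
  have hca : c a * φ (v a) = 1 := by
    have h1 := congrArg φ hcν
    rw [map_sum, h.hφν] at h1
    simp only [map_smul, smul_eq_mul] at h1
    rw [← h1]
    symm
    apply sum_eq_single a
    · intro b _ hb
      by_cases hbR : b ∈ P₀ ∪ Q₀
      · rw [h.hφ0 b hbR, mul_zero]
      · rw [hcZ b (by rw [mem_insert, not_or]; exact ⟨hb, hbR⟩), zero_mul]
    · intro h'; exact absurd (mem_univ _) h'
  obtain ⟨ε, hε, hsm⟩ := exists_small _ _ l₀ (fun i => - (l₀ o) * c i) h.lP h.lQ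
  have hev : ∀ᶠ t in nhds (0 : ℝ), |t| ≤ ε := by
    have : ∀ᶠ t in nhds (0 : ℝ), |t| < ε := by
      have := (continuous_abs (G := ℝ)).tendsto 0
      rw [abs_zero] at this
      exact this.eventually (gt_mem_nhds hε)
    filter_upwards [this] with t ht using ht.le
  filter_upwards [hev] with t ht
  obtain ⟨h1, h2⟩ := hsm t ht
  have hmem := dep_mv (t := t) h.hl₀ hcν hco
  have hne : (fun i => l₀ i + t * (- (l₀ o) * c i)) ≠ 0 := by
    intro h0
    have := h1 o h.ho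
    have h3 := congrFun h0 o
    simp only [Pi.zero_apply] at h3
    linarith
  have hz : ∀ i ∈ (Ap ∪ Am).erase a, l₀ i + t * (- (l₀ o) * c i) = 0 := by
    intro i hi
    rw [mem_erase] at hi
    have hiR : i ∉ P₀ ∪ Q₀ := fun h' => disjoint_left.mp h.dRA h' hi.2
    rw [h.lA i hi.2, hcZ i (by rw [mem_insert, not_or]; exact ⟨hi.1, hiR⟩)]; ring
  have hlo := h.lP o h.ho
  have hφa : φ (v a) ≠ 0 := by
    intro h'; rw [h', mul_zero] at hca; exact zero_ne_one hca
  have hva : l₀ a + t * (- (l₀ o) * c a) = - (l₀ o) * (t * φ (v a)) / (φ (v a)) ^ 2 := by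
    have : c a = 1 / φ (v a) := by field_simp; exact hca
    rw [h.lA a ha, this]
    field_simp
    ring
  have hsq : 0 < (φ (v a)) ^ 2 := by positivity
  constructor
  · intro hs
    refine ⟨_, hmem, hne, h1, ?_, hz⟩
    intro i hi
    rcases mem_insert.mp hi with rfl | hi
    · rw [hva]
      apply div_neg_of_neg_of_pos _ hsq
      nlinarith
    · exact h2 i hi
  · intro hs
    refine ⟨_, hmem, hne, ?_, h2, hz⟩
    intro i hi
    rcases mem_insert.mp hi with rfl | hi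
    · rw [hva]
      apply div_pos _ hsq
      nlinarith
    · exact h1 i hi

lemma DegData.nonreal_pos (h : DegData v ν o φ l₀ ρ m P₀ Q₀ Ap Am) {t : ℝ} (ht : 0 < t) :
    ¬ Rl (dep (mv v ν o t)) (P₀ ∪ Ap) (P₀ ∪ Ap)ᶜ ∅ := by
  rintro ⟨l, hl, hl0, hP, hQ, -⟩
  have h1 := h.phi_dep hl
  have h2 : 0 ≤ ∑ i ∈ Ap ∪ Am, l i * φ (v i) := by
    apply sum_nonneg
    intro i hi
    rcases mem_union.mp hi with h' | h'
    · exact (mul_pos (hP i (mem_union_right _ h')) (h.hφp i h')).le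
    · have : i ∈ (P₀ ∪ Ap)ᶜ := by
        rw [mem_compl, mem_union, not_or]
        exact ⟨fun hh => disjoint_left.mp h.dRA (mem_union_left _ hh) hi,
          fun hh => disjoint_left.mp h.dA hh h'⟩
      exact (mul_pos_of_neg_of_neg (hQ i this) (h.hφm i h')).le
  have h3 := mul_pos (hP o (mem_union_left _ h.ho)) ht
  linarith

lemma DegData.nonreal_neg (h : DegData v ν o φ l₀ ρ m P₀ Q₀ Ap Am) {t : ℝ} (ht : 0 < t) :
    ¬ Rl (dep (mv v ν o (-t))) (P₀ ∪ Am) (P₀ ∪ Am)ᶜ ∅ := by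
  rintro ⟨l, hl, hl0, hP, hQ, -⟩
  have h1 := h.phi_dep hl
  have h2 : ∑ i ∈ Ap ∪ Am, l i * φ (v i) ≤ 0 := by
    apply sum_nonpos
    intro i hi
    rcases mem_union.mp hi with h' | h'
    · have : i ∈ (P₀ ∪ Am)ᶜ := by
        rw [mem_compl, mem_union, not_or]
        exact ⟨fun hh => disjoint_left.mp h.dRA (mem_union_left _ hh) hi,
          fun hh => disjoint_left.mp h.dA h' hh⟩
      exact (mul_neg_of_neg_of_pos (hQ i this) (h.hφp i h')).le
    · exact (mul_neg_of_pos_of_neg (hP i (mem_union_right _ h')) (h.hφm i h')).le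
  have h3 := mul_pos (hP o (mem_union_left _ h.ho)) ht
  linarith

/-- The mutation theorem. -/
theorem DegData.mutation (h : DegData v ν o φ l₀ ρ m P₀ Q₀ Ap Am) :
    ∃ t : ℝ, 0 < t ∧ GPv (mv v ν o t) ρ ∧ GPv (mv v ν o (-t)) ρ ∧
      MutData (dep (mv v ν o t)) (dep (mv v ν o (-t))) m P₀ Q₀ Ap Am := by
  have e1 := eventually_gp (ν := ν) (o := o) h.gp
  have e2 : ∀ᶠ t in nhds (0 : ℝ), ∀ Z : Finset ι, Z.card = m - 1 → ¬ (P₀ ∪ Q₀ ⊆ Zᶜ) →
      ∃ P₁ ⊆ Zᶜ, Rl (dep (mv v ν o t)) P₁ (Zᶜ \ P₁) Z ∧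
        Rl (dep (mv v ν o (-t))) P₁ (Zᶜ \ P₁) Z := by
    rw [Filter.eventually_all]
    intro Z
    by_cases h1 : Z.card = m - 1
    swap
    · exact Filter.Eventually.of_forall (fun t h' => absurd h' h1)
    by_cases h2 : P₀ ∪ Q₀ ⊆ Zᶜ
    · exact Filter.Eventually.of_forall (fun t _ h' => absurd h2 h')
    obtain ⟨P₁, hP₁, hev⟩ := h.common Z h1 h2
    have hev' : ∀ᶠ t in nhds (0 : ℝ), Rl (dep (mv v ν o (-t))) P₁ (Zᶜ \ P₁) Z := by
      have hneg : Filter.Tendsto (fun t : ℝ => -t) (nhds 0) (nhds 0) := by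
        have := (continuous_neg (G := ℝ)).tendsto 0
        rwa [neg_zero] at this
      exact hneg.eventually hev
    filter_upwards [hev, hev'] with t h3 h4 _ _
    exact ⟨P₁, hP₁, h3, h4⟩
  have e3 : ∀ᶠ t in nhds (0 : ℝ), ∀ a ∈ Ap ∪ Am, (t * φ (v a) > 0 →
        Rl (dep (mv v ν o t)) P₀ (insert a Q₀) ((Ap ∪ Am).erase a)) ∧
      (t * φ (v a) < 0 → Rl (dep (mv v ν o t)) (insert a P₀) Q₀ ((Ap ∪ Am).erase a)) := by
    rw [Filter.eventually_all]
    intro a
    by_cases ha : a ∈ Ap ∪ Am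
    · filter_upwards [h.special ha] with t ht _ using ht
    · exact Filter.Eventually.of_forall (fun t h' => absurd h' ha)
  have hneg : Filter.Tendsto (fun t : ℝ => -t) (nhds 0) (nhds 0) := by
    have := (continuous_neg (G := ℝ)).tendsto 0
    rwa [neg_zero] at this
  have e4 := (e1.and (hneg.eventually e1)).and (e2.and (e3.and (hneg.eventually e3)))
  rw [Metric.eventually_nhds_iff] at e4
  obtain ⟨ε, hε, hb⟩ := e4
  set t := ε / 2 with htdef
  have ht : 0 < t := by positivity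
  obtain ⟨⟨g1, g2⟩, g3, g4, g5⟩ := hb (y := t) (by
    rw [Real.dist_eq, sub_zero, abs_of_pos ht]
    linarith)
  have gp1 := h.gpv ht.ne' g1
  have gp2 := h.gpv (neg_ne_zero.mpr ht.ne') g2
  have u1 := unif_of_GPv gp1 h.hρ h.hcard
  have u2 := unif_of_GPv gp2 h.hρ h.hcard
  have hcA : (Ap ∪ Am).card = m := by
    have h1 := card_univ (α := ι)
    rw [← h.cover, card_union_of_disjoint h.dRA, h.cardR, ← h.hcard] at h1
    omega
  have hmc : m ≤ Fintype.card ι := by have := h.hcard; omega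
  refine ⟨t, ht, gp1, gp2, ?_⟩
  exact {
    uni₁ := u1
    uni₂ := u2
    dPQ := h.dPQ
    dA := h.dA
    dRA := h.dRA
    cover := h.cover
    neP := ⟨o, h.ho⟩
    cardA := by rw [← card_union_of_disjoint h.dA, hcA]
    mpos := h.mpos
    common := by
      intro Z hZ hR P hP
      obtain ⟨P₁, hP₁, r1, r2⟩ := g3 Z hZ hR
      rw [circ_iff u1 h.mpos hmc hZ hP₁ r1 hP, circ_iff u2 h.mpos hmc hZ hP₁ r2 hP]
    p₁ := fun i hi => (g4 i (mem_union_left _ hi)).1 (mul_pos ht (h.hφp i hi))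
    p₂ := fun i hi => (g5 i (mem_union_left _ hi)).2 (by
      have := mul_pos ht (h.hφp i hi)
      linarith)
    m₁ := fun i hi => (g4 i (mem_union_right _ hi)).2 (mul_neg_of_pos_of_neg ht (h.hφm i hi))
    m₂ := fun i hi => (g5 i (mem_union_right _ hi)).1 (by
      have := mul_neg_of_pos_of_neg ht (h.hφm i hi)
      linarith)
    n₁ := h.nonreal_pos ht
    n₂ := h.nonreal_neg ht }

end

end Pool.Agent.Work.MP_620441_co
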