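import Mathlib
import Pool.Agent.Work.MP_620441_co.Move
import Pool.Agent.Work.MP_620441_co.Geom

set_option autoImplicit false
set_option linter.unusedSectionVars false

namespace Pool.Agent.Work.MP_620441_co

open Finset Polynomial

/-- moment curve -/
noncomputable def crv (d : ℕ) (τ : ℝ) : E d := WithLp.toLp 2 (fun k : Fin d => τ ^ (k.1 + 1))

lemma crv_apply (d : ℕ) (τ : ℝ) (k : Fin d) : crv d τ k = τ ^ (k.1 + 1) := rfl

/-- The functional attached to a polynomial. -/
noncomputable def Phi (d : ℕ) (P : ℝ[X]) : ℝ × E d →ₗ[ℝ] ℝ where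
  toFun y := P.coeff 0 * y.1 + ∑ k : Fin d, P.coeff (k.1 + 1) * y.2 k
  map_add' y z := by
    simp only [Prod.fst_add, Prod.snd_add, PiLp.add_apply, mul_add, sum_add_distrib]
    ring
  map_smul' c y := by
    simp only [Prod.smul_fst, Prod.smul_snd, PiLp.smul_apply, smul_eq_mul, RingHom.id_apply,
      mul_add, mul_sum]
    congr 1
    · ring
    · apply sum_congr rfl; intro k _; ring

lemma Phi_crv {d : ℕ} {P : ℝ[X]} (hP : P.natDegree ≤ d) (τ : ℝ) :
    Phi d P (1, crv d τ) = P.eval τ := by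
  rw [eval_eq_sum_range' (Nat.lt_succ_of_le hP), sum_range_succ']
  show P.coeff 0 * 1 + ∑ k : Fin d, P.coeff (k.1 + 1) * (crv d τ) k = _
  simp only [crv_apply]
  rw [Fin.sum_univ_eq_sum_range (fun k => P.coeff (k + 1) * τ ^ (k + 1)) d]
  ring

/-- The polynomial attached to a functional. -/
noncomputable def poly {d : ℕ} (φ : ℝ × E d →ₗ[ℝ] ℝ) : ℝ[X] :=
  C (φ (1, 0)) + ∑ k : Fin d, C (φ (0, EuclideanSpace.single k 1)) * X ^ (k.1 + 1)

lemma crv_eq {d : ℕ} (τ : ℝ) :
    ((1 : ℝ), crv d τ) = (1, 0) + ∑ k : Fin d, τ ^ (k.1 + 1) • ((0 : ℝ), EuclideanSpace.single k (1 : ℝ)) := by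
  ext1
  · simp [Prod.fst_sum]
  · simp only [Prod.snd_add, Prod.snd_sum, Prod.smul_snd, zero_add]
    ext j
    simp [crv_apply, Finset.sum_apply, Pi.single_apply]

lemma eval_poly {d : ℕ} (φ : ℝ × E d →ₗ[ℝ] ℝ) (τ : ℝ) :
    (poly φ).eval τ = φ (1, crv d τ) := by
  rw [crv_eq, map_add, map_sum]
  simp only [map_smul, smul_eq_mul]
  simp only [poly, eval_add, eval_C, eval_finsetSum, eval_mul, eval_pow, eval_X]
  congr 1
  apply sum_congr rfl
  intro k _
  ring

lemma natDegree_poly {d : ℕ} (φ : ℝ × E d →ₗ[ℝ] ℝ) : (poly φ).natDegree ≤ d := by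
  unfold poly
  apply (natDegree_add_le _ _).trans
  apply max_le
  · simp
  · apply natDegree_sum_le_of_forall_le
    intro k _
    apply (natDegree_C_mul_X_pow_le _ _).trans
    exact k.2

lemma poly_ne_zero {d : ℕ} {φ : ℝ × E d →ₗ[ℝ] ℝ} (hφ : φ ≠ 0) : poly φ ≠ 0 := by
  intro h
  apply hφ
  have h0 : φ (1, 0) = 0 := by
    have := congrArg (fun p => p.coeff 0) h
    simpa [poly, coeff_X_pow] using this
  have h1 : ∀ k : Fin d, φ (0, EuclideanSpace.single k 1) = 0 := by
    intro k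
    have := congrArg (fun p => p.coeff (k.1 + 1)) h
    simp only [poly, coeff_add, coeff_C_succ, finsetSum_coeff, coeff_C_mul, coeff_X_pow,
      coeff_zero, zero_add] at this
    rw [sum_eq_single k] at this
    · simpa using this
    · intro b _ hb
      have : k.1 + 1 ≠ b.1 + 1 := by
        intro h'
        apply hb
        ext; omega
      rw [if_neg this, mul_zero]
    · intro h'; exact absurd (mem_univ _) h'
  apply LinearMap.ext
  rintro ⟨t, y⟩
  have : ((t, y) : ℝ × E d) = t • (1, 0) + ∑ k : Fin d, y k • ((0 : ℝ), EuclideanSpace.single k (1 : ℝ)) := by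
    ext1
    · simp [Prod.fst_sum]
    · simp only [Prod.snd_add, Prod.snd_sum, Prod.smul_snd, smul_zero, zero_add]
      ext j
      simp [Finset.sum_apply, Pi.single_apply]
  rw [this, map_add, map_smul, h0, map_sum]
  simp only [map_smul, h1]
  simp

/-- A functional vanishing at `d+1` points of the moment curve is zero. -/
lemma phi_eq_zero {d : ℕ} {φ : ℝ × E d →ₗ[ℝ] ℝ} {κ : Type*} {τ : κ → ℝ} (hτ : Function.Injective τ)
    {R : Finset κ} (hR : d + 1 ≤ R.card) (h : ∀ i ∈ R, φ (1, crv d (τ i)) = 0) : φ = 0 := by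
  classical
  by_contra hφ
  apply poly_ne_zero hφ
  apply Polynomial.eq_zero_of_natDegree_lt_card_of_eval_eq_zero' _ (R.image τ)
  · intro y hy
    rw [mem_image] at hy
    obtain ⟨i, hi, rfl⟩ := hy
    rw [eval_poly, h i hi]
  · rw [card_image_of_injective _ hτ]
    have := natDegree_poly φ
    omega

lemma gpv_crv {d : ℕ} {κ : Type*} [Fintype κ] [DecidableEq κ] {τ : κ → ℝ}
    (hτ : Function.Injective τ) : GPv (fun i => ((1 : ℝ), crv d (τ i))) (d + 1) := by
  intro R hR
  by_contra hli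
  have hspan : Submodule.span ℝ (Set.range (fun i : R => ((1 : ℝ), crv d (τ i)))) ≠ ⊤ := by
    intro h'
    apply hli
    apply linearIndependent_of_top_le_span_of_card_eq_finrank h'.ge
    simp [hR]
    ring
  obtain ⟨φ, hφ, hφ'⟩ := Submodule.exists_le_ker_of_lt_top _ (lt_top_iff_ne_top.mpr hspan)
  apply hφ
  apply phi_eq_zero hτ hR.ge
  intro i hi
  have : ((1 : ℝ), crv d (τ i)) ∈ Submodule.span ℝ (Set.range (fun i : R => ((1 : ℝ), crv d (τ i)))) :=
    Submodule.subset_span ⟨⟨i, hi⟩, rfl⟩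
  exact LinearMap.mem_ker.mp (hφ' this)

end Pool.Agent.Work.MP_620441_co
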