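import Mathlib
import Pool.Agent.Work.MP_620441_co.Curve

set_option autoImplicit false
set_option linter.unusedSectionVars false

namespace Pool.Agent.Work.MP_620441_co

open Finset Polynomial

/-- index type of the points on the moment curve -/
abbrev Kap (d p q : ℕ) := Fin d ⊕ (Fin p ⊕ Fin q)

/-- parameters -/
noncomputable def tau (d p q : ℕ) : Kap d p q → ℝ :=
  Sum.elim (fun k => -(k.1 : ℝ)) (Sum.elim (fun i => (i.1 : ℝ) + 1) (fun i => -(1 / ((i.1 : ℝ) + 2))))

lemma frac_bounds (i : ℕ) : 0 < 1 / ((i : ℝ) + 2) ∧ 1 / ((i : ℝ) + 2) < 1 := by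
  have h : (0 : ℝ) ≤ i := Nat.cast_nonneg i
  constructor
  · positivity
  · rw [div_lt_one (by positivity)]; linarith

lemma tau_inj (d p q : ℕ) : Function.Injective (tau d p q) := by
  have h1 : ∀ (k : ℕ) (i : ℕ), -(k : ℝ) ≠ -(1 / ((i : ℝ) + 2)) := by
    intro k i h
    obtain ⟨b1, b2⟩ := frac_bounds i
    have h' : (k : ℝ) = 1 / ((i : ℝ) + 2) := neg_injective h
    rw [← h'] at b1 b2
    have c1 : 0 < k := by exact_mod_cast b1
    have c2 : k < 1 := by exact_mod_cast b2
    omega
  rintro (k | i | i) (k' | i' | i') h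
  · simp only [tau, Sum.elim_inl, neg_inj, Nat.cast_inj] at h
    rw [Fin.ext h]
  · simp only [tau, Sum.elim_inl, Sum.elim_inr] at h
    have a1 : (0 : ℝ) ≤ k.1 := Nat.cast_nonneg _
    have a2 : (0 : ℝ) ≤ i'.1 := Nat.cast_nonneg _
    linarith
  · simp only [tau, Sum.elim_inl, Sum.elim_inr] at h
    exact absurd h (h1 _ _)
  · simp only [tau, Sum.elim_inl, Sum.elim_inr] at h
    have a1 : (0 : ℝ) ≤ k'.1 := Nat.cast_nonneg _
    have a2 : (0 : ℝ) ≤ i.1 := Nat.cast_nonneg _
    linarith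
  · simp only [tau, Sum.elim_inl, Sum.elim_inr] at h
    have : (i.1 : ℝ) = i'.1 := by linarith
    have e : i = i' := Fin.ext (by exact_mod_cast this)
    rw [e]
  · simp only [tau, Sum.elim_inl, Sum.elim_inr] at h
    have a2 : (0 : ℝ) ≤ i.1 := Nat.cast_nonneg _
    have := (frac_bounds i'.1).1
    linarith
  · simp only [tau, Sum.elim_inl, Sum.elim_inr] at h
    exact absurd h.symm (h1 _ _)
  · simp only [tau, Sum.elim_inl, Sum.elim_inr] at h
    have a2 : (0 : ℝ) ≤ i'.1 := Nat.cast_nonneg _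
    have := (frac_bounds i.1).1
    linarith
  · simp only [tau, Sum.elim_inr, neg_inj] at h
    have a1 : (0 : ℝ) ≤ i.1 := Nat.cast_nonneg _
    have a2 : (0 : ℝ) ≤ i'.1 := Nat.cast_nonneg _
    have : (i.1 : ℝ) = i'.1 := by
      rw [div_eq_div_iff (by positivity) (by positivity)] at h
      linarith
    have e : i = i' := Fin.ext (by exact_mod_cast this)
    rw [e]

/-- points (homogenised) on the moment curve -/
noncomputable def wv (d p q : ℕ) (i : Kap d p q) : ℝ × E d := (1, crv d (tau d p q i))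

lemma gpv_wv (d p q : ℕ) : GPv (wv d p q) (d + 1) := gpv_crv (tau_inj d p q)

/-- polynomial of the hyperplane -/
noncomputable def PB (d : ℕ) : ℝ[X] := ∏ k ∈ range d, (X + C (k : ℝ))

lemma PB_monic (d : ℕ) : (PB d).Monic := monic_prod_of_monic _ _ (fun _ _ => monic_X_add_C _)

lemma PB_natDegree (d : ℕ) : (PB d).natDegree = d := by
  unfold PB
  rw [natDegree_prod_of_monic _ _ (fun _ _ => monic_X_add_C _)]
  simp only [natDegree_X_add_C]
  simp

lemma PB_eval (d : ℕ) (τ : ℝ) : (PB d).eval τ = ∏ k ∈ range d, (τ + k) := by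
  simp [PB, eval_prod]

/-- the functional of the hyperplane -/
noncomputable def phiB (d : ℕ) : ℝ × E d →ₗ[ℝ] ℝ := Phi d (PB d)

lemma phiB_wv (d p q : ℕ) (i : Kap d p q) :
    phiB d (wv d p q i) = ∏ k ∈ range d, (tau d p q i + k) := by
  rw [phiB, wv, Phi_crv (PB_natDegree d).le, PB_eval]

lemma phiB_inl (d p q : ℕ) (k : Fin d) : phiB d (wv d p q (Sum.inl k)) = 0 := by
  rw [phiB_wv]
  apply prod_eq_zero (mem_range.mpr k.2)
  simp [tau]

lemma phiB_p (d p q : ℕ) (i : Fin p) : 0 < phiB d (wv d p q (Sum.inr (Sum.inl i))) := by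
  rw [phiB_wv]
  apply prod_pos
  intro k _
  simp only [tau, Sum.elim_inr, Sum.elim_inl]
  positivity

lemma phiB_m (d p q : ℕ) (hd : 1 ≤ d) (i : Fin q) :
    phiB d (wv d p q (Sum.inr (Sum.inr i))) < 0 := by
  rw [phiB_wv]
  obtain ⟨d', rfl⟩ : ∃ d', d = d' + 1 := ⟨d - 1, by omega⟩
  rw [prod_range_succ']
  obtain ⟨b1, b2⟩ := frac_bounds i.1
  apply mul_neg_of_pos_of_neg
  · apply prod_pos
    intro k _
    simp only [tau, Sum.elim_inr]
    push_cast
    have : (0 : ℝ) ≤ k := Nat.cast_nonneg _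
    linarith
  · simp only [tau, Sum.elim_inr]
    push_cast
    linarith

/-- direction of motion -/
noncomputable def nuB (d : ℕ) (hd : 1 ≤ d) : E d := EuclideanSpace.single (⟨d - 1, by omega⟩ : Fin d) 1

lemma phiB_nu (d : ℕ) (hd : 1 ≤ d) : phiB d ((0 : ℝ), nuB d hd) = 1 := by
  show (PB d).coeff 0 * 0 + ∑ k : Fin d, (PB d).coeff (k.1 + 1) * (nuB d hd) k = 1
  rw [mul_zero, zero_add, sum_eq_single (⟨d - 1, by omega⟩ : Fin d)]
  · have : d - 1 + 1 = d := by omega
    simp only [nuB, this]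
    have h := PB_monic d
    rw [Monic, leadingCoeff, PB_natDegree] at h
    rw [h]; simp
  · intro b _ hb
    simp [nuB, hb]
  · intro h; exact absurd (mem_univ _) h

lemma geom_lt {M : ℝ} (hM : 2 ≤ M) (n : ℕ) : ∑ k ∈ range n, M ^ k ≤ M ^ n - 1 := by
  induction n with
  | zero => simp
  | succ n ih =>
    rw [sum_range_succ, pow_succ]
    have : 0 ≤ M ^ n := by positivity
    nlinarith

/-- sign pattern -/
def sg (j : ℕ) (k : ℕ) : ℝ := if k < j - 1 then -1 else 1

lemma exists_mu (d p q j : ℕ) (hj : 1 ≤ j) (hj' : j ≤ d) :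
    ∃ μ : Fin d → ℝ, ∑ k, μ k = 1 ∧ (∀ k : Fin d, k.1 < j - 1 → μ k < 0) ∧
      (∀ k : Fin d, j - 1 ≤ k.1 → 0 < μ k) ∧
      ∀ R : Finset (Kap d p q), R.card = d → R ≠ univ.map Function.Embedding.inl →
        ∃ ψ : ℝ × E d →ₗ[ℝ] ℝ, (∀ i ∈ R, ψ (wv d p q i) = 0) ∧
          ∑ k, μ k * ψ (wv d p q (Sum.inl k)) ≠ 0 := by
  -- functionals
  have hψ : ∀ R : Finset (Kap d p q), ∃ ψ : ℝ × E d →ₗ[ℝ] ℝ, R.card = d →
      (ψ ≠ 0 ∧ (∀ i ∈ R, ψ (wv d p q i) = 0)) := by
    intro R
    by_cases hR : R.card = d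
    swap
    · exact ⟨0, fun h => absurd h hR⟩
    have hspan : Submodule.span ℝ ((R.image (wv d p q) : Finset (ℝ × E d)) : Set (ℝ × E d)) ≠ ⊤ := by
      intro h
      have h1 := finrank_span_finset_le_card (R := ℝ) (R.image (wv d p q))
      rw [Set.finrank, h, finrank_top, finrank_hom] at h1
      have h2 := card_image_le (s := R) (f := wv d p q)
      omega
    obtain ⟨ψ, h1, h2⟩ := Submodule.exists_le_ker_of_lt_top _ (lt_top_iff_ne_top.mpr hspan)
    refine ⟨ψ, fun _ => ⟨h1, ?_⟩⟩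
    intro i hi
    apply LinearMap.mem_ker.mp (h2 _)
    apply Submodule.subset_span
    simp only [coe_image, Set.mem_image, mem_coe]
    exact ⟨i, hi, rfl⟩
  choose ψ hψ using hψ
  -- polynomials
  set G : Finset (Kap d p q) → ℝ[X] := fun R =>
    ∑ k : Fin d, C (sg j k.1 * ψ R (wv d p q (Sum.inl k))) * X ^ k.1 with hG
  have hGne : ∀ R : Finset (Kap d p q), R.card = d → R ≠ univ.map Function.Embedding.inl → G R ≠ 0 := by
    intro R hR hne hzero
    obtain ⟨h1, h2⟩ := hψ R hR
    -- some `inl k ∉ R`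
    obtain ⟨k, hk⟩ : ∃ k : Fin d, (Sum.inl k : Kap d p q) ∉ R := by
      by_contra hcon
      push Not at hcon
      apply hne
      symm
      apply eq_of_subset_of_card_le
      · intro i hi
        rw [mem_map] at hi
        obtain ⟨k, -, rfl⟩ := hi
        exact hcon k
      · rw [hR, card_map, card_univ, Fintype.card_fin]
    have h3 : ψ R (wv d p q (Sum.inl k)) ≠ 0 := by
      intro h0
      apply h1
      apply phi_eq_zero (tau_inj d p q) (R := insert (Sum.inl k) R)
      · rw [card_insert_of_notMem hk, hR]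
      · intro i hi
        rcases mem_insert.mp hi with rfl | hi
        · exact h0
        · exact h2 i hi
    have h4 := congrArg (fun P => P.coeff k.1) hzero
    simp only [hG, finsetSum_coeff, coeff_C_mul, coeff_X_pow, coeff_zero] at h4
    rw [sum_eq_single k] at h4
    · rw [if_pos rfl, mul_one] at h4
      rcases mul_eq_zero.mp h4 with h5 | h5
      · unfold sg at h5
        split_ifs at h5 <;> norm_num at h5
      · exact h3 h5
    · intro b _ hb
      have : ¬ (k.1 = b.1) := fun h => hb (Fin.ext h.symm)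
      rw [if_neg this, mul_zero]
    · intro h'; exact absurd (mem_univ _) h'
  have hev : ∀ᶠ M : ℝ in Filter.atTop, ∀ R : Finset (Kap d p q), R.card = d →
      R ≠ univ.map Function.Embedding.inl → ¬ (G R).IsRoot M := by
    rw [Filter.eventually_all]
    intro R
    by_cases h1 : R.card = d
    swap
    · exact Filter.Eventually.of_forall (fun t h' => absurd h' h1)
    by_cases h2 : R = univ.map Function.Embedding.inl
    · exact Filter.Eventually.of_forall (fun t _ h' => absurd h2 h')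
    filter_upwards [eventually_atTop_not_isRoot _ (hGne R h1 h2)] with M hM _ _ using hM
  obtain ⟨M, hM1, hM2⟩ := (hev.and (Filter.eventually_ge_atTop (2 : ℝ))).exists
  have hMpos : 0 < M := by linarith
  set N := ∑ k : Fin d, sg j k.1 * M ^ k.1 with hN
  have hNpos : 0 < N := by
    rw [hN, Fin.sum_univ_eq_sum_range (fun k => sg j k * M ^ k) d]
    obtain ⟨d', rfl⟩ : ∃ d', d = d' + 1 := ⟨d - 1, by omega⟩
    rw [sum_range_succ]
    have h1 : sg j d' = 1 := by
      unfold sg; rw [if_neg (by omega)]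
    rw [h1, one_mul]
    have h2 : - ∑ k ∈ range d', M ^ k ≤ ∑ k ∈ range d', sg j k * M ^ k := by
      rw [← sum_neg_distrib]
      apply sum_le_sum
      intro k _
      have : 0 < M ^ k := by positivity
      unfold sg
      split_ifs <;> linarith
    have h3 := geom_lt hM2 d'
    linarith
  refine ⟨fun k => sg j k.1 * M ^ k.1 / N, ?_, ?_, ?_, ?_⟩
  · rw [← sum_div, ← hN, div_self hNpos.ne']
  · intro k hk
    apply div_neg_of_neg_of_pos _ hNpos
    have : 0 < M ^ k.1 := by positivity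
    unfold sg
    rw [if_pos hk]; linarith
  · intro k hk
    apply div_pos _ hNpos
    have : 0 < M ^ k.1 := by positivity
    unfold sg
    rw [if_neg (by omega)]; linarith
  · intro R hR hne
    refine ⟨ψ R, (hψ R hR).2, ?_⟩
    have h1 := hM1 R hR hne
    rw [IsRoot.def] at h1
    intro h2
    apply h1
    simp only [hG, eval_finsetSum, eval_mul, eval_C, eval_pow, eval_X]
    have h3 : ∑ k : Fin d, sg j k.1 * ψ R (wv d p q (Sum.inl k)) * M ^ k.1
        = N * ∑ k : Fin d, sg j k.1 * M ^ k.1 / N * ψ R (wv d p q (Sum.inl k)) := by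
      rw [mul_sum]
      apply sum_congr rfl
      intro k _
      field_simp
    rw [h3, h2, mul_zero]

end Pool.Agent.Work.MP_620441_co
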