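import Mathlib
import Pool.Agent.Work.MP_620441_co.Config

set_option autoImplicit false
set_option linter.unusedSectionVars false

namespace Pool.Agent.Work.MP_620441_co

open Finset Polynomial

/-- index type -/
abbrev Idx (d p q : ℕ) := Option (Kap d p q)

def eB (d p q : ℕ) : Fin d ↪ Idx d p q := Function.Embedding.inl.trans Function.Embedding.some
def eP (d p q : ℕ) : Fin p ↪ Idx d p q :=
  (Function.Embedding.inl.trans Function.Embedding.inr).trans Function.Embedding.some
def eQ (d p q : ℕ) : Fin q ↪ Idx d p q :=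
  (Function.Embedding.inr.trans Function.Embedding.inr).trans Function.Embedding.some

lemma eB_apply (d p q : ℕ) (k : Fin d) : eB d p q k = some (Sum.inl k) := rfl
lemma eP_apply (d p q : ℕ) (k : Fin p) : eP d p q k = some (Sum.inr (Sum.inl k)) := rfl
lemma eQ_apply (d p q : ℕ) (k : Fin q) : eQ d p q k = some (Sum.inr (Sum.inr k)) := rfl

def cP0 (d p q j : ℕ) : Finset (Idx d p q) :=
  insert none ((univ.filter (fun k : Fin d => k.1 < j - 1)).map (eB d p q))
def cQ0 (d p q j : ℕ) : Finset (Idx d p q) :=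
  (univ.filter (fun k : Fin d => ¬ k.1 < j - 1)).map (eB d p q)
def cAp (d p q : ℕ) : Finset (Idx d p q) := univ.map (eP d p q)
def cAm (d p q : ℕ) : Finset (Idx d p q) := univ.map (eQ d p q)

lemma mem_cP0_none (d p q j : ℕ) : none ∈ cP0 d p q j := mem_insert_self _ _
lemma mem_cP0_B (d p q j : ℕ) (k : Fin d) : some (Sum.inl k) ∈ cP0 d p q j ↔ k.1 < j - 1 := by
  simp [cP0, eB_apply]
lemma mem_cP0_r (d p q j : ℕ) (r : Fin p ⊕ Fin q) : some (Sum.inr r) ∉ cP0 d p q j := by
  simp [cP0, eB_apply]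
lemma mem_cQ0_none (d p q j : ℕ) : none ∉ cQ0 d p q j := by
  simp [cQ0, eB_apply]
lemma mem_cQ0_B (d p q j : ℕ) (k : Fin d) : some (Sum.inl k) ∈ cQ0 d p q j ↔ ¬ k.1 < j - 1 := by
  simp [cQ0, eB_apply]
lemma mem_cQ0_r (d p q j : ℕ) (r : Fin p ⊕ Fin q) : some (Sum.inr r) ∉ cQ0 d p q j := by
  simp [cQ0, eB_apply]
lemma mem_cAp_none (d p q : ℕ) : none ∉ cAp d p q := by
  simp [cAp, eP_apply]
lemma mem_cAp_B (d p q : ℕ) (k : Fin d) : some (Sum.inl k) ∉ cAp d p q := by
  simp [cAp, eP_apply]
lemma mem_cAp_p (d p q : ℕ) (k : Fin p) : some (Sum.inr (Sum.inl k)) ∈ cAp d p q := by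
  simp [cAp, eP_apply]
lemma mem_cAp_q (d p q : ℕ) (k : Fin q) : some (Sum.inr (Sum.inr k)) ∉ cAp d p q := by
  simp [cAp, eP_apply]
lemma mem_cAm_none (d p q : ℕ) : none ∉ cAm d p q := by
  simp [cAm, eQ_apply]
lemma mem_cAm_B (d p q : ℕ) (k : Fin d) : some (Sum.inl k) ∉ cAm d p q := by
  simp [cAm, eQ_apply]
lemma mem_cAm_p (d p q : ℕ) (k : Fin p) : some (Sum.inr (Sum.inl k)) ∉ cAm d p q := by
  simp [cAm, eQ_apply]
lemma mem_cAm_q (d p q : ℕ) (k : Fin q) : some (Sum.inr (Sum.inr k)) ∈ cAm d p q := by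
  simp [cAm, eQ_apply]

lemma card_cP0 (d p q j : ℕ) (hj : 1 ≤ j) (hj' : j ≤ d) : (cP0 d p q j).card = j := by
  unfold cP0
  rw [card_insert_of_notMem (by simp [eB_apply]), card_map]
  have : (univ.filter (fun k : Fin d => k.1 < j - 1)).card = j - 1 := by
    rw [Fin.card_filter_val_lt]; omega
  omega

lemma card_cQ0 (d p q j : ℕ) (hj : 1 ≤ j) (hj' : j ≤ d) : (cQ0 d p q j).card = d + 1 - j := by
  unfold cQ0
  rw [card_map]
  have h1 : (univ.filter (fun k : Fin d => k.1 < j - 1)).card = j - 1 := by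
    rw [Fin.card_filter_val_lt]; omega
  have h2 := card_filter_add_card_filter_not (s := (univ : Finset (Fin d))) (fun k : Fin d => k.1 < j - 1)
  rw [card_univ, Fintype.card_fin] at h2
  omega

lemma card_cAp (d p q : ℕ) : (cAp d p q).card = p := by simp [cAp]
lemma card_cAm (d p q : ℕ) : (cAm d p q).card = q := by simp [cAm]

lemma disj_PQ (d p q j : ℕ) : Disjoint (cP0 d p q j) (cQ0 d p q j) := by
  rw [disjoint_left]
  rintro (_ | (k | r)) h1 h2
  · exact mem_cQ0_none _ _ _ _ h2
  · rw [mem_cP0_B] at h1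
    rw [mem_cQ0_B] at h2
    exact h2 h1
  · exact mem_cQ0_r _ _ _ _ _ h2

lemma disj_A (d p q : ℕ) : Disjoint (cAp d p q) (cAm d p q) := by
  rw [disjoint_left]
  rintro (_ | (k | (r | r))) h1 h2
  · exact mem_cAm_none _ _ _ h2
  · exact mem_cAm_B _ _ _ _ h2
  · exact mem_cAm_p _ _ _ _ h2
  · exact mem_cAp_q _ _ _ _ h1

lemma mem_R0 (d p q j : ℕ) (i : Idx d p q) :
    i ∈ cP0 d p q j ∪ cQ0 d p q j ↔ (i = none ∨ ∃ k, i = some (Sum.inl k)) := by
  rw [mem_union]
  rcases i with (_ | (k | r))
  · simp [mem_cP0_none]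
  · rw [mem_cP0_B, mem_cQ0_B]
    simp only [reduceCtorEq, Option.some.injEq, Sum.inl.injEq, exists_eq', or_true, iff_true]
    exact em _
  · simp [mem_cP0_r, mem_cQ0_r]

lemma disj_RA (d p q j : ℕ) :
    Disjoint (cP0 d p q j ∪ cQ0 d p q j) (cAp d p q ∪ cAm d p q) := by
  rw [disjoint_left]
  intro i h1 h2
  rw [mem_R0] at h1
  rw [mem_union] at h2
  rcases h1 with rfl | ⟨k, rfl⟩
  · exact h2.elim (mem_cAp_none _ _ _) (mem_cAm_none _ _ _)
  · exact h2.elim (mem_cAp_B _ _ _ _) (mem_cAm_B _ _ _ _)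

lemma cover_R (d p q j : ℕ) :
    (cP0 d p q j ∪ cQ0 d p q j) ∪ (cAp d p q ∪ cAm d p q) = univ := by
  apply eq_univ_of_forall
  intro i
  rw [mem_union, mem_R0, mem_union]
  rcases i with (_ | (k | (r | r)))
  · left; left; rfl
  · left; right; exact ⟨k, rfl⟩
  · right; left; exact mem_cAp_p _ _ _ _
  · right; right; exact mem_cAm_q _ _ _ _

/-- the degenerate configuration -/
noncomputable def cv (d p q : ℕ) (μ : Fin d → ℝ) : Idx d p q → ℝ × E d
  | none => ∑ k, μ k • wv d p q (Sum.inl k)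
  | some i => wv d p q i

/-- its dependency -/
def cl (d p q : ℕ) (μ : Fin d → ℝ) : Idx d p q → ℝ
  | none => 1
  | some (Sum.inl k) => - μ k
  | some (Sum.inr _) => 0

lemma sum_idx {M : Type*} [AddCommMonoid M] (d p q : ℕ) (f : Idx d p q → M) :
    ∑ i, f i = f none + (∑ k : Fin d, f (some (Sum.inl k)) + ∑ r : Fin p ⊕ Fin q, f (some (Sum.inr r))) := by
  rw [Fintype.sum_option, Fintype.sum_sum_type]

lemma cl_mem (d p q : ℕ) (μ : Fin d → ℝ) : cl d p q μ ∈ dep (cv d p q μ) := by
  rw [mem_dep, sum_idx]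
  simp [cl, cv]

theorem exists_degData (d p q j : ℕ) (hd : 1 ≤ d) (hj : 1 ≤ j) (hj' : j ≤ d) (hm : 0 < p + q) :
    ∃ μ : Fin d → ℝ, ∑ k, μ k = 1 ∧
      DegData (cv d p q μ) ((0 : ℝ), nuB d hd) none (phiB d) (cl d p q μ) (d + 1) (p + q)
        (cP0 d p q j) (cQ0 d p q j) (cAp d p q) (cAm d p q) := by
  obtain ⟨μ, hμ1, hμn, hμp, hμψ⟩ := exists_mu d p q j hj hj'
  refine ⟨μ, hμ1, ?_⟩
  exact {
    hρ := finrank_hom
    hcard := by simp [Idx, Kap]; omega
    mpos := hm
    dPQ := disj_PQ _ _ _ _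
    dA := disj_A _ _ _
    dRA := disj_RA _ _ _ _
    cover := cover_R _ _ _ _
    cardR := by
      rw [card_union_of_disjoint (disj_PQ _ _ _ _), card_cP0 _ _ _ _ hj hj',
        card_cQ0 _ _ _ _ hj hj']; omega
    ho := mem_cP0_none _ _ _ _
    hl₀ := cl_mem _ _ _ _
    lP := by
      rintro (_ | (k | r)) hi
      · simp [cl]
      · rw [mem_cP0_B] at hi
        have := hμn k hi
        simp only [cl]; linarith
      · exact absurd hi (mem_cP0_r _ _ _ _ _)
    lQ := by
      rintro (_ | (k | r)) hi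
      · exact absurd hi (mem_cQ0_none _ _ _ _)
      · rw [mem_cQ0_B] at hi
        have := hμp k (by omega)
        simp only [cl]; linarith
      · exact absurd hi (mem_cQ0_r _ _ _ _ _)
    lA := by
      rintro (_ | (k | r)) hi
      · rw [mem_union] at hi
        exact absurd hi (by rw [not_or]; exact ⟨mem_cAp_none _ _ _, mem_cAm_none _ _ _⟩)
      · rw [mem_union] at hi
        exact absurd hi (by rw [not_or]; exact ⟨mem_cAp_B _ _ _ _, mem_cAm_B _ _ _ _⟩)
      · rfl
    gp := by
      intro R hR hne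
      -- the part of R on the curve
      set R' : Finset (Kap d p q) := univ.filter (fun i => some i ∈ R) with hR'
      have hmem : ∀ i, i ∈ R' ↔ some i ∈ R := by intro i; simp [hR']
      have hRcard : R.card = R'.card + (if none ∈ R then 1 else 0) := by
        have h1 : R.erase none = R'.map Function.Embedding.some := by
          ext i
          rcases i with (_ | i)
          · simp
          · simp [hR']
        split_ifs with h
        · rw [← card_erase_add_one h, h1, card_map]
        · rw [← erase_eq_of_notMem h, h1, card_map]; rfl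
      apply li_of_dep
      intro l hl h0
      rw [mem_dep, Fintype.sum_option] at hl
      simp only [cv] at hl
      have hlnone : l none = 0 := by
        by_cases hn : none ∈ R
        swap
        · exact h0 none hn
        rw [if_pos hn] at hRcard
        obtain ⟨ψ, hψ1, hψ2⟩ := hμψ R' (by omega) (by
          intro he
          apply hne
          ext i
          rw [mem_R0]
          rcases i with (_ | i)
          · simp [hn]
          · rw [← hmem, he, mem_map]
            simp only [mem_univ, true_and, Function.Embedding.inl_apply, reduceCtorEq,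
              Option.some.injEq, false_or]
            constructor
            · rintro ⟨a, ha⟩; exact ⟨a, ha.symm⟩
            · rintro ⟨a, ha⟩; exact ⟨a, ha.symm⟩)
        have h2 := congrArg ψ hl
        rw [map_add, map_smul, map_sum, map_sum, map_zero] at h2
        simp only [map_smul, smul_eq_mul] at h2
        rw [sum_eq_zero (s := univ) (f := fun i => l (some i) * ψ (wv d p q i)), add_zero] at h2
        · rcases mul_eq_zero.mp h2 with h3 | h3
          · exact h3
          · exact absurd h3 hψ2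
        · intro i _
          by_cases hi : i ∈ R'
          · rw [hψ1 i hi, mul_zero]
          · rw [h0 (some i) (fun h => hi ((hmem i).mpr h)), zero_mul]
      rw [hlnone, zero_smul, zero_add] at hl
      -- extend R' to a set of size d + 1
      have hle : R'.card ≤ d + 1 := by split_ifs at hRcard <;> omega
      have hbig : d + 1 ≤ Fintype.card (Kap d p q) := by simp [Kap]; omega
      obtain ⟨R'', hR1, hR2⟩ := exists_superset_card_eq hle hbig
      have h3 := sum_eq_zero_of_support (gpv_wv d p q R'' hR2) (l := fun i => l (some i))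
        (by rw [mem_dep]; exact hl) (by
          intro i hi
          apply h0
          intro h
          exact hi (hR1 ((hmem i).mpr h)))
      funext i
      rcases i with (_ | i)
      · exact hlnone
      · exact congrFun h3 i
    hφ0 := by
      intro i hi
      rw [mem_R0] at hi
      rcases hi with rfl | ⟨k, rfl⟩
      · simp only [cv, map_sum, map_smul, phiB_inl, smul_zero, sum_const_zero]
      · exact phiB_inl d p q k
    hφp := by
      rintro (_ | (k | (r | r))) hi
      · exact absurd hi (mem_cAp_none _ _ _)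
      · exact absurd hi (mem_cAp_B _ _ _ _)
      · exact phiB_p d p q r
      · exact absurd hi (mem_cAp_q _ _ _ _)
    hφm := by
      rintro (_ | (k | (r | r))) hi
      · exact absurd hi (mem_cAm_none _ _ _)
      · exact absurd hi (mem_cAm_B _ _ _ _)
      · exact absurd hi (mem_cAm_p _ _ _ _)
      · exact phiB_m d p q hd r
    hφν := phiB_nu d hd }

/-- point family of the moved configuration -/
noncomputable def cx (d p q : ℕ) (hd : 1 ≤ d) (μ : Fin d → ℝ) (t : ℝ) : Idx d p q → E d
  | none => ∑ k, μ k • crv d (tau d p q (Sum.inl k)) + t • nuB d hd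
  | some i => crv d (tau d p q i)

lemma hom_cx (d p q : ℕ) (hd : 1 ≤ d) (μ : Fin d → ℝ) (hμ : ∑ k, μ k = 1) (t : ℝ) :
    hom (cx d p q hd μ t) = mv (cv d p q μ) ((0 : ℝ), nuB d hd) none t := by
  funext i
  rcases i with (_ | i)
  · simp only [hom, cx, mv, cv, wv, if_true]
    ext1
    · simp [Prod.fst_sum, hμ]
    · simp [Prod.snd_sum]
  · simp [hom, cx, mv, cv, wv]

lemma injective_of_GPv {ι : Type*} [Fintype ι] [DecidableEq ι] {d : ℕ} {x : ι → E d} (hd : 1 ≤ d)
    (hc : d + 1 ≤ Fintype.card ι) (h : GPv (hom x) (d + 1)) : Function.Injective x := by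
  intro i j hij
  by_contra hne
  have h1 : ({i, j} : Finset ι).card ≤ d + 1 := by rw [card_pair hne]; omega
  obtain ⟨R, hR1, hR2⟩ := exists_superset_card_eq h1 hc
  have hli := h R hR2
  have hi : i ∈ R := hR1 (by simp)
  have hj : j ∈ R := hR1 (by simp)
  have := hli.injective (a₁ := ⟨i, hi⟩) (a₂ := ⟨j, hj⟩) (by simp [hom, hij])
  apply hne
  simpa using this

/-- The two configurations of a mutation. -/
theorem exists_pair (d p q j : ℕ) (hd : 1 ≤ d) (hj : 1 ≤ j) (hj' : j ≤ d) (hm : 0 < p + q) :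
    ∃ x₁ x₂ : Idx d p q ↪ E d, GeneralPosition (univ.map x₁) ∧ GeneralPosition (univ.map x₂) ∧
      MutData (dep (hom x₁)) (dep (hom x₂)) (p + q)
        (cP0 d p q j) (cQ0 d p q j) (cAp d p q) (cAm d p q) := by
  obtain ⟨μ, hμ, hD⟩ := exists_degData d p q j hd hj hj' hm
  obtain ⟨t, ht, g1, g2, hmut⟩ := hD.mutation
  have hcard : d + 1 ≤ Fintype.card (Idx d p q) := by simp [Idx, Kap]
  rw [← hom_cx d p q hd μ hμ] at g1 g2 hmut
  rw [← hom_cx d p q hd μ hμ] at hmut
  refine ⟨⟨cx d p q hd μ t, injective_of_GPv hd hcard g1⟩,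
    ⟨cx d p q hd μ (-t), injective_of_GPv hd hcard g2⟩, ?_, ?_, hmut⟩
  · rw [gp_iff]; exact g1
  · rw [gp_iff]; exact g2

end Pool.Agent.Work.MP_620441_co
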