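import Mathlib
import Pool.Agent.Work.MP_620441_co.Count
import Pool.Agent.Work.MP_620441_co.Geom

set_option autoImplicit false
set_option linter.unusedSectionVars false

namespace Pool.Agent.Work.MP_620441_co

open Finset

variable {ι : Type*} [Fintype ι] [DecidableEq ι] {d m : ℕ}

lemma Rl_nonempty {x : ι ↪ E d} {P Q Z : Finset ι} (hZ : ∀ i, i ∉ P → i ∉ Q → i ∈ Z)
    (h : Rl (dep (hom x)) P Q Z) : P.Nonempty ∧ Q.Nonempty := by
  obtain ⟨l, hl, hl0, hP, hQ, hZ0⟩ := h
  rw [mem_dep_hom] at hl
  constructor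
  · by_contra hne
    rw [not_nonempty_iff_eq_empty] at hne
    subst hne
    apply hl0
    have h1 : ∀ i ∈ univ, l i ≤ 0 := by
      intro i _
      by_cases hi : i ∈ Q
      · exact (hQ i hi).le
      · exact (hZ0 i (hZ i (notMem_empty _) hi)).le
    have := (sum_eq_zero_iff_of_nonpos h1).mp hl.1
    funext i
    exact this i (mem_univ _)
  · by_contra hne
    rw [not_nonempty_iff_eq_empty] at hne
    subst hne
    apply hl0
    have h1 : ∀ i ∈ univ, 0 ≤ l i := by
      intro i _
      by_cases hi : i ∈ P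
      · exact (hP i hi).le
      · exact (hZ0 i (hZ i hi (notMem_empty _))).ge
    have := (sum_eq_zero_iff_of_nonneg h1).mp hl.1
    funext i
    exact this i (mem_univ _)

lemma HullsMeet.symm {T₁ T₂ : Finset (E d)} (h : HullsMeet T₁ T₂) : HullsMeet T₂ T₁ := by
  unfold HullsMeet at *
  rwa [Set.inter_comm]

lemma HullsMeet.nonempty {T₁ T₂ : Finset (E d)} (h : HullsMeet T₁ T₂) :
    T₁.Nonempty ∧ T₂.Nonempty := by
  obtain ⟨y, h1, h2⟩ := h
  constructor
  · by_contra hne
    rw [not_nonempty_iff_eq_empty] at hne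
    subst hne
    simp at h1
  · by_contra hne
    rw [not_nonempty_iff_eq_empty] at hne
    subst hne
    simp at h2

/-- Radon partitions and sign vectors of full support. -/
lemma hullsMeet_full {x : ι ↪ E d} (hL : Unif (dep (hom x)) m) {P : Finset ι} :
    HullsMeet (P.map x) (Pᶜ.map x) ↔ Rl (dep (hom x)) P Pᶜ ∅ := by
  rw [hullsMeet_iff x disjoint_compl_right]
  constructor
  · rintro ⟨l, hl, hl0, hP, hQ, -⟩
    apply Rl_pert hL (C := univ.filter (fun i => l i = 0)) disjoint_compl_right
      (disjoint_empty_right _) (disjoint_empty_right _)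
    · rw [union_compl]; exact subset_univ _
    · refine ⟨l, hl, hl0, ?_, ?_, ?_⟩
      · intro i hi
        simp only [mem_sdiff, mem_filter, mem_univ, true_and] at hi
        exact lt_of_le_of_ne (hP i hi.1) (Ne.symm hi.2)
      · intro i hi
        simp only [mem_sdiff, mem_filter, mem_univ, true_and] at hi
        exact lt_of_le_of_ne (hQ i hi.1) hi.2
      · intro i hi
        simpa using hi
  · rintro ⟨l, hl, hl0, hP, hQ, -⟩
    refine ⟨l, hl, hl0, fun i hi => (hP i hi).le, fun i hi => (hQ i hi).le, ?_⟩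
    intro i hi hi'
    rw [mem_compl] at hi'
    exact absurd hi hi'

/-- Primitive Radon partitions and circuits. -/
lemma primitive_iff {x : ι ↪ E d} (hL : Unif (dep (hom x)) m) (hm : m + (d + 1) = Fintype.card ι)
    {P Q : Finset ι} (hPQ : Disjoint P Q) (hc : P.card + Q.card = d + 2) :
    (HullsMeet (P.map x) (Q.map x) ∧ (∀ T₁' T₂' : Finset (E d), T₁' ⊆ P.map x → T₂' ⊆ Q.map x →
      HullsMeet T₁' T₂' → s(T₁', T₂') = s(P.map x, Q.map x)))
      ↔ Rl (dep (hom x)) P Q (P ∪ Q)ᶜ := by
  constructor
  · rintro ⟨h1, h2⟩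
    obtain ⟨l, hl, hl0, hP, hQ, hZ⟩ := (hullsMeet_iff x hPQ).mp h1
    set P' := P.filter (fun i => l i ≠ 0) with hP'
    set Q' := Q.filter (fun i => l i ≠ 0) with hQ'
    have hdis : Disjoint P' Q' := disjoint_of_subset_left (filter_subset _ _)
      (disjoint_of_subset_right (filter_subset _ _) hPQ)
    have h3 : HullsMeet (P'.map x) (Q'.map x) := by
      rw [hullsMeet_iff x hdis]
      refine ⟨l, hl, hl0, ?_, ?_, ?_⟩
      · intro i hi; exact hP i (filter_subset _ _ hi)
      · intro i hi; exact hQ i (filter_subset _ _ hi)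
      · intro i hi hi'
        by_contra hne
        by_cases h4 : i ∈ P
        · exact hi (mem_filter.mpr ⟨h4, hne⟩)
        · by_cases h5 : i ∈ Q
          · exact hi' (mem_filter.mpr ⟨h5, hne⟩)
          · exact hne (hZ i h4 h5)
    have h4 := h2 _ _ (map_subset_map.mpr (filter_subset _ _)) (map_subset_map.mpr (filter_subset _ _)) h3
    rw [Sym2.eq_iff] at h4
    have h5 : P' = P ∧ Q' = Q := by
      rcases h4 with h4 | h4
      · exact ⟨map_injective x h4.1, map_injective x h4.2⟩
      · exfalso
        have h5 : P' = Q := map_injective x h4.1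
        have h6 : P' ⊆ P := filter_subset _ _
        rw [h5] at h6
        have hQe : Q = ∅ := by
          rw [eq_empty_iff_forall_notMem]
          intro i hi
          exact disjoint_left.mp hPQ (h6 hi) hi
        have := h1.nonempty.2
        rw [hQe] at this
        simp at this
    refine ⟨l, hl, hl0, ?_, ?_, ?_⟩
    · intro i hi
      have := hi
      rw [← h5.1, mem_filter] at this
      exact lt_of_le_of_ne (hP i hi) (Ne.symm this.2)
    · intro i hi
      have := hi
      rw [← h5.2, mem_filter] at this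
      exact lt_of_le_of_ne (hQ i hi) this.2
    · intro i hi
      rw [mem_compl, mem_union, not_or] at hi
      exact hZ i hi.1 hi.2
  · intro h
    obtain ⟨l, hl, hl0, hP, hQ, hZ⟩ := h
    constructor
    · rw [hullsMeet_iff x hPQ]
      refine ⟨l, hl, hl0, fun i hi => (hP i hi).le, fun i hi => (hQ i hi).le, ?_⟩
      intro i hi hi'
      exact hZ i (by rw [mem_compl, mem_union, not_or]; exact ⟨hi, hi'⟩)
    · intro T₁' T₂' hT₁ hT₂ hmeet
      obtain ⟨P', hP', rfl⟩ := subset_map_iff.mp hT₁
      obtain ⟨Q', hQ', rfl⟩ := subset_map_iff.mp hT₂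
      have hdis : Disjoint P' Q' := disjoint_of_subset_left hP'
        (disjoint_of_subset_right hQ' hPQ)
      obtain ⟨l', hl', hl0', -, -, hZ'⟩ := (hullsMeet_iff x hdis).mp hmeet
      have h1 := hL.zeros l' hl' hl0'
      have h2 : (P' ∪ Q')ᶜ ⊆ univ.filter (fun i => l' i = 0) := by
        intro i hi
        rw [mem_compl, mem_union, not_or] at hi
        simp [hZ' i hi.1 hi.2]
      have h3 := card_le_card h2
      rw [card_compl, card_union_of_disjoint hdis] at h3
      have h4 := card_le_card hP'
      have h5 := card_le_card hQ'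
      have h6 : P'.card = P.card := by omega
      have h7 : Q'.card = Q.card := by omega
      rw [eq_of_subset_of_card_le hP' h6.ge, eq_of_subset_of_card_le hQ' h7.ge]

lemma card_two_to_one {α β : Type*} [DecidableEq α] [DecidableEq β] (A : Finset α) (f : α → β)
    (τ : α → α) (hτ : ∀ a ∈ A, τ a ∈ A) (hne : ∀ a ∈ A, τ a ≠ a)
    (hf : ∀ a ∈ A, ∀ b ∈ A, f a = f b ↔ (b = a ∨ b = τ a)) :
    A.card = 2 * (A.image f).card := by
  rw [card_eq_sum_card_image f A, sum_const_nat (m := 2)]
  · ring
  · intro b hb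
    rw [mem_image] at hb
    obtain ⟨a, ha, rfl⟩ := hb
    have : A.filter (fun c => f c = f a) = {a, τ a} := by
      ext c
      simp only [mem_filter, mem_insert, mem_singleton]
      constructor
      · rintro ⟨hc, h⟩
        exact (hf a ha c hc).mp h.symm
      · intro h
        have hc : c ∈ A := by
          rcases h with rfl | rfl
          · exact ha
          · exact hτ a ha
        exact ⟨hc, ((hf a ha c hc).mpr h).symm⟩
    rw [this, card_pair (hne a ha).symm]

open Classical in
lemma radon_card {x : ι ↪ E d} (hL : Unif (dep (hom x)) m)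
    {i : ℕ} (hi : 1 ≤ i) (his : i ≤ Fintype.card ι / 2) :
    2 * (radonPartitions (univ.map x) i).ncard
      = (univ.filter (fun P : Finset ι => min P.card (Fintype.card ι - P.card) = i ∧
          Rl (dep (hom x)) P Pᶜ ∅)).card := by
  set A := univ.filter (fun P : Finset ι => min P.card (Fintype.card ι - P.card) = i ∧
          Rl (dep (hom x)) P Pᶜ ∅) with hA
  have hset : radonPartitions (univ.map x) i
      = (A.image (fun P => s(P.map x, Pᶜ.map x)) : Finset (Sym2 (Finset (E d)))) := by
    ext z
    simp only [radonPartitions, Set.mem_ofPred_eq, coe_image, Set.mem_image, mem_coe]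
    constructor
    · rintro ⟨T₁, T₂, rfl, hT₁, hT₂, hdis, hun, hmeet, hc₁, hc₂⟩
      have h1 : T₁ ⊆ univ.map x := by
        rw [← coe_subset, ← hun]; exact Set.subset_union_left
      have h2 : T₂ ⊆ univ.map x := by
        rw [← coe_subset, ← hun]; exact Set.subset_union_right
      obtain ⟨P, -, rfl⟩ := subset_map_iff.mp h1
      obtain ⟨Q, -, rfl⟩ := subset_map_iff.mp h2
      have hQ : Q = Pᶜ := by
        ext j
        have h3 : x j ∈ (univ.map x : Finset (E d)) := mem_map_of_mem _ (mem_univ _)
        rw [← mem_coe, ← hun] at h3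
        rw [mem_compl]
        constructor
        · intro hj hj'
          exact disjoint_left.mp hdis (mem_map_of_mem _ hj') (mem_map_of_mem _ hj)
        · intro hj
          rcases h3 with h3 | h3
          · rw [mem_coe, mem_map' x] at h3; exact absurd h3 hj
          · rwa [mem_coe, mem_map' x] at h3
      subst hQ
      refine ⟨P, ?_, rfl⟩
      rw [hA, mem_filter]
      rw [card_map] at hc₁
      refine ⟨mem_univ _, ?_, (hullsMeet_full hL).mp hmeet⟩
      rw [hc₁]
      omega
    · rintro ⟨P, hP, rfl⟩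
      rw [hA, mem_filter] at hP
      obtain ⟨-, hmin, hR⟩ := hP
      have hmeet := (hullsMeet_full hL).mpr hR
      have hne := hmeet.nonempty
      have hcc : Pᶜ.card = Fintype.card ι - P.card := card_compl P
      have hle := card_le_univ P
      have hdis : Disjoint (P.map x) (Pᶜ.map x) := by
        rw [disjoint_map]; exact disjoint_compl_right
      have hun : (P.map x : Set (E d)) ∪ (Pᶜ.map x : Set (E d)) = (univ.map x : Finset (E d)) := by
        rw [← coe_union, ← map_union, union_compl]
      rcases Nat.lt_or_ge P.card (Fintype.card ι - P.card) with h | h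
      · rw [min_eq_left h.le] at hmin
        refine ⟨P.map x, Pᶜ.map x, rfl, hne.1, hne.2, hdis, hun, hmeet, ?_, ?_⟩
        · rw [card_map, hmin]
        · rw [card_map, card_map, card_univ, hcc, hmin]
      · rw [min_eq_right h] at hmin
        refine ⟨Pᶜ.map x, P.map x, Sym2.eq_swap, hne.2, hne.1, hdis.symm, ?_, hmeet.symm, ?_, ?_⟩
        · rw [Set.union_comm]; exact hun
        · rw [card_map, hcc, hmin]
        · rw [card_map, card_map, card_univ]; omega
  rw [hset, Set.ncard_coe_finset]
  symm
  apply card_two_to_one A _ (fun P => Pᶜ)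
  · intro P hP
    rw [hA, mem_filter] at hP ⊢
    refine ⟨mem_univ _, ?_, ?_⟩
    · rw [card_compl]
      have := card_le_univ P
      rw [min_comm]
      have h1 : Fintype.card ι - (Fintype.card ι - P.card) = P.card := by omega
      rw [h1]; exact hP.2.1
    · rw [compl_compl]; exact hP.2.2.neg
  · intro P hP h
    rw [hA, mem_filter] at hP
    obtain ⟨j, hj⟩ := (Rl_nonempty (by intro i h1 h2; rw [mem_compl] at h2; exact absurd h1 h2) hP.2.2).1
    have hj' := hj
    rw [← h, mem_compl] at hj'
    exact hj' hj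
  · intro P _ Q _
    rw [Sym2.eq_iff]
    constructor
    · rintro (⟨h1, -⟩ | ⟨h1, h2⟩)
      · exact Or.inl (map_injective x h1).symm
      · right
        exact (map_injective x h2).symm
    · rintro (rfl | rfl)
      · exact Or.inl ⟨rfl, rfl⟩
      · right
        rw [compl_compl]
        exact ⟨rfl, rfl⟩

open Classical in
/-- The circuits with smaller part of size `i`. -/
noncomputable def circSet (L : Submodule ℝ (ι → ℝ)) (d i : ℕ) : Finset (Finset ι × Finset ι) :=
  univ.filter (fun p : Finset ι × Finset ι => Disjoint p.1 p.2 ∧ p.1.card + p.2.card = d + 2 ∧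
    min p.1.card (d + 2 - p.1.card) = i ∧ Rl L p.1 p.2 (p.1 ∪ p.2)ᶜ)

open Classical in
lemma prim_card {x : ι ↪ E d} (hL : Unif (dep (hom x)) m) (hm : m + (d + 1) = Fintype.card ι)
    {i : ℕ} (hi : 1 ≤ i) (his : i ≤ d / 2 + 1) :
    2 * (primitiveRadonPartitions (univ.map x) i).ncard
      = (circSet (dep (hom x)) d i).card := by
  set A := circSet (dep (hom x)) d i with hA
  have hset : primitiveRadonPartitions (univ.map x) i
      = (A.image (fun p => s(p.1.map x, p.2.map x)) : Finset (Sym2 (Finset (E d)))) := by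
    ext z
    simp only [primitiveRadonPartitions, Set.mem_ofPred_eq, coe_image, Set.mem_image, mem_coe]
    constructor
    · rintro ⟨T₁, T₂, rfl, hT₁, hT₂, hdis, h1, h2, hmeet, hmin, hc₁, hc₂⟩
      obtain ⟨P, -, rfl⟩ := subset_map_iff.mp h1
      obtain ⟨Q, -, rfl⟩ := subset_map_iff.mp h2
      rw [disjoint_map] at hdis
      rw [card_map] at hc₁ hc₂
      refine ⟨(P, Q), ?_, rfl⟩
      rw [hA, circSet, mem_filter]
      have hsum : P.card + Q.card = d + 2 := by omega
      refine ⟨mem_univ _, hdis, hsum, ?_, (primitive_iff hL hm hdis hsum).mp ⟨hmeet, hmin⟩⟩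
      simp only
      omega
    · rintro ⟨⟨P, Q⟩, hp, rfl⟩
      rw [hA, circSet, mem_filter] at hp
      obtain ⟨-, hdis, hsum, hmin, hR⟩ := hp
      simp only at hdis hsum hmin hR ⊢
      obtain ⟨hmeet, hprim⟩ := (primitive_iff hL hm hdis hsum).mpr hR
      have hne := hmeet.nonempty
      have hdis' : Disjoint (P.map x) (Q.map x) := by
        rw [disjoint_map]; exact hdis
      rcases Nat.lt_or_ge P.card (d + 2 - P.card) with h | h
      · rw [min_eq_left h.le] at hmin
        refine ⟨P.map x, Q.map x, rfl, hne.1, hne.2, hdis', map_subset_map.mpr (subset_univ _),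
          map_subset_map.mpr (subset_univ _), hmeet, hprim, ?_, ?_⟩
        · rw [card_map, hmin]
        · rw [card_map]; omega
      · rw [min_eq_right h] at hmin
        refine ⟨Q.map x, P.map x, Sym2.eq_swap, hne.2, hne.1, hdis'.symm,
          map_subset_map.mpr (subset_univ _), map_subset_map.mpr (subset_univ _), hmeet.symm,
          ?_, ?_, ?_⟩
        · intro T₁' T₂' h1 h2 h3
          rw [Sym2.eq_swap, hprim _ _ h2 h1 h3.symm, Sym2.eq_swap]
        · rw [card_map]; omega
        · rw [card_map]; omega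
  rw [hset, Set.ncard_coe_finset]
  symm
  apply card_two_to_one A _ Prod.swap
  · rintro ⟨P, Q⟩ hP
    rw [hA, circSet, mem_filter] at hP ⊢
    obtain ⟨-, hdis, hsum, hmin, hR⟩ := hP
    simp only [Prod.swap] at hdis hsum hmin hR ⊢
    refine ⟨mem_univ _, hdis.symm, by omega, ?_, ?_⟩
    · have h1 : Q.card = d + 2 - P.card := by omega
      have h2 : d + 2 - (d + 2 - P.card) = P.card := by omega
      rw [h1, h2, min_comm]
      exact hmin
    · rw [union_comm]; exact hR.neg
  · rintro ⟨P, Q⟩ hP h
    rw [hA, circSet, mem_filter] at hP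
    obtain ⟨-, hdis, hsum, hmin, hR⟩ := hP
    simp only [Prod.swap, Prod.mk.injEq] at hdis hsum hmin hR h
    obtain ⟨j, hj⟩ := (Rl_nonempty (by
      intro i h1 h2
      rw [mem_compl, mem_union, not_or]
      exact ⟨h1, h2⟩) hR).1
    have hj' := hj
    rw [h.2] at hj'
    exact disjoint_left.mp hdis hj hj'
  · rintro ⟨P, Q⟩ _ ⟨P', Q'⟩ _
    rw [Sym2.eq_iff]
    simp only [Prod.swap, Prod.mk.injEq]
    constructor
    · rintro (⟨h1, h2⟩ | ⟨h1, h2⟩)
      · exact Or.inl ⟨(map_injective x h1).symm, (map_injective x h2).symm⟩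
      · right
        exact ⟨(map_injective x h2).symm, (map_injective x h1).symm⟩
    · rintro (⟨rfl, rfl⟩ | ⟨rfl, rfl⟩)
      · exact Or.inl ⟨rfl, rfl⟩
      · right
        exact ⟨rfl, rfl⟩

/-- Weighted sums of the Radon vector are sums over topes. -/
theorem radon_sum {x : ι ↪ E d} (hL : Unif (dep (hom x)) m) (f : ℕ → ℝ) :
    2 * ∑ i ∈ Icc 1 (Fintype.card ι / 2), f i * ((radonPartitions (univ.map x) i).ncard : ℝ)
      = topeSum (dep (hom x)) (fun i => f (min i (Fintype.card ι - i))) := by
  classical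
  rw [mul_sum]
  have h1 : ∀ i ∈ Icc 1 (Fintype.card ι / 2),
      2 * (f i * ((radonPartitions (univ.map x) i).ncard : ℝ))
      = ∑ P ∈ univ.filter (fun P : Finset ι => Rl (dep (hom x)) P Pᶜ ∅),
        (if min P.card (Fintype.card ι - P.card) = i then
          f (min P.card (Fintype.card ι - P.card)) else 0) := by
    intro i hi
    rw [mem_Icc] at hi
    have := radon_card hL hi.1 hi.2
    rw [← sum_filter, filter_filter]
    have h2 : univ.filter (fun P : Finset ι => Rl (dep (hom x)) P Pᶜ ∅ ∧
        min P.card (Fintype.card ι - P.card) = i)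
        = univ.filter (fun P : Finset ι => min P.card (Fintype.card ι - P.card) = i ∧
          Rl (dep (hom x)) P Pᶜ ∅) := by
      ext P; simp only [mem_filter]; tauto
    rw [h2, sum_congr rfl (g := fun _ => f i)]
    · rw [sum_const, nsmul_eq_mul, ← this]
      push_cast
      ring
    · intro P hP
      rw [mem_filter] at hP
      rw [hP.2.1]
  rw [sum_congr rfl h1, sum_comm]
  unfold topeSum
  rw [sum_filter]
  apply sum_congr rfl
  intro P _
  by_cases hR : Rl (dep (hom x)) P Pᶜ ∅
  · rw [if_pos hR, ind_true hR, sum_ite_eq, if_pos]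
    · simp
    · rw [mem_Icc]
      obtain ⟨h3, h4⟩ := Rl_nonempty (by
        intro i h1 h2; rw [mem_compl] at h2; exact absurd h1 h2) hR
      have h3 := card_pos.mpr h3
      have h4 := card_pos.mpr h4
      rw [card_compl] at h4
      omega
  · rw [if_neg hR, ind_false hR]
    simp

lemma circSum_eq (hm : m + (d + 1) = Fintype.card ι) (hm0 : 0 < m)
    (L : Submodule ℝ (ι → ℝ)) (f : ℕ → ℝ) :
    circSum L (m - 1) f = ∑ p : Finset ι × Finset ι,
      (if Disjoint p.1 p.2 ∧ p.1.card + p.2.card = d + 2 then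
        f p.1.card * (ind (Rl L p.1 p.2 (p.1 ∪ p.2)ᶜ) : ℝ) else 0) := by
  unfold circSum
  rw [← sum_filter, sum_sigma']
  refine sum_bij' (fun (q : (_ : Finset ι) × Finset ι) _ => (q.2, q.1ᶜ \ q.2))
    (fun p _ => ⟨(p.1 ∪ p.2)ᶜ, p.1⟩) ?_ ?_ ?_ ?_ ?_
  · rintro ⟨Z, P⟩ h
    simp only [mem_sigma, mem_powersetCard, mem_powerset] at h
    simp only [mem_filter, mem_univ, true_and]
    refine ⟨disjoint_sdiff, ?_⟩
    rw [card_sdiff_of_subset h.2, card_compl, h.1.2]
    have := card_le_card h.2
    rw [card_compl, h.1.2] at this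
    omega
  · rintro ⟨P, Q⟩ h
    simp only [mem_filter, mem_univ, true_and] at h
    simp only [mem_sigma, mem_powersetCard, mem_powerset, compl_compl]
    refine ⟨⟨subset_univ _, ?_⟩, subset_union_left⟩
    rw [card_compl, card_union_of_disjoint h.1]
    omega
  · rintro ⟨Z, P⟩ h
    simp only [mem_sigma, mem_powersetCard, mem_powerset] at h
    simp only [union_sdiff_of_subset h.2, compl_compl]
  · rintro ⟨P, Q⟩ h
    simp only [mem_filter, mem_univ, true_and] at h
    simp only [compl_compl, Prod.mk.injEq, true_and]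
    rw [union_sdiff_left, sdiff_eq_self_of_disjoint h.1.symm]
  · rintro ⟨Z, P⟩ h
    simp only [mem_sigma, mem_powersetCard, mem_powerset] at h
    simp only [union_sdiff_of_subset h.2, compl_compl]

/-- Weighted sums of the primitive Radon vector are sums over circuits. -/
theorem prim_sum {x : ι ↪ E d} (hL : Unif (dep (hom x)) m) (hm : m + (d + 1) = Fintype.card ι)
    (hm0 : 0 < m) (f : ℕ → ℝ) :
    2 * ∑ i ∈ Icc 1 (d / 2 + 1), f i * ((primitiveRadonPartitions (univ.map x) i).ncard : ℝ)
      = circSum (dep (hom x)) (m - 1) (fun i => f (min i (d + 2 - i))) := by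
  classical
  rw [mul_sum]
  have h1 : ∀ i ∈ Icc 1 (d / 2 + 1),
      2 * (f i * ((primitiveRadonPartitions (univ.map x) i).ncard : ℝ))
      = ∑ p ∈ univ.filter (fun p : Finset ι × Finset ι => Disjoint p.1 p.2 ∧
          p.1.card + p.2.card = d + 2 ∧ Rl (dep (hom x)) p.1 p.2 (p.1 ∪ p.2)ᶜ),
        (if min p.1.card (d + 2 - p.1.card) = i then
          f (min p.1.card (d + 2 - p.1.card)) else 0) := by
    intro i hi
    rw [mem_Icc] at hi
    have := prim_card hL hm hi.1 hi.2
    rw [← sum_filter, filter_filter]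
    have h2 : univ.filter (fun p : Finset ι × Finset ι => (Disjoint p.1 p.2 ∧
          p.1.card + p.2.card = d + 2 ∧ Rl (dep (hom x)) p.1 p.2 (p.1 ∪ p.2)ᶜ) ∧
        min p.1.card (d + 2 - p.1.card) = i)
        = circSet (dep (hom x)) d i := by
      ext p; simp only [circSet, mem_filter]; tauto
    rw [h2, sum_congr rfl (g := fun _ => f i)]
    · rw [sum_const, nsmul_eq_mul, ← this]
      push_cast
      ring
    · intro p hp
      rw [circSet, mem_filter] at hp
      rw [hp.2.2.2.1]
  rw [sum_congr rfl h1, sum_comm, circSum_eq hm hm0, sum_filter]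
  apply sum_congr rfl
  rintro ⟨P, Q⟩ _
  simp only
  by_cases hR : Rl (dep (hom x)) P Q (P ∪ Q)ᶜ
  · by_cases hd : Disjoint P Q ∧ P.card + Q.card = d + 2
    · rw [if_pos ⟨hd.1, hd.2, hR⟩, if_pos hd, ind_true hR, sum_ite_eq, if_pos]
      · simp
      · rw [mem_Icc]
        obtain ⟨h3, h4⟩ := Rl_nonempty (by
          intro i h1 h2
          rw [mem_compl, mem_union, not_or]
          exact ⟨h1, h2⟩) hR
        have h3 := card_pos.mpr h3
        have h4 := card_pos.mpr h4
        omega
    · rw [if_neg (fun h => hd ⟨h.1, h.2.1⟩), if_neg hd]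
  · rw [if_neg (fun h => hR h.2.2), ind_false hR]
    simp

end Pool.Agent.Work.MP_620441_co
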