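import Mathlib
import Pool.Agent.Work.MP_620441_co.Trans

set_option autoImplicit false
set_option linter.unusedSectionVars false

namespace Pool.Agent.Work.MP_620441_co

open Finset

variable {s m : ℕ}

/-- initial segment -/
def low (s k : ℕ) : Finset (Fin s) := univ.filter (fun i => i.1 < k)
/-- final segment -/
def upp (s k : ℕ) : Finset (Fin s) := univ.filter (fun i => s - k ≤ i.1)

lemma card_low (k : ℕ) (hk : k ≤ s) : (low s k).card = k := by
  unfold low
  rw [Fin.card_filter_val_lt]; omega

lemma compl_upp (k : ℕ) : (upp s k)ᶜ = low s (s - k) := by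
  ext i; simp only [upp, low, mem_compl, mem_filter, mem_univ, true_and, not_le]

lemma card_upp (k : ℕ) (hk : k ≤ s) : (upp s k).card = k := by
  have h := card_compl (upp s k)
  rw [compl_upp, card_low _ (by omega), Fintype.card_fin] at h
  have := card_le_univ (upp s k)
  rw [Fintype.card_fin] at this
  omega

lemma eq_low {P : Finset (Fin s)} (h : ∀ b ∈ P, ∀ a, a < b → a ∈ P) : P = low s P.card := by
  have hle : P.card ≤ s := by simpa using card_le_univ P
  apply eq_of_subset_of_card_le
  · intro b hb
    have hsub : low s (b.1 + 1) ⊆ P := by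
      intro a ha
      simp only [low, mem_filter, mem_univ, true_and] at ha
      rcases Nat.lt_or_ge a.1 b.1 with h' | h'
      · exact h b hb a h'
      · have : a = b := Fin.ext (by omega)
        rw [this]; exact hb
    have := card_le_card hsub
    rw [card_low _ (by omega)] at this
    simp only [low, mem_filter, mem_univ, true_and]
    omega
  · rw [card_low _ hle]

lemma eq_upp {P : Finset (Fin s)} (h : ∀ a ∈ P, ∀ b, a < b → b ∈ P) : P = upp s P.card := by
  have hle : P.card ≤ s := by simpa using card_le_univ P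
  have h1 : Pᶜ = low s Pᶜ.card := by
    apply eq_low
    intro b hb a hab
    rw [mem_compl] at hb ⊢
    intro ha
    exact hb (h a ha b hab)
  have h2 : (upp s P.card)ᶜ = Pᶜ := by
    rw [compl_upp, h1, card_compl, Fintype.card_fin]
  exact (compl_injective h2).symm

lemma mid_mem {x : Fin s ↪ E 1} (hx : StrictMono (fun i => x i 0)) {i j k : Fin s}
    (hij : i < j) (hjk : j < k) {P : Finset (Fin s)} (hi : i ∈ P) (hk : k ∈ P) :
    x j ∈ convexHull ℝ ((P.map x : Finset (E 1)) : Set (E 1)) := by
  apply segment_subset_convexHull (mem_coe.mpr (mem_map_of_mem x hi))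
    (mem_coe.mpr (mem_map_of_mem x hk))
  have h1 : x i 0 < x j 0 := hx hij
  have h2 : x j 0 < x k 0 := hx hjk
  have h3 : 0 < x k 0 - x i 0 := by linarith
  refine ⟨(x k 0 - x j 0) / (x k 0 - x i 0), (x j 0 - x i 0) / (x k 0 - x i 0),
    div_nonneg (by linarith) h3.le, div_nonneg (by linarith) h3.le, ?_, ?_⟩
  · field_simp; ring
  · ext l
    have hl : l = 0 := Subsingleton.elim _ _
    subst hl
    simp only [PiLp.add_apply, PiLp.smul_apply, smul_eq_mul]
    field_simp
    ring

lemma not_Rl_low {x : Fin s ↪ E 1} (hx : StrictMono (fun i => x i 0)) {k : ℕ} :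
    ¬ Rl (dep (hom x)) (low s k) (low s k)ᶜ ∅ := by
  intro h
  obtain ⟨h1, h2⟩ := Rl_nonempty (by intro i h1 h2; rw [mem_compl] at h2; exact absurd h1 h2) h
  obtain ⟨l, hl, hl0, hP, hQ, -⟩ := h
  obtain ⟨b, hb⟩ := h2
  have hks : k < s := by
    simp only [low, mem_compl, mem_filter, mem_univ, true_and, not_lt] at hb
    have := b.2
    omega
  rw [mem_dep_hom] at hl
  have e1 : ∑ i, l i * (x i 0 - x ⟨k, hks⟩ 0) = 0 := by
    have e2 := congrArg (fun y : E 1 => y 0) hl.2
    simp only [PiLp.zero_apply] at e2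
    have e3 : (∑ i, l i • x i) 0 = ∑ i, l i * x i 0 := by
      simp
    rw [e3] at e2
    simp_rw [mul_sub, sum_sub_distrib, ← sum_mul]
    rw [hl.1, e2]; ring
  obtain ⟨a, ha⟩ := h1
  have e4 : ∑ i, l i * (x i 0 - x ⟨k, hks⟩ 0) < 0 := by
    apply sum_neg'
    · intro i _
      by_cases hi : i ∈ low s k
      · have : i < (⟨k, hks⟩ : Fin s) := by
          simp only [low, mem_filter, mem_univ, true_and] at hi
          exact hi
        have h5 : x i 0 < x ⟨k, hks⟩ 0 := hx this
        exact (mul_neg_of_pos_of_neg (hP i hi) (by linarith)).le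
      · have : (⟨k, hks⟩ : Fin s) ≤ i := by
          simp only [low, mem_filter, mem_univ, true_and, not_lt] at hi
          exact hi
        have h5 : x ⟨k, hks⟩ 0 ≤ x i 0 := hx.monotone this
        exact mul_nonpos_of_nonpos_of_nonneg (hQ i (by rw [mem_compl]; exact hi)).le (by linarith)
    · refine ⟨a, mem_univ _, ?_⟩
      have : a < (⟨k, hks⟩ : Fin s) := by
        simp only [low, mem_filter, mem_univ, true_and] at ha
        exact ha
      have h5 : x a 0 < x ⟨k, hks⟩ 0 := hx this
      exact mul_neg_of_pos_of_neg (hP a ha) (by linarith)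
  linarith

lemma rl_d1 {x : Fin s ↪ E 1} (hx : StrictMono (fun i => x i 0)) (hL : Unif (dep (hom x)) m)
    (P : Finset (Fin s)) :
    ¬ Rl (dep (hom x)) P Pᶜ ∅ ↔ (P = low s P.card ∨ P = upp s P.card) := by
  constructor
  · intro h
    by_contra hcon
    rw [not_or] at hcon
    apply h
    rw [← hullsMeet_full hL]
    have h1 : ∃ b ∈ P, ∃ a, a < b ∧ a ∉ P := by
      by_contra hc
      push Not at hc
      exact hcon.1 (eq_low hc)
    have h2 : ∃ a ∈ P, ∃ b, a < b ∧ b ∉ P := by
      by_contra hc
      push Not at hc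
      exact hcon.2 (eq_upp hc)
    obtain ⟨b, hb, a, hab, ha⟩ := h1
    obtain ⟨a', ha', b', hab', hb'⟩ := h2
    rcases lt_trichotomy a' a with h3 | h3 | h3
    · -- a' < a < b
      refine ⟨x a, mid_mem hx h3 hab ha' hb, subset_convexHull _ _ ?_⟩
      exact mem_coe.mpr (mem_map_of_mem x (mem_compl.mpr ha))
    · exact absurd (h3 ▸ ha') ha
    · -- a < a' < b'
      refine ⟨x a', subset_convexHull _ _ ?_, mid_mem hx h3 hab' (mem_compl.mpr ha)
        (mem_compl.mpr hb')⟩
      exact mem_coe.mpr (mem_map_of_mem x ha')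
  · rintro (h | h)
    · rw [h]; exact not_Rl_low hx
    · intro hR
      have h2 := hR.neg
      have h3 : Pᶜ = low s (s - P.card) := by
        rw [← compl_upp, ← h]
      rw [h3] at h2
      have h4 : P = (low s (s - P.card))ᶜ := by rw [← h3, compl_compl]
      have h5 : Rl (dep (hom x)) (low s (s - P.card)) (low s (s - P.card))ᶜ ∅ := by
        rw [← h4]; exact h2
      exact not_Rl_low hx h5

open Classical in
lemma card_real_d1 {x : Fin s ↪ E 1} (hx : StrictMono (fun i => x i 0)) (hL : Unif (dep (hom x)) m)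
    {i : ℕ} (hi : 1 ≤ i) (his : i + 1 ≤ s) :
    (univ.filter (fun P : Finset (Fin s) => P.card = i ∧ Rl (dep (hom x)) P Pᶜ ∅)).card + 2
      = s.choose i := by
  have h1 : (univ.filter (fun P : Finset (Fin s) => P.card = i)).card = s.choose i := by
    have : (univ.filter (fun P : Finset (Fin s) => P.card = i)) = (univ : Finset (Fin s)).powersetCard i := by
      ext P; simp [mem_powersetCard]
    rw [this, card_powersetCard, card_univ, Fintype.card_fin]
  have h2 := card_filter_add_card_filter_not (s := univ.filter (fun P : Finset (Fin s) => P.card = i))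
    (fun P => Rl (dep (hom x)) P Pᶜ ∅)
  rw [h1, filter_filter, filter_filter] at h2
  have h3 : univ.filter (fun P : Finset (Fin s) => P.card = i ∧ ¬ Rl (dep (hom x)) P Pᶜ ∅)
      = {low s i, upp s i} := by
    ext P
    simp only [mem_filter, mem_univ, true_and, mem_insert, mem_singleton]
    rw [rl_d1 hx hL]
    constructor
    · rintro ⟨h, h'⟩; rwa [h] at h'
    · rintro (h | h)
      · have hc : P.card = i := by rw [h, card_low _ (by omega)]
        exact ⟨hc, Or.inl (by rw [hc]; exact h)⟩
      · have hc : P.card = i := by rw [h, card_upp _ (by omega)]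
        exact ⟨hc, Or.inr (by rw [hc]; exact h)⟩
  have h4 : low s i ≠ upp s i := by
    intro h
    have h5 : (⟨0, by omega⟩ : Fin s) ∈ low s i := by simp [low]; omega
    rw [h] at h5
    simp only [upp, mem_filter, mem_univ, true_and] at h5
    omega
  rw [h3, card_pair h4] at h2
  exact h2

/-- The Radon vector in dimension one. -/
theorem radon_d1 {x : Fin s ↪ E 1} (hx : StrictMono (fun i => x i 0)) (hL : Unif (dep (hom x)) m)
    {i : ℕ} (hi : 1 ≤ i) (his : i ≤ s / 2) :
    (if 2 * i = s then 2 else 1) * ((radonPartitions (univ.map x) i).ncard : ℝ)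
      = (s.choose i : ℝ) - 2 := by
  classical
  have h1 := radon_card hL (i := i) hi (by rw [Fintype.card_fin]; exact his)
  rw [Fintype.card_fin] at h1
  have c1 := card_real_d1 hx hL hi (by omega)
  have c2 := card_real_d1 hx hL (i := s - i) (by omega) (by omega)
  rw [Nat.choose_symm (by omega)] at c2
  have c1' : ((univ.filter (fun P : Finset (Fin s) => P.card = i ∧
      Rl (dep (hom x)) P Pᶜ ∅)).card : ℝ) + 2 = (s.choose i : ℝ) := by exact_mod_cast c1
  have c2' : ((univ.filter (fun P : Finset (Fin s) => P.card = s - i ∧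
      Rl (dep (hom x)) P Pᶜ ∅)).card : ℝ) + 2 = (s.choose i : ℝ) := by exact_mod_cast c2
  by_cases h : 2 * i = s
  · have h2 : univ.filter (fun P : Finset (Fin s) => min P.card (s - P.card) = i ∧
          Rl (dep (hom x)) P Pᶜ ∅)
        = univ.filter (fun P : Finset (Fin s) => P.card = i ∧ Rl (dep (hom x)) P Pᶜ ∅) := by
      ext P
      have hP : P.card ≤ s := by simpa using card_le_univ P
      simp only [mem_filter, mem_univ, true_and]
      constructor
      · rintro ⟨h3, h4⟩; exact ⟨by omega, h4⟩
      · rintro ⟨h3, h4⟩; exact ⟨by omega, h4⟩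
    rw [h2] at h1
    rw [if_pos h]
    have h1' : (2 : ℝ) * ((radonPartitions (univ.map x) i).ncard : ℝ)
      = ((univ.filter (fun P : Finset (Fin s) => P.card = i ∧
      Rl (dep (hom x)) P Pᶜ ∅)).card : ℝ) := by exact_mod_cast h1
    linarith
  · have h2 : univ.filter (fun P : Finset (Fin s) => min P.card (s - P.card) = i ∧
          Rl (dep (hom x)) P Pᶜ ∅)
        = univ.filter (fun P : Finset (Fin s) => P.card = i ∧ Rl (dep (hom x)) P Pᶜ ∅)
          ∪ univ.filter (fun P : Finset (Fin s) => P.card = s - i ∧ Rl (dep (hom x)) P Pᶜ ∅) := by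
      ext P
      have hP : P.card ≤ s := by simpa using card_le_univ P
      simp only [mem_filter, mem_univ, true_and, mem_union]
      constructor
      · rintro ⟨h3, h4⟩
        rcases Nat.lt_or_ge P.card (s - P.card) with h5 | h5
        · left; exact ⟨by omega, h4⟩
        · right; exact ⟨by omega, h4⟩
      · rintro (⟨h3, h4⟩ | ⟨h3, h4⟩)
        · exact ⟨by omega, h4⟩
        · exact ⟨by omega, h4⟩
    have h3 : Disjoint (univ.filter (fun P : Finset (Fin s) => P.card = i ∧ Rl (dep (hom x)) P Pᶜ ∅))
        (univ.filter (fun P : Finset (Fin s) => P.card = s - i ∧ Rl (dep (hom x)) P Pᶜ ∅)) := by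
      rw [disjoint_left]
      intro P h4 h5
      rw [mem_filter] at h4 h5
      omega
    rw [h2, card_union_of_disjoint h3] at h1
    rw [if_neg h]
    have h1' : (2 : ℝ) * ((radonPartitions (univ.map x) i).ncard : ℝ)
      = ((univ.filter (fun P : Finset (Fin s) => P.card = i ∧
      Rl (dep (hom x)) P Pᶜ ∅)).card : ℝ) + ((univ.filter (fun P : Finset (Fin s) => P.card = s - i ∧
      Rl (dep (hom x)) P Pᶜ ∅)).card : ℝ) := by exact_mod_cast h1
    linarith

end Pool.Agent.Work.MP_620441_co
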