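import Mathlib
import Pool.Agent.Work.MP_620441_co.DimOne

set_option autoImplicit false
set_option linter.unusedSectionVars false

namespace Pool.Agent.Work.MP_620441_co

open Finset

lemma rc_vec {s d : ℕ} (S : Finset (E d)) {i : ℕ} (hi : i ∈ Icc 1 (s / 2)) :
    rc (vec s S) i = ((radonPartitions S i).ncard : ℝ) := by
  rw [mem_Icc] at hi
  unfold rc
  rw [dif_pos hi]
  simp only [vec, Sum.elim_inl]
  rw [Nat.sub_add_cancel hi.1]

lemma pc_vec {s d : ℕ} (S : Finset (E d)) {i : ℕ} (hi : i ∈ Icc 1 (d / 2 + 1)) :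
    pc (vec s S) i = ((primitiveRadonPartitions S i).ncard : ℝ) := by
  rw [mem_Icc] at hi
  unfold pc
  rw [dif_pos hi]
  simp only [vec, Sum.elim_inr]
  rw [Nat.sub_add_cancel hi.1]

lemma exists_family {s d : ℕ} (S : Finset (E d)) (hS : S.card = s) :
    ∃ x : Fin s ↪ E d, univ.map x = S := by
  refine ⟨(S.equivFinOfCardEq hS).symm.toEmbedding.trans (Function.Embedding.subtype _), ?_⟩
  ext y
  simp only [mem_map, mem_univ, true_and, Function.Embedding.trans_apply, Equiv.coe_toEmbedding,
    Function.Embedding.subtype_apply]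
  constructor
  · rintro ⟨i, rfl⟩; exact Subtype.mem _
  · intro hy
    exact ⟨S.equivFinOfCardEq hS ⟨y, hy⟩, by simp⟩

lemma unif_of_gp {ι : Type*} [Fintype ι] [DecidableEq ι] {d m : ℕ} {x : ι ↪ E d}
    (hx : GeneralPosition (univ.map x)) (hm : m + (d + 1) = Fintype.card ι) :
    Unif (dep (hom x)) m :=
  unif_of_GPv ((gp_iff x).mp hx) finrank_hom hm

/-- Weighted sum of the radon coordinates. -/
lemma sum_rc {ι : Type*} [Fintype ι] [DecidableEq ι] {s d m : ℕ} {x : ι ↪ E d}
    (hL : Unif (dep (hom x)) m) (hs : Fintype.card ι = s) (f : ℕ → ℝ) :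
    2 * ∑ i ∈ Icc 1 (s / 2), f i * rc (vec s (univ.map x)) i
      = topeSum (dep (hom x)) (fun i => f (min i (s - i))) := by
  subst hs
  rw [← radon_sum hL f]
  congr 1
  apply sum_congr rfl
  intro i hi
  rw [rc_vec _ hi]

lemma sum_pc {ι : Type*} [Fintype ι] [DecidableEq ι] {s d m : ℕ} {x : ι ↪ E d}
    (hL : Unif (dep (hom x)) m) (hm : m + (d + 1) = Fintype.card ι) (hm0 : 0 < m) (f : ℕ → ℝ) :
    2 * ∑ i ∈ Icc 1 (d / 2 + 1), f i * pc (vec s (univ.map x)) i
      = circSum (dep (hom x)) (m - 1) (fun i => f (min i (d + 2 - i))) := by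
  rw [← prim_sum hL hm hm0 f]
  congr 1
  apply sum_congr rfl
  intro i hi
  rw [pc_vec _ hi]

lemma topeSum_congr {ι : Type*} [Fintype ι] [DecidableEq ι] (L : Submodule ℝ (ι → ℝ))
    {f g : ℕ → ℝ} (h : ∀ i ≤ Fintype.card ι, f i = g i) : topeSum L f = topeSum L g := by
  unfold topeSum
  apply sum_congr rfl
  intro P _
  rw [h _ (card_le_univ P)]

lemma circSum_congr {ι : Type*} [Fintype ι] [DecidableEq ι] (L : Submodule ℝ (ι → ℝ)) (k : ℕ)
    {f g : ℕ → ℝ} (h : ∀ i ≤ Fintype.card ι - k, f i = g i) : circSum L k f = circSum L k g := by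
  unfold circSum
  apply sum_congr rfl
  intro Z hZ
  rw [mem_powersetCard] at hZ
  apply sum_congr rfl
  intro P hP
  rw [mem_powerset] at hP
  have := card_le_card hP
  rw [card_compl, hZ.2] at this
  rw [h _ this]

lemma binom_sum (n a b : ℕ) (h : a + b = n + 1) :
    ∑ j ∈ range a, (n.choose j : ℝ) = 2 ^ n - ∑ k ∈ range b, (n.choose k : ℝ) := by
  have h1 : ∑ j ∈ range (n + 1), (n.choose j : ℝ) = 2 ^ n := by
    exact_mod_cast Nat.sum_range_choose n
  rw [← h1, ← h, sum_range_add]
  have h2 : ∑ x ∈ range b, (n.choose (a + x) : ℝ) = ∑ k ∈ range b, (n.choose k : ℝ) := by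
    rw [← sum_range_reflect]
    apply sum_congr rfl
    intro k hk
    rw [mem_range] at hk
    have : a + (b - 1 - k) = n - k := by omega
    rw [this, Nat.choose_symm (by omega)]
  rw [h2]; ring

theorem system_of_family {s d : ℕ} (hs : d + 2 ≤ s) (x : Fin s ↪ E d)
    (hx : GeneralPosition (univ.map x)) :
    (∑ i ∈ Finset.Icc 1 (d / 2 + 1), pc (vec s (univ.map x)) i = (s.choose (d + 2) : ℝ)) ∧
    (∑ i ∈ Finset.Icc 1 (s / 2), rc (vec s (univ.map x)) i
      = 2 ^ (s - 1) - ∑ k ∈ Finset.range (d + 1), ((s - 1).choose k : ℝ)) ∧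
    (∑ i ∈ Finset.Icc 1 (s / 2), (i : ℝ) * ((s : ℝ) - i) * rc (vec s (univ.map x)) i
      - ∑ i ∈ Finset.Icc 1 (d / 2 + 1), (i : ℝ) * ((d : ℝ) + 2 - i) * pc (vec s (univ.map x)) i
      = (s.choose 2 : ℝ) * ∑ k ∈ Finset.range (s - d - 2), ((s - 2).choose k : ℝ)) ∧
    (Even s → Odd d → ∑ i ∈ Finset.Icc 1 (s / 2), (-1 : ℝ) ^ i * rc (vec s (univ.map x)) i = 0) ∧
    (s = d + 2 → ∀ i ∈ Finset.Icc 1 (s / 2),
      rc (vec s (univ.map x)) i = pc (vec s (univ.map x)) i) ∧
    (s = d + 3 → ∀ i ∈ Finset.Icc 1 (s / 2),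
      2 * rc (vec s (univ.map x)) i = pc (vec s (univ.map x)) (i - 1)
        + (if 2 * i = d + 2 then 2 else 1) * pc (vec s (univ.map x)) i) := by
  obtain ⟨m, hm⟩ : ∃ m, m + (d + 1) = s := ⟨s - (d + 1), by omega⟩
  have hm0 : 0 < m := by omega
  have hcard : Fintype.card (Fin s) = s := Fintype.card_fin s
  have hmc : m + (d + 1) = Fintype.card (Fin s) := by rw [hcard]; exact hm
  have hL := unif_of_gp hx hmc
  have R := fun f => sum_rc (s := s) hL hcard f
  have C := fun f => sum_pc (s := s) hL hmc hm0 f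
  refine ⟨?_, ?_, ?_, ?_, ?_, ?_⟩
  · have h1 := C (fun _ => 1)
    rw [circSum_one hL hm0 (by omega), hcard] at h1
    simp only [one_mul] at h1
    have h2 : s.choose (m - 1) = s.choose (d + 2) := by
      rw [← Nat.choose_symm (by omega : d + 2 ≤ s)]
      congr 1; omega
    rw [h2] at h1
    linarith
  · have h1 := R (fun _ => 1)
    rw [topeSum_one hL (by omega), hcard] at h1
    simp only [one_mul] at h1
    rw [binom_sum (s - 1) m (d + 1) (by omega)] at h1
    linarith
  · have h1 := R (fun i => (i : ℝ) * ((s : ℝ) - i))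
    have h2 := C (fun i => (i : ℝ) * ((d : ℝ) + 2 - i))
    have h3 := quad_rel hL hm0
    rw [hcard] at h3
    have e1 : topeSum (dep (hom x)) (fun i => (fun i : ℕ => (i : ℝ) * ((s : ℝ) - i)) (min i (s - i)))
        = topeSum (dep (hom x)) (fun i => (i : ℝ) * ((s : ℝ) - i)) := by
      apply topeSum_congr
      intro i hi
      rw [hcard] at hi
      simp only
      rcases min_choice i (s - i) with h | h
      · rw [h]
      · rw [h, Nat.cast_sub hi]; ring
    have e2 : circSum (dep (hom x)) (m - 1)
          (fun i => (fun i : ℕ => (i : ℝ) * ((d : ℝ) + 2 - i)) (min i (d + 2 - i)))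
        = circSum (dep (hom x)) (m - 1) (fun i => (i : ℝ) * ((s : ℝ) - (m - 1 : ℕ) - i)) := by
      apply circSum_congr
      intro i hi
      rw [hcard] at hi
      have hi' : i ≤ d + 2 := by omega
      have e3 : (s : ℝ) - (m - 1 : ℕ) = (d : ℝ) + 2 := by
        rw [← hm]
        rw [Nat.cast_sub (by omega : 1 ≤ m)]
        push_cast; ring
      rw [e3]
      simp only
      rcases min_choice i (d + 2 - i) with h | h
      · rw [h]
      · rw [h, Nat.cast_sub hi']; push_cast; ring
    rw [e1] at h1
    rw [e2] at h2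
    rw [← h1, ← h2] at h3
    have e4 : (s.choose 2 : ℝ) = (s : ℝ) * (s - 1) / 2 := by
      rw [Nat.cast_choose_two]
    have e5 : s - d - 2 = m - 1 := by omega
    rw [e4, e5]
    linarith
  · intro hse hdo
    have h1 := R (fun i => (-1 : ℝ) ^ i)
    have hme : Even m := by
      have h2 : Even (m + (d + 1)) := by rw [hm]; exact hse
      rw [Nat.even_add] at h2
      rw [h2]
      exact Odd.add_one hdo
    have e1 : topeSum (dep (hom x)) (fun i => (fun i : ℕ => (-1 : ℝ) ^ i) (min i (s - i)))
        = topeSum (dep (hom x)) (fun i => (-1 : ℝ) ^ i) := by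
      apply topeSum_congr
      intro i hi
      rw [hcard] at hi
      simp only
      rcases min_choice i (s - i) with h | h
      · rw [h]
      · rw [h]
        have h3 : (-1 : ℝ) ^ (s - i) * (-1 : ℝ) ^ i = 1 := by
          rw [← pow_add, Nat.sub_add_cancel hi, hse.neg_one_pow]
        have h4 : (-1 : ℝ) ^ i * (-1 : ℝ) ^ i = 1 := by
          rw [← pow_add, ← two_mul, pow_mul]; simp
        have h5 : (-1 : ℝ) ^ i ≠ 0 := pow_ne_zero _ (by norm_num)
        exact mul_right_cancel₀ h5 (h3.trans h4.symm)
    rw [e1, topeSum_alt hL hme (by omega)] at h1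
    linarith
  · intro hs2 i hi
    have h1 := R (fun k => if k = i then 1 else 0)
    have h2 := C (fun k => if k = i then 1 else 0)
    have hm1 : m - 1 = 0 := by omega
    rw [hm1, ← topeSum_eq_circSum] at h2
    have h3 : s = d + 2 := hs2
    have e : (fun i_1 => (fun k => if k = i then (1 : ℝ) else 0) (min i_1 (s - i_1)))
        = (fun i_1 => (fun k => if k = i then (1 : ℝ) else 0) (min i_1 (d + 2 - i_1))) := by
      rw [← h3]
    rw [e, ← h2] at h1
    have hi2 : i ∈ Icc 1 (d / 2 + 1) := by
      rw [mem_Icc] at hi ⊢; omega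
    simp only [ite_mul, one_mul, zero_mul, sum_ite_eq', hi, hi2, if_true] at h1
    linarith
  · intro hs3 i hi
    rw [mem_Icc] at hi
    have hm2 : m = 2 := by omega
    subst hm2
    have h1 := R (fun k => if k = i then 1 else 0)
    have h2 := topeSum_two hL (by omega) (fun k => if min k (s - k) = i then 1 else 0)
    -- the function h
    set h : ℕ → ℝ := fun k => (if min k (s - k) = i then 1 else 0)
      + (if min (k + 1) (s - (k + 1)) = i then 1 else 0) with hh
    have h3 := C h
    have e1 : circSum (dep (hom x)) (2 - 1) (fun k => h (min k (d + 2 - k)))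
        = circSum (dep (hom x)) 1 (fun k => (if min k (s - k) = i then (1 : ℝ) else 0)
          + (if min (k + 1) (s - (k + 1)) = i then 1 else 0)) := by
      apply circSum_congr
      intro k hk
      rw [hcard] at hk
      have hk' : k ≤ d + 2 := by omega
      simp only [hh]
      rcases Nat.lt_or_ge k (d + 2 - k) with h4 | h4
      · rw [min_eq_left h4.le]
      · rw [min_eq_right h4]
        have a1 : min (d + 2 - k) (s - (d + 2 - k)) = min (k + 1) (s - (k + 1)) := by omega
        have a2 : min (d + 2 - k + 1) (s - (d + 2 - k + 1)) = min k (s - k) := by omega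
        rw [a1, a2]; ring
    rw [e1, ← h2] at h3
    simp only [ite_mul, one_mul, zero_mul, sum_ite_eq', mem_Icc, hi, and_self, if_true] at h1
    rw [← h1] at h3
    -- compute the sum
    have e2 : ∑ k ∈ Icc 1 (d / 2 + 1), h k * pc (vec s (univ.map x)) k
        = pc (vec s (univ.map x)) (i - 1)
        + (if 2 * i = d + 2 then 2 else 1) * pc (vec s (univ.map x)) i := by
      have e3 : ∀ k ∈ Icc 1 (d / 2 + 1), h k * pc (vec s (univ.map x)) k
          = (if k = i then (if 2 * i = d + 2 then 2 else 1) * pc (vec s (univ.map x)) i else 0)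
            + (if k = i - 1 then pc (vec s (univ.map x)) (i - 1) else 0) := by
        intro k hk
        rw [mem_Icc] at hk
        simp only [hh]
        by_cases c1 : 2 * k = d + 2
        · -- s - (k+1) = k
          have a1 : min k (s - k) = k := by omega
          have a2 : min (k + 1) (s - (k + 1)) = k := by omega
          rw [a1, a2]
          by_cases c2 : k = i
          · subst c2
            rw [if_pos rfl, if_pos rfl, if_pos c1, if_neg (by omega)]; ring
          · rw [if_neg c2, if_neg c2, if_neg]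
            · ring
            · intro c3
              omega
        · have a1 : min k (s - k) = k := by omega
          have a2 : min (k + 1) (s - (k + 1)) = k + 1 := by omega
          rw [a1, a2]
          by_cases c2 : k = i
          · subst c2
            rw [if_pos rfl, if_neg (by omega), if_pos rfl, if_neg c1, if_neg (by omega)]; ring
          · by_cases c3 : k = i - 1
            · have c4 : k + 1 = i := by omega
              rw [if_neg c2, if_pos c4, if_neg c2, if_pos c3, c3]; ring
            · rw [if_neg c2, if_neg (by omega), if_neg c2, if_neg c3]; ring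
      rw [sum_congr rfl e3, sum_add_distrib, sum_ite_eq', sum_ite_eq']
      by_cases c1 : i ∈ Icc 1 (d / 2 + 1)
      · rw [if_pos c1]
        by_cases c2 : i - 1 ∈ Icc 1 (d / 2 + 1)
        · rw [if_pos c2]; ring
        · rw [if_neg c2]
          have : pc (vec s (univ.map x)) (i - 1) = 0 := by
            unfold pc
            rw [dif_neg]
            rw [mem_Icc] at c2; exact c2
          rw [this]; ring
      · rw [if_neg c1]
        have e4 : pc (vec s (univ.map x)) i = 0 := by
          unfold pc
          rw [dif_neg]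
          rw [mem_Icc] at c1; exact c1
        rw [e4]
        by_cases c2 : i - 1 ∈ Icc 1 (d / 2 + 1)
        · rw [if_pos c2]; ring
        · rw [if_neg c2]
          have : pc (vec s (univ.map x)) (i - 1) = 0 := by
            unfold pc
            rw [dif_neg]
            rw [mem_Icc] at c2; exact c2
          rw [this]; ring
    rw [e2] at h3
    linarith

theorem system_of_mem {s d : ℕ} (hs : d + 2 ≤ s)
    {v : Fin (s / 2) ⊕ Fin (d / 2 + 1) → ℝ} (hv : v ∈ V s d) : System s d v := by
  obtain ⟨S, hS, hgp, rfl⟩ := hv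
  obtain ⟨x, rfl⟩ := exists_family S hS
  obtain ⟨h1, h2, h3, h4, h5, h6⟩ := system_of_family hs x hgp
  refine ⟨h1, h2, h3, h4, h5, h6, ?_⟩
  intro hd i hi
  subst hd
  -- sort the points
  set σ := Tuple.sort (fun i => x i 0) with hσ
  set x' : Fin s ↪ E 1 := σ.toEmbedding.trans x with hx'
  have hmap : univ.map x' = univ.map x := by
    rw [hx', ← map_map]
    congr 1
    ext i
    simp
  have hmono : StrictMono (fun i => x' i 0) := by
    apply Monotone.strictMono_of_injective
    · exact Tuple.monotone_sort (fun i => x i 0)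
    · intro i j hij
      apply x'.injective
      ext k
      have hk : k = 0 := Subsingleton.elim _ _
      subst hk
      exact hij
  obtain ⟨m, hm⟩ : ∃ m, m + (1 + 1) = s := ⟨s - 2, by omega⟩
  have hL : Unif (dep (hom x')) m := unif_of_gp (by rw [hmap]; exact hgp) (by
    rw [Fintype.card_fin]; exact hm)
  have h7 := radon_d1 hmono hL (mem_Icc.mp hi).1 (mem_Icc.mp hi).2
  rw [rc_vec _ hi, ← hmap]
  exact h7

end Pool.Agent.Work.MP_620441_co
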