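import Mathlib

set_option autoImplicit false

namespace Pool.Agent.Work.MP_620441_co

/-- Solution of the mutation equations in the generic case. -/
theorem solve_gen {s d m : ℕ} (hs : s = m + d + 1) (hm : 3 ≤ m) (hd : 2 ≤ d) (a b : ℕ → ℝ)
    (Ha : ∀ i ≤ s, a (s - i) = a i)
    (Hstar : ∀ j p q : ℕ, 1 ≤ j → j ≤ d → p + q = m →
      a (j + q) - a (j + p) = ((p : ℝ) - q) * (b (j + 1) - b j)) :
    ∃ A B K C : ℝ, (¬ (Even s ∧ Odd d) → C = 0) ∧
      (∀ i : ℕ, 1 ≤ i → i + 1 ≤ s → a i = A + K * (i * ((s : ℝ) - i)) + C * (-1) ^ i) ∧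
      (∀ i : ℕ, 1 ≤ i → i ≤ d + 1 → b i = B - K * (i * ((d : ℝ) + 2 - i))) := by
  set c : ℕ → ℝ := fun i => a (i + 1) - a i with hc
  set e : ℕ → ℝ := fun i => c (i + 1) - c i with he
  have H1 : ∀ j p : ℕ, 1 ≤ j → j ≤ d → p + 1 ≤ m →
      c (j + p) + c (j + (m - 1 - p)) = -2 * (b (j + 1) - b j) := by
    intro j p hj hjd hp
    have h1 := Hstar j p (m - p) hj hjd (by omega)
    have h2 := Hstar j (p + 1) (m - 1 - p) hj hjd (by omega)
    have e1 : j + (m - 1 - p) + 1 = j + (m - p) := by omega
    have e2 : j + p + 1 = j + (p + 1) := by omega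
    have e3 : ((m - p : ℕ) : ℝ) = (m : ℝ) - p := by
      rw [Nat.cast_sub (by omega)]
    have e4 : ((m - 1 - p : ℕ) : ℝ) = (m : ℝ) - 1 - p := by
      rw [Nat.cast_sub (by omega), Nat.cast_sub (by omega)]; simp
    simp only [hc]
    rw [e1, e2]
    rw [e3] at h1
    rw [e4] at h2
    push_cast at h1 h2
    linear_combination h1 - h2
  have H2 : ∀ j p : ℕ, 1 ≤ j → j ≤ d → p + 2 ≤ m → e (j + p) = e (j + (m - 2 - p)) := by
    intro j p hj hjd hp
    have h1 := H1 j p hj hjd (by omega)
    have h2 := H1 j (p + 1) hj hjd (by omega)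
    have e1 : j + (m - 2 - p) + 1 = j + (m - 1 - p) := by omega
    have e2 : m - 1 - (p + 1) = m - 2 - p := by omega
    have e3 : j + (p + 1) = j + p + 1 := by omega
    rw [e2, e3] at h2
    simp only [he]
    rw [e1]
    linarith
  have H3 : ∀ i : ℕ, 1 ≤ i → i + 5 ≤ s → e i = e (i + 2) := by
    intro i hi his
    obtain ⟨j, p, hj, hjd, hp, hjp⟩ : ∃ j p, 1 ≤ j ∧ j + 1 ≤ d ∧ p + 3 ≤ m ∧ j + p = i := by
      rcases Nat.lt_or_ge (i - 1) (m - 3) with h | h
      · exact ⟨1, i - 1, by omega, by omega, by omega, by omega⟩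
      · exact ⟨i - (m - 3), m - 3, by omega, by omega, by omega, by omega⟩
    have h1 := H2 j p hj (by omega) (by omega)
    have h2 := H2 (j + 1) (m - 3 - p) (by omega) (by omega) (by omega)
    have e1 : j + 1 + (m - 3 - p) = j + (m - 2 - p) := by omega
    have e2 : j + 1 + (m - 2 - (m - 3 - p)) = j + p + 2 := by omega
    rw [e1, e2] at h2
    rw [← hjp, h1, h2]
  have H4 : ∀ i : ℕ, 1 ≤ i → i + 3 ≤ s → e i = if Odd i then e 1 else e 2 := by
    intro i
    induction i using Nat.strong_induction_on with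
    | _ i ih =>
      intro hi his
      rcases Nat.lt_or_ge i 3 with h | h
      · interval_cases i
        · simp
        · rw [if_neg (by decide)]
      · have h1 := H3 (i - 2) (by omega) (by omega)
        have e1 : i - 2 + 2 = i := by omega
        rw [e1] at h1
        rw [← h1, ih (i - 2) (by omega) (by omega) (by omega)]
        have : Odd (i - 2) ↔ Odd i := by
          rw [Nat.odd_sub (by omega)]
          simp
        simp only [this]
  have H5 : ¬ (Even s ∧ Odd d) → e 1 = e 2 := by
    intro hnot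
    by_cases hse : Even s
    · -- d even, m odd
      have hde : ¬ Odd d := fun h => hnot ⟨hse, h⟩
      rw [Nat.not_odd_iff_even] at hde
      have hmo : Odd m := by
        rw [hs] at hse
        by_contra hme
        rw [Nat.not_odd_iff_even] at hme
        have : Odd (m + d + 1) := (hme.add hde).add_one
        exact (Nat.not_even_iff_odd.mpr this) hse
      have h1 := H2 1 0 (by omega) (by omega) (by omega)
      have h2 := H4 (1 + (m - 2 - 0)) (by omega) (by omega)
      have e1 : 1 + (m - 2 - 0) = m - 1 := by omega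
      rw [e1] at h1 h2
      have h3 : ¬ Odd (m - 1) := by
        rw [Nat.not_odd_iff_even]
        exact Nat.Odd.sub_odd hmo odd_one
      rw [if_neg h3] at h2
      rw [← h2, ← h1]
    · rw [Nat.not_even_iff_odd] at hse
      -- symmetry
      have hc1 : c (s - 2) = - c 1 := by
        simp only [hc]
        have h1 := Ha 1 (by omega)
        have h2 := Ha 2 (by omega)
        have e1 : s - 2 + 1 = s - 1 := by omega
        rw [e1, h1, h2]; ring
      have hc2 : c (s - 3) = - c 2 := by
        simp only [hc]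
        have h1 := Ha 2 (by omega)
        have h2 := Ha 3 (by omega)
        have e1 : s - 3 + 1 = s - 2 := by omega
        rw [e1, h1, h2]; ring
      have h1 : e (s - 3) = e 1 := by
        simp only [he]
        have e1 : s - 3 + 1 = s - 2 := by omega
        rw [e1, hc1, hc2]; ring
      have h2 := H4 (s - 3) (by omega) (by omega)
      have h3 : ¬ Odd (s - 3) := by
        rw [Nat.not_odd_iff_even]
        exact Nat.Odd.sub_odd hse (by decide)
      rw [if_neg h3] at h2
      rw [← h1, h2]
  set K : ℝ := -(e 1 + e 2) / 4 with hK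
  set C : ℝ := (e 2 - e 1) / 8 with hC
  set γ : ℕ → ℝ := fun i => a i - K * (i * ((s : ℝ) - i)) - C * (-1) ^ i with hγ
  have hC0 : ¬ (Even s ∧ Odd d) → C = 0 := by
    intro h
    rw [hC, H5 h]; ring
  have H6 : ∀ i : ℕ, 1 ≤ i → i + 3 ≤ s → γ (i + 2) - γ (i + 1) = γ (i + 1) - γ i := by
    intro i hi his
    have h1 := H4 i hi his
    have h2 : e i = a (i + 2) - 2 * a (i + 1) + a i := by
      simp only [he, hc]; ring
    simp only [hγ]
    push_cast
    have h3 : (-1 : ℝ) ^ (i + 2) = (-1) ^ i := by rw [pow_add]; norm_num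
    have h4 : (-1 : ℝ) ^ (i + 1) = - (-1) ^ i := by rw [pow_succ]; ring
    rw [h3, h4]
    rw [h2] at h1
    by_cases ho : Odd i
    · rw [if_pos ho] at h1
      rw [ho.neg_one_pow]
      rw [hK, hC]
      linear_combination h1
    · rw [if_neg ho] at h1
      rw [Nat.not_odd_iff_even] at ho
      rw [ho.neg_one_pow]
      rw [hK, hC]
      linear_combination h1
  have H7 : ∀ i : ℕ, 1 ≤ i → i + 2 ≤ s → γ (i + 1) - γ i = γ 2 - γ 1 := by
    intro i
    induction i with
    | zero => intro h; omega
    | succ i ih =>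
      intro _ his
      rcases Nat.eq_zero_or_pos i with h | h
      · subst h; rfl
      · rw [← ih h (by omega), ← H6 i h (by omega)]
  have H8 : ∀ i : ℕ, 1 ≤ i → i + 1 ≤ s → γ i = γ 1 + ((i : ℝ) - 1) * (γ 2 - γ 1) := by
    intro i
    induction i with
    | zero => intro h; omega
    | succ i ih =>
      intro _ his
      rcases Nat.eq_zero_or_pos i with h | h
      · subst h; simp
      · have h1 := ih h (by omega)
        have h2 := H7 i h (by omega)
        push_cast
        linear_combination h1 + h2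
  have H9 : γ 2 - γ 1 = 0 := by
    have h1 := H8 (s - 1) (by omega) (by omega)
    have h2 : γ (s - 1) = γ 1 := by
      simp only [hγ]
      rw [Ha 1 (by omega)]
      have e1 : ((s - 1 : ℕ) : ℝ) = (s : ℝ) - 1 := by
        rw [Nat.cast_sub (by omega)]; simp
      rw [e1]
      have e2 : C * (-1 : ℝ) ^ (s - 1) = C * (-1) ^ 1 := by
        by_cases h : Even s
        · congr 1
          have : Odd (s - 1) := Nat.Even.sub_odd (by omega) h odd_one
          rw [this.neg_one_pow]; norm_num
        · rw [hC0 (fun hh => h hh.1)]; ring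
      rw [e2]
      push_cast
      ring
    rw [h2] at h1
    have e1 : ((s - 1 : ℕ) : ℝ) = (s : ℝ) - 1 := by
      rw [Nat.cast_sub (by omega)]; simp
    rw [e1] at h1
    have h3 : ((s : ℝ) - 1 - 1) * (γ 2 - γ 1) = 0 := by linarith
    rcases mul_eq_zero.mp h3 with h4 | h4
    · exfalso
      have : (6 : ℝ) ≤ s := by
        have : 6 ≤ s := by omega
        exact_mod_cast this
      linarith
    · exact h4
  have H10 : ∀ i : ℕ, 1 ≤ i → i + 1 ≤ s → a i = γ 1 + K * (i * ((s : ℝ) - i)) + C * (-1) ^ i := by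
    intro i hi his
    have h1 := H8 i hi his
    rw [H9, mul_zero, add_zero] at h1
    rw [← h1]
    simp only [hγ]
    ring
  have hsr : (s : ℝ) = m + d + 1 := by rw [hs]; push_cast; ring
  clear H6 H7 H8 H9
  clear_value K C γ
  have H11 : ∀ j : ℕ, 1 ≤ j → j ≤ d → b (j + 1) - b j = - K * ((d : ℝ) + 1 - 2 * j) := by
    intro j hj hjd
    have h1 := H1 j 0 hj hjd (by omega)
    simp only [add_zero, Nat.sub_zero, hc] at h1
    have e1 : j + (m - 1) + 1 = j + m := by omega
    rw [e1] at h1
    rw [H10 (j + 1) (by omega) (by omega), H10 j hj (by omega), H10 (j + m) (by omega) (by omega),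
      H10 (j + (m - 1)) (by omega) (by omega)] at h1
    have e2 : ((j + (m - 1) : ℕ) : ℝ) = (j : ℝ) + m - 1 := by
      push_cast
      rw [Nat.cast_sub (by omega)]; push_cast; ring
    rw [e2] at h1
    push_cast at h1
    have e3 : C * (-1 : ℝ) ^ (j + 1) - C * (-1) ^ j + (C * (-1) ^ (j + m) - C * (-1) ^ (j + (m - 1))) = 0 := by
      by_cases h : Even s ∧ Odd d
      · have hme : Even m := by
          have h2 := h.1
          rw [hs, Nat.even_add_one, Nat.not_even_iff_odd, Nat.odd_add] at h2
          have h3 : ¬ Even d := Nat.not_even_iff_odd.mpr h.2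
          by_contra h4
          rw [Nat.not_even_iff_odd] at h4
          exact h3 (h2.mp h4)
        have h4 : (-1 : ℝ) ^ (j + m) = (-1) ^ j := by rw [pow_add, hme.neg_one_pow, mul_one]
        have h5 : (-1 : ℝ) ^ (j + (m - 1)) = - (-1) ^ j := by
          have : Odd (m - 1) := Nat.Even.sub_odd (by omega) hme odd_one
          rw [pow_add, this.neg_one_pow]; ring
        rw [h4, h5, pow_succ]; ring
      · rw [hC0 h]; ring
    rw [hsr] at h1
    linear_combination (1/2) * h1 - (1/2) * e3
  refine ⟨γ 1, b 1 + K * (d + 1), K, C, hC0, H10, ?_⟩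
  intro i
  induction i with
  | zero => intro h; omega
  | succ i ih =>
    intro _ hid
    rcases Nat.eq_zero_or_pos i with h | h
    · subst h; push_cast; ring
    · have h1 := ih h (by omega)
      have h2 := H11 i h (by omega)
      push_cast
      linear_combination h1 + h2

/-- `m = 1`. -/
theorem solve_one {d : ℕ} (a b : ℕ → ℝ)
    (Hstar : ∀ j p q : ℕ, 1 ≤ j → j ≤ d → p + q = 1 →
      a (j + q) - a (j + p) = ((p : ℝ) - q) * (b (j + 1) - b j)) :
    ∀ i : ℕ, 1 ≤ i → i ≤ d + 1 → a i + b i = a 1 + b 1 := by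
  intro i
  induction i with
  | zero => intro h; omega
  | succ i ih =>
    intro _ hid
    rcases Nat.eq_zero_or_pos i with h | h
    · subst h; rfl
    · have h1 := ih h (by omega)
      have h2 := Hstar i 0 1 h (by omega) rfl
      simp only [add_zero, Nat.cast_zero, Nat.cast_one] at h2
      linear_combination h1 + h2

/-- `m = 2`. -/
theorem solve_two {d : ℕ} (a b : ℕ → ℝ)
    (Hstar : ∀ j p q : ℕ, 1 ≤ j → j ≤ d → p + q = 2 →
      a (j + q) - a (j + p) = ((p : ℝ) - q) * (b (j + 1) - b j)) :
    ∀ i : ℕ, 1 ≤ i → i ≤ d + 1 → a i + a (i + 1) + 2 * b i = a 1 + a 2 + 2 * b 1 := by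
  intro i
  induction i with
  | zero => intro h; omega
  | succ i ih =>
    intro _ hid
    rcases Nat.eq_zero_or_pos i with h | h
    · subst h; rfl
    · have h1 := ih h (by omega)
      have h2 := Hstar i 0 2 h (by omega) rfl
      simp only [add_zero] at h2
      push_cast at h2
      have e : i + 1 + 1 = i + 2 := by ring
      rw [e]
      linear_combination h1 + h2

end Pool.Agent.Work.MP_620441_co
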