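import Mathlib
import Pool.Agent.Work.MP_620441_co.Hold
import Pool.Agent.Work.MP_620441_co.Solve
import Pool.Agent.Work.MP_620441_co.Config2

set_option autoImplicit false
set_option linter.unusedSectionVars false

namespace Pool.Agent.Work.MP_620441_co

open Finset

variable {s d : ℕ}

lemma rc_lin (c : ℝ) (u v w : Fin (s / 2) ⊕ Fin (d / 2 + 1) → ℝ) (i : ℕ) :
    rc (c • (u - v) + w) i = c * (rc u i - rc v i) + rc w i := by
  unfold rc
  split_ifs <;> simp

lemma pc_lin (c : ℝ) (u v w : Fin (s / 2) ⊕ Fin (d / 2 + 1) → ℝ) (i : ℕ) :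
    pc (c • (u - v) + w) i = c * (pc u i - pc v i) + pc w i := by
  unfold pc
  split_ifs <;> simp

lemma sum_rc_lin (c : ℝ) (u v w : Fin (s / 2) ⊕ Fin (d / 2 + 1) → ℝ) (f : ℕ → ℝ)
    (A : Finset ℕ) :
    ∑ i ∈ A, f i * rc (c • (u - v) + w) i
      = c * (∑ i ∈ A, f i * rc u i - ∑ i ∈ A, f i * rc v i) + ∑ i ∈ A, f i * rc w i := by
  rw [← sum_sub_distrib, mul_sum, ← sum_add_distrib]
  apply sum_congr rfl
  intro i _
  rw [rc_lin]; ring

lemma sum_pc_lin (c : ℝ) (u v w : Fin (s / 2) ⊕ Fin (d / 2 + 1) → ℝ) (f : ℕ → ℝ)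
    (A : Finset ℕ) :
    ∑ i ∈ A, f i * pc (c • (u - v) + w) i
      = c * (∑ i ∈ A, f i * pc u i - ∑ i ∈ A, f i * pc v i) + ∑ i ∈ A, f i * pc w i := by
  rw [← sum_sub_distrib, mul_sum, ← sum_add_distrib]
  apply sum_congr rfl
  intro i _
  rw [pc_lin]; ring

lemma System.comb {u v w : Fin (s / 2) ⊕ Fin (d / 2 + 1) → ℝ} (hu : System s d u)
    (hv : System s d v) (hw : System s d w) (c : ℝ) : System s d (c • (u - v) + w) where
  sumP := by
    have h := sum_pc_lin c u v w (fun _ => 1) (Icc 1 (d / 2 + 1))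
    simp only [one_mul] at h
    rw [h, hu.sumP, hv.sumP, hw.sumP]; ring
  sumR := by
    have h := sum_rc_lin c u v w (fun _ => 1) (Icc 1 (s / 2))
    simp only [one_mul] at h
    rw [h, hu.sumR, hv.sumR, hw.sumR]; ring
  quad := by
    have h1 := sum_rc_lin c u v w (fun i => (i : ℝ) * ((s : ℝ) - i)) (Icc 1 (s / 2))
    have h2 := sum_pc_lin c u v w (fun i => (i : ℝ) * ((d : ℝ) + 2 - i)) (Icc 1 (d / 2 + 1))
    rw [h1, h2]
    linear_combination c * (hu.quad - hv.quad) + hw.quad
  alt := by
    intro h1 h2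
    rw [sum_rc_lin, hu.alt h1 h2, hv.alt h1 h2, hw.alt h1 h2]; ring
  eq2 := by
    intro h i hi
    rw [rc_lin, pc_lin, hu.eq2 h i hi, hv.eq2 h i hi, hw.eq2 h i hi]
  eq3 := by
    intro h i hi
    rw [rc_lin, pc_lin, pc_lin]
    linear_combination c * (hu.eq3 h i hi - hv.eq3 h i hi) + hw.eq3 h i hi
  eq1 := by
    intro h i hi
    rw [rc_lin]
    linear_combination c * (hu.eq1 h i hi - hv.eq1 h i hi) + hw.eq1 h i hi

lemma mem_affineSpan_of_forall {X : Type*} [AddCommGroup X] [Module ℝ X] {W : Set X} {v₀ p : X}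
    (hv₀ : v₀ ∈ W) (h : ∀ g : X →ₗ[ℝ] ℝ, (∀ v ∈ W, g v = g v₀) → g p = g v₀) :
    p ∈ affineSpan ℝ W := by
  by_contra hp
  have h1 : p - v₀ ∉ vectorSpan ℝ W := by
    intro h2
    apply hp
    rw [← direction_affineSpan] at h2
    have h3 := (AffineSubspace.vsub_right_mem_direction_iff_mem
      (mem_affineSpan ℝ hv₀) p).mp (by rwa [vsub_eq_sub])
    exact h3
  obtain ⟨g, hg1, hg2⟩ := Submodule.exists_le_ker_of_notMem h1
  apply hg1
  rw [map_sub, sub_eq_zero]
  apply h g
  intro v hv
  have := hg2 (vsub_mem_vectorSpan ℝ hv hv₀)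
  rw [LinearMap.mem_ker, vsub_eq_sub, map_sub, sub_eq_zero] at this
  exact this

lemma sum_fin_Icc (n : ℕ) (F : ℕ → ℝ) : ∑ i : Fin n, F (i.1 + 1) = ∑ i ∈ Icc 1 n, F i := by
  rw [Fin.sum_univ_eq_sum_range (fun i => F (i + 1)) n]
  rw [range_eq_Ico, sum_Ico_add' (fun i => F i) 0 n 1]
  apply sum_congr _ (fun _ _ => rfl)
  ext i; simp only [mem_Ico, mem_Icc]; omega

/-- coefficients of a functional -/
noncomputable def al (g : (Fin (s / 2) ⊕ Fin (d / 2 + 1) → ℝ) →ₗ[ℝ] ℝ) (i : ℕ) : ℝ :=
  if h : 1 ≤ i ∧ i ≤ s / 2 then g (Pi.single (Sum.inl ⟨i - 1, by omega⟩) 1) else 0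

noncomputable def be (g : (Fin (s / 2) ⊕ Fin (d / 2 + 1) → ℝ) →ₗ[ℝ] ℝ) (i : ℕ) : ℝ :=
  if h : 1 ≤ i ∧ i ≤ d / 2 + 1 then g (Pi.single (Sum.inr ⟨i - 1, by omega⟩) 1) else 0

lemma functional_eq (g : (Fin (s / 2) ⊕ Fin (d / 2 + 1) → ℝ) →ₗ[ℝ] ℝ)
    (v : Fin (s / 2) ⊕ Fin (d / 2 + 1) → ℝ) :
    g v = ∑ i ∈ Icc 1 (s / 2), al g i * rc v i + ∑ i ∈ Icc 1 (d / 2 + 1), be g i * pc v i := by
  rw [LinearMap.pi_apply_eq_sum_univ g v, Fintype.sum_sum_type]
  rw [← sum_fin_Icc, ← sum_fin_Icc]
  congr 1
  · apply sum_congr rfl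
    intro i _
    have hi : 1 ≤ i.1 + 1 ∧ i.1 + 1 ≤ s / 2 := ⟨by omega, i.2⟩
    unfold al rc
    rw [dif_pos hi, dif_pos hi]
    simp only [Nat.add_sub_cancel, Fin.eta, smul_eq_mul]
    rw [mul_comm]
    congr 2
    funext j
    simp [Pi.single_apply, eq_comm]
  · apply sum_congr rfl
    intro i _
    have hi : 1 ≤ i.1 + 1 ∧ i.1 + 1 ≤ d / 2 + 1 := ⟨by omega, i.2⟩
    unfold be pc
    rw [dif_pos hi, dif_pos hi]
    simp only [Nat.add_sub_cancel, Fin.eta, smul_eq_mul]
    rw [mul_comm]
    congr 2
    funext j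
    simp [Pi.single_apply, eq_comm]

lemma card_Idx (d p q : ℕ) : Fintype.card (Idx d p q) = p + q + (d + 1) := by
  simp [Idx, Kap]; ring

/-- The equations coming from mutations. -/
lemma star_of_const (hd : 1 ≤ d) {m : ℕ} (hm : 0 < m) (hs : m + (d + 1) = s)
    (g : (Fin (s / 2) ⊕ Fin (d / 2 + 1) → ℝ) →ₗ[ℝ] ℝ) {c : ℝ} (hg : ∀ v ∈ V s d, g v = c)
    (j p q : ℕ) (hj : 1 ≤ j) (hjd : j ≤ d) (hpq : p + q = m) :
    al g (min (j + q) (s - (j + q))) - al g (min (j + p) (s - (j + p)))
      = ((p : ℝ) - q) * (be g (min (j + 1) (d + 2 - (j + 1))) - be g (min j (d + 2 - j))) := by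
  obtain ⟨x₁, x₂, g1, g2, hM⟩ := exists_pair d p q j hd hj hjd (by omega)
  have hcI : Fintype.card (Idx d p q) = s := by rw [card_Idx]; omega
  have hmI : m + (d + 1) = Fintype.card (Idx d p q) := by rw [hcI]; exact hs
  have v1 : vec s (univ.map x₁) ∈ V s d := ⟨_, by rw [card_map, card_univ, hcI], g1, rfl⟩
  have v2 : vec s (univ.map x₂) ∈ V s d := ⟨_, by rw [card_map, card_univ, hcI], g2, rfl⟩
  rw [hpq] at hM
  have e1 := hg _ v1
  have e2 := hg _ v2
  rw [functional_eq] at e1 e2
  have a1 := sum_rc hM.uni₁ hcI (al g)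
  have a2 := sum_rc hM.uni₂ hcI (al g)
  have b1 := sum_pc (s := s) hM.uni₁ hmI hm (be g)
  have b2 := sum_pc (s := s) hM.uni₂ hmI hm (be g)
  have t := hM.topeSum_diff (fun i => al g (min i (s - i)))
  have u := hM.circSum_diff (fun i => be g (min i (d + 2 - i)))
  rw [card_cP0 _ _ _ _ hj hjd, card_cAp, card_cAm, hcI] at t
  rw [card_cP0 _ _ _ _ hj hjd, card_cAp, card_cAm, card_cQ0 _ _ _ _ hj hjd] at u
  have s1 : min (s - (j + p)) (s - (s - (j + p))) = min (j + p) (s - (j + p)) := by omega
  have s2 : min (s - (j + q)) (s - (s - (j + q))) = min (j + q) (s - (j + q)) := by omega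
  have s3 : min (d + 1 - j) (d + 2 - (d + 1 - j)) = min (j + 1) (d + 2 - (j + 1)) := by omega
  have s4 : min (d + 1 - j + 1) (d + 2 - (d + 1 - j + 1)) = min j (d + 2 - j) := by omega
  rw [s1, s2] at t
  rw [s3, s4] at u
  linear_combination (-1/2) * t + (1/2) * u - (1/2) * a1 + (1/2) * a2 - (1/2) * b1 + (1/2) * b2
    + e1 - e2

lemma V_nonempty (hd : 1 ≤ d) (hs : d + 2 ≤ s) : (V s d).Nonempty := by
  obtain ⟨x₁, x₂, g1, g2, hM⟩ := exists_pair d (s - (d + 1)) 0 1 hd le_rfl hd (by omega)
  refine ⟨_, _, ?_, g1, rfl⟩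
  rw [card_map, card_univ, card_Idx]
  omega

theorem affineSpan_V (hd : 1 ≤ d) (hs : d + 2 ≤ s) :
    (affineSpan ℝ (V s d) : Set (Fin (s / 2) ⊕ Fin (d / 2 + 1) → ℝ)) = {v | System s d v} := by
  apply Set.Subset.antisymm
  · intro v hv
    refine affineSpan_induction (p := fun v => System s d v) hv
      (fun v hv => system_of_mem hs hv) ?_
    intro c u v w hu hv hw
    exact hu.comb hv hw c
  · intro p hp
    obtain ⟨v₀, hv₀⟩ := V_nonempty hd hs
    have hS₀ := system_of_mem hs hv₀
    have hp : System s d p := hp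
    apply mem_affineSpan_of_forall hv₀
    intro g hg
    obtain ⟨m, hm⟩ : ∃ m, m + (d + 1) = s := ⟨s - (d + 1), by omega⟩
    have hm0 : 0 < m := by omega
    have hstar := star_of_const hd hm0 hm g hg
    by_cases hd1 : d = 1
    · -- everything is determined
      subst hd1
      congr 1
      funext k
      rcases k with (k | k)
      · have hk : k.1 + 1 ∈ Icc 1 (s / 2) := by rw [mem_Icc]; exact ⟨by omega, k.2⟩
        have h1 := hp.eq1 rfl _ hk
        have h2 := hS₀.eq1 rfl _ hk
        rw [← h2] at h1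
        have h3 : rc p (k.1 + 1) = rc v₀ (k.1 + 1) := by
          split_ifs at h1 <;> linarith
        rw [mem_Icc] at hk
        unfold rc at h3
        rw [dif_pos hk, dif_pos hk] at h3
        simpa using h3
      · have h1 := hp.sumP
        have h2 := hS₀.sumP
        rw [← h2] at h1
        have hk0 : k = ⟨0, by omega⟩ := by
          have := k.2
          ext
          simp only
          omega
        subst hk0
        simp only [Nat.reduceDiv, zero_add, Icc_self, sum_singleton] at h1
        unfold pc at h1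
        simpa using h1
    rw [functional_eq g p, functional_eq g v₀]
    rcases Nat.lt_or_ge m 3 with hm3 | hm3
    · rcases Nat.lt_or_ge m 2 with hm2 | hm2
      · -- m = 1
        have hm1 : m = 1 := by omega
        subst hm1
        have hsd : s = d + 2 := by omega
        have hsol := solve_one (d := d) (fun i => al g (min i (s - i)))
          (fun i => be g (min i (d + 2 - i))) (by
            intro j p q hj hjd hpq
            exact hstar j p q hj hjd hpq)
        set κ := al g (min 1 (s - 1)) + be g (min 1 (d + 2 - 1)) with hκ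
        have key : ∀ v : Fin (s / 2) ⊕ Fin (d / 2 + 1) → ℝ, System s d v →
            ∑ i ∈ Icc 1 (s / 2), al g i * rc v i + ∑ i ∈ Icc 1 (d / 2 + 1), be g i * pc v i
            = κ * (s.choose (d + 2) : ℝ) := by
          intro v hv
          have e0 : Icc 1 (s / 2) = Icc 1 (d / 2 + 1) := by
            congr 1; omega
          rw [← hv.sumP, mul_sum, e0, ← sum_add_distrib]
          apply sum_congr rfl
          intro i hi
          rw [hv.eq2 hsd i (by rw [e0]; exact hi)]
          rw [mem_Icc] at hi
          have h1 := hsol i hi.1 (by omega)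
          have a1 : min i (s - i) = i := by omega
          have a2 : min i (d + 2 - i) = i := by omega
          rw [a1, a2] at h1
          rw [← add_mul, h1]
        rw [key p hp, key v₀ hS₀]
      · -- m = 2
        have hm2' : m = 2 := by omega
        subst hm2'
        have hsd : s = d + 3 := by omega
        have hsol := solve_two (d := d) (fun i => al g (min i (s - i)))
          (fun i => be g (min i (d + 2 - i))) (by
            intro j p q hj hjd hpq
            exact hstar j p q hj hjd hpq)
        set κ := al g (min 1 (s - 1)) + al g (min 2 (s - 2)) + 2 * be g (min 1 (d + 2 - 1)) with hκ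
        have key : ∀ v : Fin (s / 2) ⊕ Fin (d / 2 + 1) → ℝ, System s d v →
            2 * (∑ i ∈ Icc 1 (s / 2), al g i * rc v i + ∑ i ∈ Icc 1 (d / 2 + 1), be g i * pc v i)
            = κ * (s.choose (d + 2) : ℝ) := by
          intro v hv
          have hpc0 : pc v 0 = 0 := by unfold pc; rw [dif_neg (by omega)]
          have hpcbig : ∀ i, d / 2 + 1 < i → pc v i = 0 := by
            intro i hi; unfold pc; rw [dif_neg (by omega)]
          have halbig : ∀ i, s / 2 < i → al g i = 0 := by
            intro i hi; unfold al; rw [dif_neg (by omega)]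
          have h1 : 2 * ∑ i ∈ Icc 1 (s / 2), al g i * rc v i
              = ∑ i ∈ Icc 1 (s / 2), al g i * pc v (i - 1)
                + ∑ i ∈ Icc 1 (s / 2), (if 2 * i = d + 2 then 2 else 1) * (al g i * pc v i) := by
            rw [mul_sum, ← sum_add_distrib]
            apply sum_congr rfl
            intro i hi
            have := hv.eq3 hsd i hi
            linear_combination (al g i) * this
          have h2 : ∑ i ∈ Icc 1 (s / 2), al g i * pc v (i - 1)
              = ∑ i ∈ Icc 1 (d / 2 + 1), al g (i + 1) * pc v i := by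
            have e1 : ∑ i ∈ Icc 1 (s / 2), al g i * pc v (i - 1)
                = ∑ i ∈ range (d / 2 + 2), al g (i + 1) * pc v i := by
              have : ∑ i ∈ Icc 1 (d / 2 + 2), al g i * pc v (i - 1)
                  = ∑ i ∈ range (d / 2 + 2), al g (i + 1) * pc v i := by
                have h9 := sum_Ico_add' (fun i => al g i * pc v (i - 1)) 0 (d / 2 + 2) 1
                simp only [Nat.add_sub_cancel] at h9
                rw [range_eq_Ico, h9]
                apply sum_congr _ (fun _ _ => rfl)
                ext i; simp only [mem_Ico, mem_Icc]; omega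
              rw [← this]
              apply sum_subset
              · intro i hi; rw [mem_Icc] at hi ⊢; omega
              · intro i hi hi'
                rw [mem_Icc] at hi hi'
                rw [halbig i (by omega), zero_mul]
            rw [e1]
            symm
            apply sum_subset
            · intro i hi; rw [mem_Icc] at hi; rw [mem_range]; omega
            · intro i hi hi'
              rw [mem_range] at hi
              rw [mem_Icc] at hi'
              have : i = 0 := by omega
              rw [this, hpc0, mul_zero]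
          have h3 : ∑ i ∈ Icc 1 (s / 2), (if 2 * i = d + 2 then 2 else 1) * (al g i * pc v i)
              = ∑ i ∈ Icc 1 (d / 2 + 1), (if 2 * i = d + 2 then 2 else 1) * (al g i * pc v i) := by
            symm
            apply sum_subset
            · intro i hi; rw [mem_Icc] at hi ⊢; omega
            · intro i hi hi'
              rw [mem_Icc] at hi hi'
              rw [hpcbig i (by omega), mul_zero, mul_zero]
          rw [mul_add, h1, h2, h3, mul_sum, ← sum_add_distrib, ← sum_add_distrib, ← hv.sumP, mul_sum]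
          apply sum_congr rfl
          intro i hi
          rw [mem_Icc] at hi
          have h4 := hsol i hi.1 (by omega)
          have a1 : min i (s - i) = i := by omega
          have a2 : min i (d + 2 - i) = i := by omega
          rw [a1, a2] at h4
          by_cases hi2 : 2 * i = d + 2
          · have a3 : min (i + 1) (s - (i + 1)) = i := by omega
            rw [a3] at h4
            rw [if_pos hi2, halbig (i + 1) (by omega), ← hκ] at *
            linear_combination (pc v i) * h4
          · have a3 : min (i + 1) (s - (i + 1)) = i + 1 := by omega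
            rw [a3] at h4
            rw [if_neg hi2]
            linear_combination (pc v i) * h4
        have k1 := key p hp
        have k2 := key v₀ hS₀
        linarith
    · -- generic case
      obtain ⟨A, B, K, C, hC0, hA, hB⟩ := solve_gen (s := s) (d := d) (m := m) (by omega) hm3
        (by omega) (fun i => al g (min i (s - i))) (fun i => be g (min i (d + 2 - i))) (by
          intro i hi
          show al g (min (s - i) (s - (s - i))) = al g (min i (s - i))
          congr 1
          omega) (by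
          intro j p q hj hjd hpq
          exact hstar j p q hj hjd hpq)
      have key : ∀ v : Fin (s / 2) ⊕ Fin (d / 2 + 1) → ℝ, System s d v →
          ∑ i ∈ Icc 1 (s / 2), al g i * rc v i + ∑ i ∈ Icc 1 (d / 2 + 1), be g i * pc v i
          = A * (2 ^ (s - 1) - ∑ k ∈ range (d + 1), ((s - 1).choose k : ℝ))
            + B * (s.choose (d + 2) : ℝ)
            + K * ((s.choose 2 : ℝ) * ∑ k ∈ range (s - d - 2), ((s - 2).choose k : ℝ)) := by
        intro v hv
        have h1 : ∑ i ∈ Icc 1 (s / 2), al g i * rc v i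
            = A * ∑ i ∈ Icc 1 (s / 2), rc v i
              + K * ∑ i ∈ Icc 1 (s / 2), (i : ℝ) * ((s : ℝ) - i) * rc v i
              + C * ∑ i ∈ Icc 1 (s / 2), (-1 : ℝ) ^ i * rc v i := by
          rw [mul_sum, mul_sum, mul_sum, ← sum_add_distrib, ← sum_add_distrib]
          apply sum_congr rfl
          intro i hi
          rw [mem_Icc] at hi
          have h2 := hA i hi.1 (by omega)
          have a1 : min i (s - i) = i := by omega
          rw [a1] at h2
          rw [h2]; ring
        have h2 : ∑ i ∈ Icc 1 (d / 2 + 1), be g i * pc v i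
            = B * ∑ i ∈ Icc 1 (d / 2 + 1), pc v i
              - K * ∑ i ∈ Icc 1 (d / 2 + 1), (i : ℝ) * ((d : ℝ) + 2 - i) * pc v i := by
          rw [mul_sum, mul_sum, ← sum_sub_distrib]
          apply sum_congr rfl
          intro i hi
          rw [mem_Icc] at hi
          have h2 := hB i hi.1 (by omega)
          have a1 : min i (d + 2 - i) = i := by omega
          rw [a1] at h2
          rw [h2]; ring
        have h3 : C * ∑ i ∈ Icc 1 (s / 2), (-1 : ℝ) ^ i * rc v i = 0 := by
          by_cases h : Even s ∧ Odd d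
          · rw [hv.alt h.1 h.2, mul_zero]
          · rw [hC0 h, zero_mul]
        rw [h1, h2, h3, hv.sumP, hv.sumR, ← hv.quad]
        ring
      rw [key p hp, key v₀ hS₀]

end Pool.Agent.Work.MP_620441_co
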